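import Mathlib

/-!
# Periodic integer sequences attached to a place
-/

set_option autoImplicit false

namespace Pool.Agent.TH923.Y0

open Finset

/-- the rule satisfied by the orders of `G`, `D` when `G + D = Z` -/
def Rule (τ d s : ℤ) : Prop := (d < s → d = τ) ∧ (s < d → s = τ) ∧ (d = s → d ≤ τ)

lemma per_of {N : ℕ} (hN : 0 < N) (P : ℕ → Prop) (hP : ∀ i, P (i + N) → P i)
    (hs : ∀ i, P i → P (i + 1)) (i₀ : ℕ) (h0 : P i₀) : ∀ i, P i := by
  have h1 : ∀ j, P (i₀ + j) := by
    intro j
    induction j with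
    | zero => simpa using h0
    | succ j ih => exact hs _ ih
  have h2 : ∀ n i, P (i + n * N) → P i := by
    intro n
    induction n with
    | zero => intro i h; simpa using h
    | succ n ih =>
      intro i h
      apply hP
      apply ih
      rw [Nat.succ_mul] at h
      rwa [add_assoc, add_comm N]
  intro i
  apply h2 i₀ i
  obtain ⟨c, hc⟩ := Nat.exists_eq_add_of_le (show i₀ ≤ i + i₀ * N by nlinarith)
  rw [hc]
  exact h1 c

lemma per_eq {N : ℕ} {α : Type*} {f : ℕ → α} (hf : ∀ i, f (i + N) = f i) (n i : ℕ) :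
    f (i + n * N) = f i := by
  induction n with
  | zero => simp
  | succ n ih => rw [Nat.succ_mul, ← add_assoc, hf, ih]

lemma sum_shift {N : ℕ} {f : ℕ → ℤ} (hf : ∀ i, f (i + N) = f i) :
    ∑ i ∈ range N, f (i + 1) = ∑ i ∈ range N, f i := by
  have h1 := Finset.sum_range_succ f N
  have h2 := Finset.sum_range_succ' f N
  have h3 : f N = f 0 := by simpa using hf 0
  linarith

lemma sum_shift' {N : ℕ} {f : ℕ → ℤ} (hf : ∀ i, f (i + N) = f i) (m : ℕ) :
    ∑ i ∈ range N, f (i + m) = ∑ i ∈ range N, f i := by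
  induction m with
  | zero => simp
  | succ m ih =>
    rw [← ih]
    have := sum_shift (f := fun i => f (i + m)) (fun i => by
      show f (i + N + m) = f (i + m)
      rw [show i + N + m = i + m + N by ring, hf])
    rw [← this]
    apply Finset.sum_congr rfl
    intro i _
    show f (i + (m + 1)) = f (i + 1 + m)
    congr 1
    ring

section

variable {N : ℕ} {q Γ : ℤ} {d s τ : ℕ → ℤ}

/-- the case `Γ < 0` -/
lemma seq_neg (hN : 0 < N) (hq : 2 ≤ q) (hΓ : Γ < 0) (hτ : ∀ i, 0 ≤ τ i)
    (hd : ∀ i, d (i + N) = d i) (hτp : ∀ i, τ (i + N) = τ i)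
    (hs : ∀ i, s (i + 1) = d (i + 1) + q * d i - Γ) (hr : ∀ i, Rule (τ i) (d i) (s i)) :
    (∀ i, d i = τ i) ∨ (∀ i, q * d i = Γ) := by
  have st1 : ∀ i, Γ < q * d i → d (i + 1) = τ (i + 1) := by
    intro i h
    exact (hr (i + 1)).1 (by rw [hs]; linarith)
  have st2 : ∀ i, d i = τ i → Γ < q * d i := by
    intro i h
    have := hτ i
    rw [h]
    nlinarith
  have st3 : (∃ i, d i = τ i) → ∀ i, d i = τ i := by
    rintro ⟨i₀, h0⟩
    exact per_of hN (fun i => d i = τ i) (fun i h => by rw [← hd, ← hτp]; exact h)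
      (fun i h => st1 i (st2 i h)) i₀ h0
  by_cases h : ∀ i, q * d i = Γ
  · exact Or.inr h
  left
  push Not at h
  obtain ⟨i, hi⟩ := h
  apply st3
  rcases lt_or_gt_of_ne hi with h | h
  · have h1 := (hr (i + 1)).2.1 (by rw [hs]; linarith)
    rw [hs] at h1
    have h2 := hτ (i + 1)
    exact ⟨i + 2, st1 (i + 1) (by nlinarith)⟩
  · exact ⟨i + 1, st1 i h⟩

/-- the case `Γ > 0` away from the special places -/
lemma seq_pos (hN : 0 < N) (hq : 2 ≤ q) (hΓ : 0 < Γ)
    (hd : ∀ i, d (i + N) = d i)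
    (hs : ∀ i, s (i + 1) = d (i + 1) + q * d i - Γ) (hr : ∀ i, Rule 0 (d i) (s i)) :
    (∀ i, (q + 1) * d i = Γ) ∨ (∀ i, (d i = 0 ∧ d (i + 1) = Γ) ∨ (d i = Γ ∧ d (i + 1) = 0)) := by
  have big : ∀ i, Γ < q * d i → d (i + 1) = 0 := by
    intro i h
    exact (hr (i + 1)).1 (by rw [hs]; linarith)
  have small : ∀ i, q * d i < Γ → d (i + 1) = Γ - q * d i := by
    intro i h
    have h1 := (hr (i + 1)).2.1 (by rw [hs]; linarith)
    rw [hs] at h1
    linarith
  have tie : ∀ i, q * d i = Γ → d (i + 1) ≤ 0 := by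
    intro i h
    exact (hr (i + 1)).2.2 (by rw [hs]; linarith)
  have z1 : ∀ i, d i = 0 → d (i + 1) = Γ := by
    intro i h
    rw [small i (by rw [h]; linarith), h]
    ring
  have z2 : ∀ i, d i = Γ → d (i + 1) = 0 := by
    intro i h
    exact big i (by rw [h]; nlinarith)
  by_cases hA : ∃ i, d i = 0 ∨ d i = Γ
  · right
    obtain ⟨i₀, h0⟩ := hA
    have h1 := per_of hN (fun i => d i = 0 ∨ d i = Γ) (fun i h => by rw [← hd]; exact h)
      (fun i h => h.elim (fun h => Or.inr (z1 i h)) (fun h => Or.inl (z2 i h))) i₀ h0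
    intro i
    rcases h1 i with h | h
    · exact Or.inl ⟨h, z1 i h⟩
    · exact Or.inr ⟨h, z2 i h⟩
  · left
    push Not at hA
    have hlt : ∀ i, q * d i < Γ := by
      intro i
      by_contra hcon
      push Not at hcon
      rcases hcon.lt_or_eq with h | h
      · exact (hA (i + 1)).1 (big i h)
      · have h1 := tie i h.symm
        rcases h1.lt_or_eq with h2 | h2
        · have h4 : q * d (i + 1) < 0 := mul_neg_of_pos_of_neg (by linarith) h2
          have h3 := small (i + 1) (by linarith)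
          have h5 : Γ < d (i + 1 + 1) := by rw [h3]; linarith
          have h6 : Γ < q * d (i + 1 + 1) := by nlinarith
          exact (hA (i + 1 + 1 + 1)).1 (big (i + 1 + 1) h6)
        · exact (hA (i + 1)).1 h2
    have hz : ∀ i n : ℕ, (q + 1) * d (i + n) - Γ = (-q) ^ n * ((q + 1) * d i - Γ) := by
      intro i n
      induction n with
      | zero => simp
      | succ n ih =>
        rw [← add_assoc, small (i + n) (hlt _), pow_succ]
        linear_combination (-q) * ih
    intro i
    have h1 := hz i N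
    rw [hd] at h1
    have h2 : |(-q) ^ N| * |(q + 1) * d i - Γ| = |(q + 1) * d i - Γ| := by
      rw [← abs_mul, ← h1]
    have h3 : 1 < |(-q) ^ N| := by
      rw [abs_pow, abs_neg, abs_of_pos (by linarith)]
      exact one_lt_pow₀ (by linarith) hN.ne'
    have h4 : |(q + 1) * d i - Γ| = 0 := by
      by_contra h5
      have h6 : 0 < |(q + 1) * d i - Γ| := lt_of_le_of_ne (abs_nonneg _) (Ne.symm h5)
      nlinarith
    rw [abs_eq_zero] at h4
    linarith

/-- the case `Γ = 0` -/
lemma seq_zero (hq : 2 ≤ q) (hτ : ∀ i, 0 ≤ τ i)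
    (hs : ∀ i, s (i + 1) = d (i + 1) + q * d i) (hr : ∀ i, Rule (τ i) (d i) (s i)) (i : ℕ) :
    0 ≤ d (i + 1) + max 0 (-d (i + 1)) - q * max 0 (-d i) ∧
    d (i + 1) + max 0 (-d (i + 1)) - q * max 0 (-d i) ≤ τ (i + 1) := by
  obtain ⟨h1, h2, h3⟩ := hr (i + 1)
  rw [hs] at h1 h2 h3
  have h4 := hτ (i + 1)
  rcases lt_trichotomy (d i) 0 with h | h | h
  · have h5 : q * d i < 0 := by nlinarith
    have h6 := h2 (by linarith)
    rw [max_eq_right (by linarith : (0:ℤ) ≤ - d i),
      max_eq_left (by linarith : -d (i + 1) ≤ (0:ℤ))]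
    constructor
    · linarith
    · linarith
  · rw [h] at h3 ⊢
    have h5 := h3 (by ring)
    simp only [neg_zero, max_self, mul_zero, sub_zero]
    constructor
    · rcases le_or_gt 0 (d (i + 1)) with h6 | h6
      · have := le_max_left 0 (-d (i + 1)); linarith
      · have := le_max_right 0 (-d (i + 1)); linarith
    · rcases le_or_gt 0 (d (i + 1)) with h6 | h6
      · rw [max_eq_left (by linarith)]; linarith
      · rw [max_eq_right (by linarith)]; linarith
  · have h5 : 0 < q * d i := by nlinarith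
    have h6 := h1 (by linarith)
    rw [max_eq_left (by linarith : -d i ≤ (0:ℤ)),
      max_eq_left (by linarith : -d (i + 1) ≤ (0:ℤ))]
    constructor
    · linarith
    · linarith

end

end Pool.Agent.TH923.Y0
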