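import Mathlib
import Pool.Agent.TH923.Y0.Seq

/-!
# Classification of the cyclic sequences at the special places
-/

set_option autoImplicit false

namespace Pool.Agent.TH923.Y0

open Finset

/-- transitions of the sequence at a special place with `Γ > 0` -/
structure Tr (N : ℕ) (q Γ : ℤ) (a : ℕ → ℤ) : Prop where
  big : ∀ i, i + 1 < N → Γ < q * a i → a (i + 1) = 0
  sm : ∀ i, i + 1 < N → q * a i < Γ → a (i + 1) = Γ - q * a i
  tie : ∀ i, i + 1 < N → q * a i = Γ → a (i + 1) ≤ 0
  Lbig : Γ < q * a (N - 1) → a 0 = 1
  Lsm : q * a (N - 1) < Γ → a 0 = 1 + Γ - q * a (N - 1)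
  Ltie : q * a (N - 1) = Γ → a 0 ≤ 1

variable {N : ℕ} {q Γ : ℤ} {a : ℕ → ℤ}

lemma Tr.alt (h : Tr N q Γ a) (hq : 2 ≤ q) (hΓ : 0 < Γ) {i₀ : ℕ} (h0 : a i₀ = 0) :
    ∀ j, i₀ + j < N → a (i₀ + j) = if Even j then 0 else Γ := by
  intro j
  induction j with
  | zero => intro _; simpa using h0
  | succ j ih =>
    intro hj
    have h1 := ih (by omega)
    by_cases he : Even j
    · rw [if_pos he] at h1
      have h2 := h.sm (i₀ + j) (by omega) (by rw [h1]; linarith)
      rw [if_neg (by rwa [Nat.even_add_one, not_not]), ← add_assoc, h2, h1]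
      ring
    · rw [if_neg he] at h1
      have h2 := h.big (i₀ + j) (by omega) (by rw [h1]; nlinarith)
      rw [if_pos (by rwa [Nat.even_add_one]), ← add_assoc, h2]

lemma no_int_sol (hq : 2 ≤ q) (hN : 3 ≤ N) (z : ℤ) (h : z = (q + 1) + (-q) ^ N * z) : False := by
  have h1 : |z| * (|(-q) ^ N| - 1) ≤ q + 1 := by
    have h2 : (-q) ^ N * z = z - (q + 1) := by linarith
    have h3 : |(-q) ^ N| * |z| ≤ |z| + (q + 1) := by
      rw [← abs_mul, h2]
      refine (abs_sub _ _).trans ?_
      rw [abs_of_pos (by linarith : 0 < q + 1)]
    nlinarith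
  have h2 : z ≠ 0 := by
    rintro rfl
    linarith
  have h3 : 1 ≤ |z| := Int.one_le_abs h2
  have h4 : q ^ 3 ≤ |(-q) ^ N| := by
    rw [abs_pow, abs_neg, abs_of_pos (by linarith)]
    exact pow_le_pow_right₀ (by linarith) hN
  have h5 : q + 2 < q ^ 3 := by nlinarith [sq_nonneg (q - 1)]
  nlinarith

/-- the five possible shapes -/
lemma Tr.cls (h : Tr N q Γ a) (hq : 2 ≤ q) (hΓ : 0 < Γ) (hN : 3 ≤ N) :
    (Even N ∧ a 0 = 1 + Γ ∧ ∀ i, 1 ≤ i → i < N → a i = if Even i then Γ else 0) ∨
    (Even N ∧ a 0 = 1 ∧ a 1 = Γ - q ∧ q ^ 2 < Γ * (q - 1) ∧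
      ∀ i, 2 ≤ i → i < N → a i = if Even i then 0 else Γ) ∨
    (¬ Even N ∧ Γ < q ∧ a 0 = 1 ∧ ∀ i, 1 ≤ i → i < N → a i = if Even i then Γ else 0) ∨
    (¬ Even N ∧ Γ = q ∧ a 0 = 1 ∧ a 1 ≤ 0 ∧ a 2 = q - q * a 1 ∧
      ∀ i, 3 ≤ i → i < N → a i = if Even i then Γ else 0) ∨
    (Even N ∧ q = 2 ∧ Γ = 4 ∧ a 0 = 1 ∧ a 1 = 2 ∧ a 2 ≤ 0 ∧ a 3 = 4 - 2 * a 2 ∧
      ∀ i, 4 ≤ i → i < N → a i = if Even i then 0 else Γ) := by
  have hlast : N - 1 < N := by omega
  have hzsm : ∀ i, a i = 0 → q * a i < Γ := fun i hi => by rw [hi]; linarith
  have hΓbig : ∀ i, a i = Γ → Γ < q * a i := fun i hi => by rw [hi]; nlinarith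
  rcases lt_trichotomy (q * a 0) Γ with h0 | h0 | h0
  · -- a 0 small
    have h1 := h.sm 0 (by omega) h0
    simp only [zero_add] at h1
    -- first show a 0 = 1
    have ha0 : a 0 = 1 := by
      by_contra hne
      -- then `a (N-1)` is small
      have hsm : q * a (N - 1) < Γ := by
        by_contra hcon
        push Not at hcon
        have hle : a 0 ≤ 1 := by
          rcases hcon.lt_or_eq with h2 | h2
          · exact (h.Lbig h2).le
          · exact h.Ltie h2.symm
        rcases hcon.lt_or_eq with h2 | h2
        · exact hne (h.Lbig h2)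
        · have h3 : a 0 ≤ 0 := by omega
          have h4 : Γ ≤ a 1 := by rw [h1]; nlinarith
          have h5 := h.big 1 (by omega) (by nlinarith)
          have h6 := h.alt hq hΓ h5 (N - 1 - 2) (by omega)
          rw [show 1 + 1 + (N - 1 - 2) = N - 1 by omega] at h6
          split_ifs at h6
          · rw [h6] at h2; linarith
          · rw [h6] at h2; nlinarith
      have hl := h.Lsm hsm
      -- everything is positive and small
      have hpos : ∀ j, j ≤ N - 1 → 0 < a (N - 1 - j) ∧ q * a (N - 1 - j) < Γ := by
        intro j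
        induction j with
        | zero =>
          intro _
          refine ⟨?_, hsm⟩
          simp only [Nat.sub_zero]
          by_contra hcon
          push Not at hcon
          have : Γ < a 0 := by rw [hl]; nlinarith
          nlinarith
        | succ j ih =>
          intro hj
          obtain ⟨h2, h3⟩ := ih (by omega)
          have e : N - 1 - j = (N - 1 - (j + 1)) + 1 := by omega
          set i := N - 1 - (j + 1) with hi
          rw [e] at h2 h3
          rcases lt_trichotomy (q * a i) Γ with h4 | h4 | h4
          · refine ⟨?_, h4⟩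
            have h5 := h.sm i (by omega) h4
            by_contra hcon
            push Not at hcon
            have : Γ ≤ a (i + 1) := by rw [h5]; nlinarith
            nlinarith
          · have := h.tie i (by omega) h4
            omega
          · have := h.big i (by omega) h4
            omega
      have hlin : ∀ i, i + 1 < N → a (i + 1) = Γ - q * a i := by
        intro i hi
        refine h.sm i hi ?_
        have := (hpos (N - 1 - i) (by omega)).2
        rwa [show N - 1 - (N - 1 - i) = i by omega] at this
      have hz : ∀ n, n < N → (q + 1) * a n - Γ = (-q) ^ n * ((q + 1) * a 0 - Γ) := by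
        intro n
        induction n with
        | zero => intro _; simp
        | succ n ih =>
          intro hn
          rw [hlin n hn, pow_succ]
          linear_combination (-q) * ih (by omega)
      have h2 := hz (N - 1) hlast
      apply no_int_sol hq hN ((q + 1) * a 0 - Γ)
      have h3 : (-q) ^ N = (-q) ^ (N - 1) * (-q) := by
        rw [← pow_succ]
        congr 1
        omega
      rw [h3]
      linear_combination (q + 1) * hl - q * h2
    rw [ha0] at h0 h1
    have hnsm : ¬ q * a (N - 1) < Γ := by
      intro hcon
      have := h.Lsm hcon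
      rw [ha0] at this
      linarith
    rcases lt_trichotomy (q * a 1) Γ with h2 | h2 | h2
    · exfalso
      rw [h1] at h2
      have h3 : Γ = q + 1 := by
        have : Γ < q + 2 := by
          by_contra hcon
          push Not at hcon
          nlinarith
        linarith
      have h4 : ∀ i, i < N → a i = 1 := by
        intro i
        induction i with
        | zero => intro _; exact ha0
        | succ i ih =>
          intro hi
          have h5 := ih (by omega)
          rw [h.sm i hi (by rw [h5, h3]; linarith), h5, h3]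
          ring
      apply hnsm
      rw [h4 _ hlast, h3]
      linarith
    · -- q = 2, Γ = 4
      have h3 : q * Γ - q ^ 2 = Γ := by rw [h1] at h2; linarith
      have h4 : (q - 1) * Γ = q ^ 2 := by linarith
      have h5 : (q - 1) ∣ 1 := by
        have h6 : (q - 1) ∣ q ^ 2 := ⟨Γ, h4.symm⟩
        have h7 : (q - 1) ∣ q ^ 2 - 1 := ⟨q + 1, by ring⟩
        have := dvd_sub h6 h7
        simpa using this
      have h6 : q = 2 := by
        have := Int.le_of_dvd one_pos h5
        omega
      subst h6
      have h7 : Γ = 4 := by linarith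
      subst h7
      have h8 : a 1 = 2 := by linarith
      have h9 := h.tie 1 (by omega) h2
      norm_num at h9
      by_cases hN3 : N = 3
      · exfalso
        subst hN3
        apply hnsm
        norm_num
        linarith
      have h10 := h.sm 2 (by omega) (by linarith)
      norm_num at h10
      by_cases hN4 : N = 4
      · subst hN4
        exact Or.inr (Or.inr (Or.inr (Or.inr ⟨by decide, rfl, rfl, ha0, h8, h9, h10,
          fun i h1 h2 => by omega⟩)))
      have h11 := h.big 3 (by omega) (by rw [h10]; linarith)
      norm_num at h11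
      have h12 := h.alt hq hΓ h11
      have hNe : Even N := by
        have h13 := h12 (N - 1 - 4) (by omega)
        rw [show 4 + (N - 1 - 4) = N - 1 by omega] at h13
        by_contra hcon
        rw [if_pos (by
          rw [Nat.even_sub (by omega), Nat.even_sub (by omega)]
          simp [hcon, Nat.even_iff])] at h13
        exact hnsm (by rw [h13]; norm_num)
      refine Or.inr (Or.inr (Or.inr (Or.inr ⟨hNe, rfl, rfl, ha0, h8, h9, h10, ?_⟩)))
      intro i hi1 hi2
      have := h12 (i - 4) (by omega)
      rw [show 4 + (i - 4) = i by omega] at this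
      rw [this]
      have : Even (i - 4) ↔ Even i := by
        rw [Nat.even_sub (by omega)]
        simp [Nat.even_iff]
      simp [this]
    · have h3 := h.big 1 (by omega) h2
      have h4 := h.alt hq hΓ h3
      have hNe : Even N := by
        have h5 := h4 (N - 1 - 2) (by omega)
        rw [show 1 + 1 + (N - 1 - 2) = N - 1 by omega] at h5
        by_contra hcon
        rw [if_pos (by
          rw [Nat.even_sub (by omega), Nat.even_sub (by omega)]
          simp [hcon])] at h5
        exact hnsm (hzsm _ h5)
      refine Or.inr (Or.inl ⟨hNe, ha0, by rw [h1]; ring, by rw [h1] at h2; nlinarith, ?_⟩)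
      intro i hi1 hi2
      have := h4 (i - 2) (by omega)
      rw [show 1 + 1 + (i - 2) = i by omega] at this
      rw [this]
      have : Even (i - 2) ↔ Even i := by
        rw [Nat.even_sub (by omega)]
        simp
      simp [this]
  · -- tie
    have h1 := h.tie 0 (by omega) h0
    simp only [zero_add] at h1
    have h1' : q * a 1 ≤ 0 := mul_nonpos_of_nonneg_of_nonpos (by linarith) h1
    have h2 := h.sm 1 (by omega) (by linarith)
    norm_num at h2
    have h2c : Γ ≤ a 2 := by rw [h2]; linarith
    have h2b : Γ < q * a 2 := by nlinarith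
    have hpar : ¬ Even N := by
      intro hcon
      have hN4 : 4 ≤ N := by
        rcases Nat.lt_or_ge N 4 with h5 | h5
        · have : N = 3 := by omega
          subst this
          exact absurd hcon (by decide)
        · exact h5
      have h3 := h.big 2 (by omega) h2b
      have h4 := h.alt hq hΓ h3 (N - 1 - 3) (by omega)
      rw [show 2 + 1 + (N - 1 - 3) = N - 1 by omega, if_pos (by
        rw [Nat.even_sub (by omega), Nat.even_sub (by omega)]
        simp [hcon, Nat.even_iff])] at h4
      have h5 := h.Lsm (hzsm _ h4)
      rw [h4] at h5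
      nlinarith
    have hbl : Γ < q * a (N - 1) := by
      by_cases hN3 : N = 3
      · subst hN3
        exact h2b
      have h3 := h.big 2 (by omega) h2b
      have h4 := h.alt hq hΓ h3 (N - 1 - 3) (by omega)
      rw [show 2 + 1 + (N - 1 - 3) = N - 1 by omega, if_neg (by
        rw [Nat.even_sub (by omega), Nat.even_sub (by omega)]
        simp [hpar, Nat.even_iff])] at h4
      exact hΓbig _ h4
    have h5 := h.Lbig hbl
    rw [h5, mul_one] at h0
    refine Or.inr (Or.inr (Or.inr (Or.inl ⟨hpar, h0.symm, h5, h1, by rw [h2, h0], ?_⟩)))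
    intro i hi1 hi2
    have h3 := h.big 2 (by omega) h2b
    have := h.alt hq hΓ h3 (i - 3) (by omega)
    rw [show 2 + 1 + (i - 3) = i by omega] at this
    rw [this]
    have : Even (i - 3) ↔ ¬ Even i := by
      rw [Nat.even_sub (by omega)]
      simp [Nat.even_iff]
    by_cases he : Even i
    · rw [if_neg (by rw [this]; simpa using he), if_pos he]
    · rw [if_pos (by rw [this]; exact he), if_neg he]
  · -- big
    have h1 := h.big 0 (by omega) h0
    simp only [zero_add] at h1
    have h2 : ∀ i, 1 ≤ i → i < N → a i = if Even i then Γ else 0 := by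
      intro i hi1 hi2
      have := h.alt hq hΓ h1 (i - 1) (by omega)
      rw [show 1 + (i - 1) = i by omega] at this
      rw [this]
      have : Even (i - 1) ↔ ¬ Even i := by
        rw [Nat.even_sub (by omega)]
        simp
      by_cases he : Even i
      · rw [if_neg (by rw [this]; simpa using he), if_pos he]
      · rw [if_pos (by rw [this]; exact he), if_neg he]
    have h3 := h2 (N - 1) (by omega) hlast
    by_cases hpar : Even N
    · rw [if_neg (by
        rw [Nat.even_sub (by omega)]
        simp [hpar])] at h3
      have h4 := h.Lsm (hzsm _ h3)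
      exact Or.inl ⟨hpar, by rw [h4, h3]; ring, h2⟩
    · rw [if_pos (by
        rw [Nat.even_sub (by omega)]
        simp [hpar])] at h3
      have h4 := h.Lbig (hΓbig _ h3)
      rw [h4] at h0
      exact Or.inr (Or.inr (Or.inl ⟨hpar, by linarith, h4, h2⟩))

end Pool.Agent.TH923.Y0
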