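import Mathlib
import Pool.Agent.TH923.Y0.Cls

/-!
# Local inequalities at the finite places, `q ≥ 3`
-/

set_option autoImplicit false

namespace Pool.Agent.TH923.Y0

open Finset

lemma sum_o_ge {N : ℕ} {o : ℕ → ℤ} (Ex : Finset ℕ) (h1 : ∀ i, -1 ≤ o i)
    (h2 : ∀ i, i < N → i ∉ Ex → 0 ≤ o i) : -(Ex.card : ℤ) ≤ ∑ i ∈ range N, o i := by
  have h3 : ∑ i ∈ range N, (if i ∈ Ex then (-1 : ℤ) else 0) ≤ ∑ i ∈ range N, o i := by
    apply Finset.sum_le_sum
    intro i hi
    split_ifs with h
    · exact h1 i
    · exact h2 i (mem_range.1 hi) h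
  refine le_trans ?_ h3
  rw [← Finset.sum_filter, Finset.sum_const, nsmul_eq_mul, mul_neg, mul_one]
  apply neg_le_neg
  norm_cast
  apply Finset.card_le_card
  intro i hi
  exact (mem_filter.1 hi).2

lemma sum_ge_sub {N : ℕ} {c : ℕ → ℤ} (S : Finset ℕ) (hS : ∀ i ∈ S, i < N)
    (h : ∀ i, i < N → i ∉ S → 0 ≤ c i) : ∑ i ∈ S, c i ≤ ∑ i ∈ range N, c i :=
  Finset.sum_le_sum_of_subset_of_nonneg (fun i hi => mem_range.2 (hS i hi))
    fun i hi hi' => h i (mem_range.1 hi) hi'

/-- the special place, `Γ > 0` -/
lemma pos_special {N : ℕ} {q p Γ : ℤ} {a c o : ℕ → ℤ} (hN : 3 ≤ N) (hq : 3 ≤ q)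
    (h33 : ¬ (q = 3 ∧ N = 3)) (hpq : p ∣ q) (hΓ : 0 < Γ) (hT : Tr N q Γ a)
    (haN : a N = a 0) (haN1 : a (N + 1) = a 1)
    (hc : ∀ i, c i = a (i + 1) + q * a i - Γ) (ho1 : ∀ i, -1 ≤ o i)
    (ho2 : ∀ i, p ∣ a i - a (i + 2) → 0 ≤ o i) :
    -(q - 1) ≤ ∑ i ∈ range N, (q * o i + c i) := by
  rw [Finset.sum_add_distrib, ← Finset.mul_sum]
  have hqs : 0 < q := by linarith
  have hz : ∀ i, a i = a (i + 2) → 0 ≤ o i := fun i hi => ho2 i (by rw [hi, sub_self]; exact dvd_zero _)
  rcases hT.cls (by linarith) hΓ hN with ⟨hev, h0, h1⟩ | ⟨hev, h0, h1, hG, h2⟩ |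
    ⟨hodd, hG, h0, h1⟩ | ⟨hodd, hG, h0, h1, h2, h3⟩ | ⟨-, h2, -⟩
  · -- E1
    have hN4 : 4 ≤ N := by
      rcases Nat.lt_or_ge N 4 with h5 | h5
      · have : N = 3 := by omega
        subst this
        exact absurd hev (by decide)
      · exact h5
    have hs1 : ∑ i ∈ ({0, N - 1} : Finset ℕ), c i ≤ ∑ i ∈ range N, c i := by
      apply sum_ge_sub
      · intro i hi
        simp only [mem_insert, mem_singleton] at hi
        omega
      · intro i hi hi'
        simp only [mem_insert, mem_singleton, not_or] at hi'
        rw [hc, h1 i (by omega) hi, h1 (i + 1) (by omega) (by omega)]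
        by_cases he : Even i
        · rw [if_pos he, if_neg (by rwa [Nat.even_add_one, not_not])]
          nlinarith
        · rw [if_neg he, if_pos (by rwa [Nat.even_add_one])]
          linarith
    rw [Finset.sum_pair (by omega)] at hs1
    have e1 : c 0 = q + (q - 1) * Γ := by
      rw [hc, h0, h1 (0 + 1) (by omega) (by omega), if_neg (by decide)]
      ring
    have e2 : c (N - 1) = 1 := by
      rw [hc, show N - 1 + 1 = N by omega, haN, h0, h1 (N - 1) (by omega) (by omega), if_neg (by
        rw [Nat.even_sub (by omega)]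
        simp [hev])]
      ring
    have hs2 : -(({0, N - 2} : Finset ℕ).card : ℤ) ≤ ∑ i ∈ range N, o i := by
      apply sum_o_ge _ ho1
      intro i hi hi'
      simp only [mem_insert, mem_singleton, not_or] at hi'
      apply hz
      rcases Nat.lt_or_ge (i + 2) N with h5 | h5
      · rw [h1 i (by omega) hi, h1 (i + 2) (by omega) h5]
        simp [Nat.even_add]
      · have : i = N - 1 := by omega
        subst this
        rw [show N - 1 + 2 = N + 1 by omega, haN1, h1 (N - 1) (by omega) (by omega),
          h1 1 (by omega) (by omega), if_neg (by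
            rw [Nat.even_sub (by omega)]
            simp [hev]), if_neg (by decide)]
    rw [Finset.card_pair (by omega)] at hs2
    push_cast at hs2
    nlinarith
  · -- E2
    have hN4 : 4 ≤ N := by
      rcases Nat.lt_or_ge N 4 with h5 | h5
      · have : N = 3 := by omega
        subst this
        exact absurd hev (by decide)
      · exact h5
    have hs1 : ∑ i ∈ ({1, N - 1} : Finset ℕ), c i ≤ ∑ i ∈ range N, c i := by
      apply sum_ge_sub
      · intro i hi
        simp only [mem_insert, mem_singleton] at hi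
        omega
      · intro i hi hi'
        simp only [mem_insert, mem_singleton, not_or] at hi'
        rcases Nat.eq_zero_or_pos i with rfl | hpos
        · rw [hc, h0, zero_add, h1]
          linarith
        rw [hc, h2 i (by omega) hi, h2 (i + 1) (by omega) (by omega)]
        by_cases he : Even i
        · rw [if_pos he, if_neg (by rwa [Nat.even_add_one, not_not])]
          linarith
        · rw [if_neg he, if_pos (by rwa [Nat.even_add_one])]
          nlinarith
    rw [Finset.sum_pair (by omega)] at hs1
    have e1 : c 1 = (q - 1) * Γ - q ^ 2 := by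
      rw [hc, h1, h2 (1 + 1) (by omega) (by omega), if_pos (by decide)]
      ring
    have e2 : c (N - 1) = 1 + (q - 1) * Γ := by
      rw [hc, show N - 1 + 1 = N by omega, haN, h0, h2 (N - 1) (by omega) (by omega), if_neg (by
        rw [Nat.even_sub (by omega)]
        simp [hev])]
      ring
    have hs2 : -(({0, N - 2} : Finset ℕ).card : ℤ) ≤ ∑ i ∈ range N, o i := by
      apply sum_o_ge _ ho1
      intro i hi hi'
      simp only [mem_insert, mem_singleton, not_or] at hi'
      rcases Nat.lt_or_ge (i + 2) N with h5 | h5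
      · by_cases hi1 : i = 1
        · subst hi1
          apply ho2
          rw [h1, h2 (1 + 2) (by omega) h5, if_neg (by decide)]
          rw [show Γ - q - Γ = -q by ring]
          exact hpq.neg_right
        · apply hz
          rw [h2 i (by omega) hi, h2 (i + 2) (by omega) h5]
          simp [Nat.even_add]
      · have : i = N - 1 := by omega
        subst this
        apply ho2
        rw [show N - 1 + 2 = N + 1 by omega, haN1, h2 (N - 1) (by omega) (by omega),
          h1, if_neg (by
            rw [Nat.even_sub (by omega)]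
            simp [hev])]
        rw [show Γ - (Γ - q) = q by ring]
        exact hpq
    rw [Finset.card_pair (by omega)] at hs2
    push_cast at hs2
    nlinarith
  · -- O1
    have e0 : c 0 = q - Γ := by
      rw [hc, h0, h1 (0 + 1) (by omega) (by omega), if_neg (by decide)]
      ring
    have elast : c (N - 1) = 1 + (q - 1) * Γ := by
      rw [hc, show N - 1 + 1 = N by omega, haN, h0, h1 (N - 1) (by omega) (by omega), if_pos (by
        rw [Nat.even_sub (by omega)]
        simp [hodd])]
      ring
    have hcn : ∀ i, 1 ≤ i → i < N - 1 → 0 ≤ c i := by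
      intro i hi1 hi2
      rw [hc, h1 i (by omega) (by omega), h1 (i + 1) (by omega) (by omega)]
      by_cases he : Even i
      · rw [if_pos he, if_neg (by rwa [Nat.even_add_one, not_not])]
        nlinarith
      · rw [if_neg he, if_pos (by rwa [Nat.even_add_one])]
        linarith
    have hgen : ∀ i, i < N → i ≠ 0 → i ≠ N - 2 → i ≠ N - 1 → 0 ≤ o i := by
      intro i hi hi1 hi2 hi3
      apply hz
      rw [h1 i (by omega) hi, h1 (i + 2) (by omega) (by omega)]
      simp [Nat.even_add]
    have hs1 : ∑ i ∈ ({0, N - 1} : Finset ℕ), c i ≤ ∑ i ∈ range N, c i := by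
      apply sum_ge_sub
      · intro i hi
        simp only [mem_insert, mem_singleton] at hi
        omega
      · intro i hi hi'
        simp only [mem_insert, mem_singleton, not_or] at hi'
        exact hcn i (by omega) (by omega)
    rw [Finset.sum_pair (by omega), e0, elast] at hs1
    by_cases hp1 : p ∣ Γ
    · have hs2 : -(({0, N - 2} : Finset ℕ).card : ℤ) ≤ ∑ i ∈ range N, o i := by
        apply sum_o_ge _ ho1
        intro i hi hi'
        simp only [mem_insert, mem_singleton, not_or] at hi'
        by_cases hi3 : i = N - 1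
        · subst hi3
          apply ho2
          rw [show N - 1 + 2 = N + 1 by omega, haN1, h1 (N - 1) (by omega) (by omega),
            h1 1 (by omega) (by omega), if_pos (by
            rw [Nat.even_sub (by omega)]
            simp [hodd]), if_neg (by decide), sub_zero]
          exact hp1
        · exact hgen i hi hi'.1 hi'.2 hi3
      rw [Finset.card_pair (by omega)] at hs2
      push_cast at hs2
      nlinarith
    by_cases hp2 : p ∣ 1 - Γ
    · have hs2 : -(({N - 2, N - 1} : Finset ℕ).card : ℤ) ≤ ∑ i ∈ range N, o i := by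
        apply sum_o_ge _ ho1
        intro i hi hi'
        simp only [mem_insert, mem_singleton, not_or] at hi'
        by_cases hi3 : i = 0
        · subst hi3
          apply ho2
          rw [h0, h1 (0 + 2) (by omega) (by omega), if_pos (by decide)]
          exact hp2
        · exact hgen i hi hi3 hi'.1 hi'.2
      rw [Finset.card_pair (by omega)] at hs2
      push_cast at hs2
      nlinarith
    have hΓ2 : 2 ≤ Γ := by
      by_contra hcon
      have : Γ = 1 := by omega
      exact hp2 (by rw [this, sub_self]; exact dvd_zero _)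
    have hs2 : -(({0, N - 2, N - 1} : Finset ℕ).card : ℤ) ≤ ∑ i ∈ range N, o i := by
      apply sum_o_ge _ ho1
      intro i hi hi'
      simp only [mem_insert, mem_singleton, not_or] at hi'
      exact hgen i hi hi'.1 hi'.2.1 hi'.2.2
    have hcard : (({0, N - 2, N - 1} : Finset ℕ).card : ℤ) ≤ 3 := by
      exact_mod_cast Finset.card_le_three
    by_cases hN3 : N = 3
    · have hq4 : 4 ≤ q := by
        by_contra hcon
        exact h33 ⟨by omega, hN3⟩
      nlinarith
    · have hN5 : 5 ≤ N := by
        by_contra hcon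
        have : N = 4 := by omega
        subst this
        exact hodd (by decide)
      have hs3 : ∑ i ∈ ({0, 2, N - 1} : Finset ℕ), c i ≤ ∑ i ∈ range N, c i := by
        apply sum_ge_sub
        · intro i hi
          simp only [mem_insert, mem_singleton] at hi
          omega
        · intro i hi hi'
          simp only [mem_insert, mem_singleton, not_or] at hi'
          exact hcn i (by omega) (by omega)
      rw [Finset.sum_insert (by simp; omega), Finset.sum_pair (by omega), e0, elast] at hs3
      have e2 : c 2 = (q - 1) * Γ := by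
        rw [hc, h1 2 (by omega) (by omega), h1 (2 + 1) (by omega) (by omega), if_neg (by decide),
          if_pos (by decide)]
        ring
      rw [e2] at hs3
      nlinarith
  · -- O2
    subst hG
    have e0 : c 0 = a 1 := by
      rw [hc, h0, zero_add]
      ring
    have e1 : c 1 = 0 := by
      rw [hc, show 1 + 1 = 2 by rfl, h2]
      ring
    by_cases hN3 : N = 3
    · subst hN3
      have e2 : c 2 = 1 + Γ * (Γ - Γ * a 1) - Γ := by
        rw [hc, show 2 + 1 = 3 by rfl, haN, h0, h2]
      have hs2 : -((Finset.range 3).card : ℤ) ≤ ∑ i ∈ range 3, o i := by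
        apply sum_o_ge _ ho1
        intro i hi hi'
        exact absurd (mem_range.2 hi) hi'
      rw [card_range] at hs2
      push_cast at hs2
      have hs1 : ∑ i ∈ range 3, c i = a 1 + (1 + Γ * (Γ - Γ * a 1) - Γ) := by
        simp only [sum_range_succ, sum_range_zero, e0, e1, e2]
        ring
      rw [hs1]
      have hm : 0 ≤ - a 1 := by linarith
      nlinarith [mul_nonneg hm (sq_nonneg Γ), mul_nonneg hm hqs.le]
    · have hN5 : 5 ≤ N := by
        by_contra hcon
        have : N = 4 := by omega
        subst this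
        exact hodd (by decide)
      have e2 : c 2 = Γ * (Γ - Γ * a 1) - Γ := by
        rw [hc, h2, h3 (2 + 1) (by omega) (by omega), if_neg (by decide)]
        ring
      have elast : c (N - 1) = 1 + (Γ - 1) * Γ := by
        rw [hc, show N - 1 + 1 = N by omega, haN, h0, h3 (N - 1) (by omega) (by omega), if_pos (by
          rw [Nat.even_sub (by omega)]
          simp [hodd])]
        ring
      have hs3 : ∑ i ∈ ({0, 2, N - 1} : Finset ℕ), c i ≤ ∑ i ∈ range N, c i := by
        apply sum_ge_sub
        · intro i hi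
          simp only [mem_insert, mem_singleton] at hi
          omega
        · intro i hi hi'
          simp only [mem_insert, mem_singleton, not_or] at hi'
          by_cases hi1 : i = 1
          · rw [hi1, e1]
          rw [hc, h3 i (by omega) hi, h3 (i + 1) (by omega) (by omega)]
          by_cases he : Even i
          · rw [if_pos he, if_neg (by rwa [Nat.even_add_one, not_not])]
            nlinarith
          · rw [if_neg he, if_pos (by rwa [Nat.even_add_one])]
            linarith
      rw [Finset.sum_insert (by simp; omega), Finset.sum_pair (by omega), e0, e2, elast] at hs3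
      have hs2 : -(({0, 1, N - 2, N - 1} : Finset ℕ).card : ℤ) ≤ ∑ i ∈ range N, o i := by
        apply sum_o_ge _ ho1
        intro i hi hi'
        simp only [mem_insert, mem_singleton, not_or] at hi'
        by_cases hi2 : i = 2
        · subst hi2
          apply ho2
          rw [h2, h3 (2 + 2) (by omega) (by omega), if_pos (by decide)]
          rw [show Γ - Γ * a 1 - Γ = Γ * (- a 1) by ring]
          exact hpq.mul_right _
        · apply hz
          rw [h3 i (by omega) hi, h3 (i + 2) (by omega) (by omega)]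
          simp [Nat.even_add]
      have hcard : (({0, 1, N - 2, N - 1} : Finset ℕ).card : ℤ) ≤ 4 := by
        exact_mod_cast Finset.card_le_four
      have hm : 0 ≤ - a 1 := by linarith
      nlinarith [mul_nonneg hm (sq_nonneg Γ), mul_nonneg hm hqs.le]
  · linarith

/-- both kinds of finite places, `Γ ≤ 0` -/
lemma nonpos_any {N : ℕ} {q p Γ : ℤ} {d s τ o : ℕ → ℤ} (hN : 3 ≤ N) (hq : 3 ≤ q) (hpq : p ∣ q)
    (hΓ : Γ ≤ 0) (hτ : ∀ i, 0 ≤ τ i) (hτ1 : ∑ i ∈ range N, τ i ≤ 1)
    (hd : ∀ i, d (i + N) = d i) (hτp : ∀ i, τ (i + N) = τ i) (hsp : ∀ i, s (i + N) = s i)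
    (hs : ∀ i, s (i + 1) = d (i + 1) + q * d i - Γ) (hr : ∀ i, Rule (τ i) (d i) (s i))
    (ho1 : ∀ i, -1 ≤ o i) (ho2 : ∀ i, p ∣ d i - d (i + 2) → 0 ≤ o i)
    (hII : Γ < 0 → (∀ i, q * d i = Γ) → ∀ i, - d i ≤ q * o i) :
    -((q - 1) * ∑ i ∈ range N, τ i) ≤ ∑ i ∈ range N, (q * o i + s i) := by
  have hτ0 : 0 ≤ ∑ i ∈ range N, τ i := Finset.sum_nonneg fun i _ => hτ i
  have hsum : ∑ i ∈ range N, s i = (q + 1) * ∑ i ∈ range N, d i - N * Γ := by
    rw [← sum_shift hsp]
    simp only [hs]
    rw [Finset.sum_sub_distrib, Finset.sum_add_distrib, ← Finset.mul_sum, sum_shift hd,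
      Finset.sum_const, card_range, nsmul_eq_mul]
    ring
  rcases hΓ.lt_or_eq with hΓ | hΓ
  · rcases seq_neg (by omega) (by linarith) hΓ hτ hd hτp hs hr with h | h
    · rw [Finset.sum_add_distrib, ← Finset.mul_sum, hsum]
      simp only [h]
      have h1 : -(∑ i ∈ range N, (τ i + τ (i + 2))) ≤ ∑ i ∈ range N, o i := by
        rw [← Finset.sum_neg_distrib]
        apply Finset.sum_le_sum
        intro i _
        have h2 := hτ i
        have h3 := hτ (i + 2)
        by_cases h4 : τ i + τ (i + 2) = 0
        · rw [h4, neg_zero]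
          apply ho2
          rw [h i, h (i + 2), show τ i - τ (i + 2) = 0 by linarith]
          exact dvd_zero _
        · have := ho1 i
          omega
      rw [Finset.sum_add_distrib, sum_shift' hτp 2] at h1
      have hN' : (3 : ℤ) ≤ N := by exact_mod_cast hN
      nlinarith
    · have h1 : ∀ i, 0 ≤ q * o i + s i := by
        intro i
        have h2 := hII hΓ h i
        have h3 : s i = d i := by
          have h4 := hs (i + (N - 1))
          rw [show i + (N - 1) + 1 = i + N by omega, hsp, hd] at h4
          have h5 := h (i + (N - 1))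
          linarith
        linarith
      have h2 : 0 ≤ ∑ i ∈ range N, (q * o i + s i) := Finset.sum_nonneg fun i _ => h1 i
      nlinarith
  · subst hΓ
    set n : ℕ → ℤ := fun i => max 0 (-d i) with hn
    have hn0 : ∀ i, 0 ≤ n i := fun i => le_max_left _ _
    have hnp : ∀ i, n (i + N) = n i := fun i => by simp only [hn, hd]
    set e : ℕ → ℤ := fun i => d i + n i - q * n (i + (N - 1)) with he
    have he1 : ∀ i, 0 ≤ e i ∧ e i ≤ τ i := by
      intro i
      have h1 := seq_zero (by linarith : (2 : ℤ) ≤ q) hτ (fun i => by rw [hs]; ring) hr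
        (i + (N - 1))
      rw [show i + (N - 1) + 1 = i + N by omega, hτp] at h1
      simp only [he, hn]
      rw [hd] at h1
      exact h1
    have hep : ∀ i, e (i + N) = e i := by
      intro i
      simp only [he]
      rw [hd, hnp, show i + N + (N - 1) = i + (N - 1) + N by omega, hnp]
    have hde : ∀ i, d i = e i - n i + q * n (i + (N - 1)) := by
      intro i
      simp only [he]
      ring
    have hsd : ∑ i ∈ range N, d i = ∑ i ∈ range N, e i + (q - 1) * ∑ i ∈ range N, n i := by
      rw [Finset.sum_congr rfl fun i _ => hde i, Finset.sum_add_distrib, Finset.sum_sub_distrib,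
        ← Finset.mul_sum, sum_shift' hnp]
      ring
    have h1 : -(∑ i ∈ range N, ((n i + n (i + 2)) + (e i + e (i + 2)))) ≤
        ∑ i ∈ range N, o i := by
      rw [← Finset.sum_neg_distrib]
      apply Finset.sum_le_sum
      intro i _
      have h2 := hn0 i
      have h3 := hn0 (i + 2)
      have h4 := (he1 i).1
      have h5 := (he1 (i + 2)).1
      by_cases h6 : (n i + n (i + 2)) + (e i + e (i + 2)) = 0
      · rw [h6, neg_zero]
        apply ho2
        rw [hde i, hde (i + 2)]
        have e1 : n i = 0 := by linarith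
        have e2 : n (i + 2) = 0 := by linarith
        have e3 : e i = 0 := by linarith
        have e4 : e (i + 2) = 0 := by linarith
        rw [e1, e2, e3, e4]
        have : (0 : ℤ) - 0 + q * n (i + (N - 1)) - (0 - 0 + q * n (i + 2 + (N - 1))) =
          q * (n (i + (N - 1)) - n (i + 2 + (N - 1))) := by ring
        rw [this]
        exact hpq.mul_right _
      · have := ho1 i
        omega
    rw [Finset.sum_add_distrib, Finset.sum_add_distrib, Finset.sum_add_distrib, sum_shift' hnp 2,
      sum_shift' hep 2] at h1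
    rw [Finset.sum_add_distrib, ← Finset.mul_sum, hsum, hsd]
    have hM : 0 ≤ ∑ i ∈ range N, n i := Finset.sum_nonneg fun i _ => hn0 i
    have hE0 : 0 ≤ ∑ i ∈ range N, e i := Finset.sum_nonneg fun i _ => (he1 i).1
    have hE1 : ∑ i ∈ range N, e i ≤ ∑ i ∈ range N, τ i :=
      Finset.sum_le_sum fun i _ => (he1 i).2
    nlinarith [mul_nonneg hM (by linarith : (0:ℤ) ≤ q - 3), mul_nonneg (mul_nonneg hM (by linarith : (0:ℤ) ≤ q - 3)) (by linarith : (0:ℤ) ≤ q),
      mul_le_mul_of_nonneg_left hE1 (by linarith : (0:ℤ) ≤ q - 1)]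

/-- ordinary finite places -/
lemma loc_ordinary {N : ℕ} {q p Γ : ℤ} {d s o : ℕ → ℤ} (hN : 3 ≤ N) (hq : 3 ≤ q) (hpq : p ∣ q)
    (hd : ∀ i, d (i + N) = d i) (hsp : ∀ i, s (i + N) = s i)
    (hs : ∀ i, s (i + 1) = d (i + 1) + q * d i - Γ) (hr : ∀ i, Rule 0 (d i) (s i))
    (ho1 : ∀ i, -1 ≤ o i) (ho2 : ∀ i, p ∣ d i - d (i + 2) → 0 ≤ o i)
    (hII : Γ < 0 → (∀ i, q * d i = Γ) → ∀ i, - d i ≤ q * o i) :
    0 ≤ ∑ i ∈ range N, (q * o i + s i) := by
  rcases le_or_gt Γ 0 with hΓ | hΓ
  · have := nonpos_any (τ := fun _ => 0) hN hq hpq hΓ (fun _ => le_rfl) (by simp) hd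
      (fun _ => rfl) hsp hs hr ho1 ho2 hII
    simpa using this
  · have h1 : (∀ i, d (i + 2) = d i) ∧ ∀ i, 0 ≤ s (i + 1) := by
      rcases seq_pos (by omega) (by linarith) hΓ hd hs hr with h | h
      · constructor
        · intro i
          have h1 := h i
          have h2 := h (i + 2)
          nlinarith
        · intro i
          rw [hs]
          have h1 := h i
          have h2 := h (i + 1)
          nlinarith
      · constructor
        · intro i
          rcases h i with ⟨h1, h2⟩ | ⟨h1, h2⟩ <;> rcases h (i + 1) with ⟨h3, h4⟩ | ⟨h3, h4⟩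
          · linarith
          · rw [show i + 2 = i + 1 + 1 by rfl, h4, h1]
          · rw [show i + 2 = i + 1 + 1 by rfl, h4, h1]
          · linarith
        · intro i
          rw [hs]
          rcases h i with ⟨h1, h2⟩ | ⟨h1, h2⟩
          · rw [h1, h2]; linarith
          · rw [h1, h2]; nlinarith
    apply Finset.sum_nonneg
    intro i _
    have h2 : 0 ≤ o i := ho2 i (by rw [h1.1 i, sub_self]; exact dvd_zero _)
    have h3 : 0 ≤ s i := by
      have := h1.2 (i + (N - 1))
      rwa [show i + (N - 1) + 1 = i + N by omega, hsp] at this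
    nlinarith

/-- special finite places: `τ i = 1` iff `i ≡ m` -/
lemma loc_special {N m : ℕ} {q p Γ : ℤ} {d s τ o : ℕ → ℤ} (hN : 3 ≤ N) (hq : 3 ≤ q)
    (h33 : ¬ (q = 3 ∧ N = 3)) (hpq : p ∣ q) (hm : m < N)
    (hτ : ∀ i, τ i = if i % N = m then 1 else 0)
    (hd : ∀ i, d (i + N) = d i) (hsp : ∀ i, s (i + N) = s i)
    (hop : ∀ i, o (i + N) = o i)
    (hs : ∀ i, s (i + 1) = d (i + 1) + q * d i - Γ) (hr : ∀ i, Rule (τ i) (d i) (s i))
    (ho1 : ∀ i, -1 ≤ o i) (ho2 : ∀ i, p ∣ d i - d (i + 2) → 0 ≤ o i)
    (hII : Γ < 0 → (∀ i, q * d i = Γ) → ∀ i, - d i ≤ q * o i) :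
    -(q - 1) ≤ ∑ i ∈ range N, (q * o i + s i) := by
  have hτ1 : ∑ i ∈ range N, τ i = 1 := by
    have : ∀ i ∈ range N, τ i = if m = i then 1 else 0 := by
      intro i hi
      rw [hτ, Nat.mod_eq_of_lt (mem_range.1 hi)]
      by_cases h : i = m
      · rw [if_pos h, if_pos h.symm]
      · rw [if_neg h, if_neg (Ne.symm h)]
    rw [Finset.sum_congr rfl this, Finset.sum_ite_eq, if_pos (mem_range.2 hm)]
  rcases le_or_gt Γ 0 with hΓ | hΓ
  · have := nonpos_any (τ := τ) hN hq hpq hΓ (fun i => by rw [hτ]; split_ifs <;> norm_num)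
      hτ1.le hd (fun i => by rw [hτ, hτ, Nat.add_mod_right]) hsp hs hr ho1 ho2 hII
    rw [hτ1, mul_one] at this
    exact this
  · have hτ0 : ∀ i, i % N ≠ m → τ i = 0 := fun i hi => by rw [hτ, if_neg hi]
    have hτm : τ m = 1 := by rw [hτ, if_pos (Nat.mod_eq_of_lt hm)]
    have hmod : ∀ j, 0 < j → j < N → (m + j) % N ≠ m := by
      intro j h1 h2 h3
      rcases Nat.lt_or_ge (m + j) N with h4 | h4
      · rw [Nat.mod_eq_of_lt h4] at h3
        omega
      · rw [Nat.mod_eq_sub_mod h4, Nat.mod_eq_of_lt (by omega)] at h3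
        omega
    have hT : Tr N q Γ (fun j => d (m + j)) := by
      refine ⟨?_, ?_, ?_, ?_, ?_, ?_⟩
      · intro i hi h
        have h1 := hr (m + i + 1)
        rw [hτ0 (m + i + 1) (hmod (i + 1) (by omega) hi)] at h1
        exact h1.1 (by rw [hs]; linarith)
      · intro i hi h
        have h1 := hr (m + i + 1)
        rw [hτ0 (m + i + 1) (hmod (i + 1) (by omega) hi)] at h1
        have h2 := h1.2.1 (by rw [hs]; linarith)
        rw [hs] at h2
        show d (m + i + 1) = Γ - q * d (m + i)
        linarith
      · intro i hi h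
        have h1 := hr (m + i + 1)
        rw [hτ0 (m + i + 1) (hmod (i + 1) (by omega) hi)] at h1
        exact h1.2.2 (by rw [hs]; linarith)
      · intro h
        have h1 := hr (m + (N - 1) + 1)
        rw [show m + (N - 1) + 1 = m + N by omega, hτ (m + N), Nat.add_mod_right,
          Nat.mod_eq_of_lt hm, if_pos rfl, hd, hsp] at h1
        have h2 := hs (m + (N - 1))
        rw [show m + (N - 1) + 1 = m + N by omega, hd, hsp] at h2
        exact h1.1 (by rw [h2]; linarith)
      · intro h
        have h1 := hr (m + (N - 1) + 1)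
        rw [show m + (N - 1) + 1 = m + N by omega, hτ (m + N), Nat.add_mod_right,
          Nat.mod_eq_of_lt hm, if_pos rfl, hd, hsp] at h1
        have h2 := hs (m + (N - 1))
        rw [show m + (N - 1) + 1 = m + N by omega, hd, hsp] at h2
        have h3 := h1.2.1 (by rw [h2]; linarith)
        show d m = 1 + Γ - q * d (m + (N - 1))
        linarith
      · intro h
        have h1 := hr (m + (N - 1) + 1)
        rw [show m + (N - 1) + 1 = m + N by omega, hτ (m + N), Nat.add_mod_right,
          Nat.mod_eq_of_lt hm, if_pos rfl, hd, hsp] at h1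
        have h2 := hs (m + (N - 1))
        rw [show m + (N - 1) + 1 = m + N by omega, hd, hsp] at h2
        exact h1.2.2 (by rw [h2]; linarith)
    have key := pos_special (a := fun j => d (m + j)) (c := fun j => s (m + j + 1))
      (o := fun j => o (m + j)) hN hq h33 hpq hΓ hT (hd m)
      (by show d (m + (N + 1)) = d (m + 1); rw [show m + (N + 1) = m + 1 + N by ring, hd])
      (fun i => hs (m + i)) (fun i => ho1 _) (fun i h => ho2 _ h)
    rw [Finset.sum_add_distrib, ← Finset.mul_sum] at key ⊢
    have e1 : ∑ i ∈ range N, o (m + i) = ∑ i ∈ range N, o i := by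
      rw [← sum_shift' hop m]
      exact Finset.sum_congr rfl fun i _ => by rw [add_comm]
    have e2 : ∑ i ∈ range N, s (m + i + 1) = ∑ i ∈ range N, s i := by
      rw [← sum_shift' hsp (m + 1)]
      exact Finset.sum_congr rfl fun i _ => by rw [show m + i + 1 = i + (m + 1) by ring]
    rw [e1, e2] at key
    exact key

end Pool.Agent.TH923.Y0
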