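import Mathlib
import Pool.Agent.TH923.Y0.Rat

/-!
# Orders of rational functions at the places of `k(T)`
-/

set_option autoImplicit false
set_option linter.unusedSectionVars false

namespace Pool.Agent.TH923.Y0

open Polynomial

variable {k : Type*} [Field k]

lemma ratOrd_mul (v : Option k) {x y : RatFunc k} (hx : x ≠ 0) (hy : y ≠ 0) :
    ratOrd v (x * y) = ratOrd v x + ratOrd v y := by
  cases v with
  | none =>
    simp only [ratOrd, RatFunc.intDegree_mul hx hy]
    ring
  | some c => exact ordc_mul c x y hx hy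

lemma ratOrd_one (v : Option k) : ratOrd v (1 : RatFunc k) = 0 := by
  have h := ratOrd_mul v (one_ne_zero : (1 : RatFunc k) ≠ 0) one_ne_zero
  rw [one_mul] at h
  linarith

lemma ratOrd_neg (v : Option k) (x : RatFunc k) : ratOrd v (-x) = ratOrd v x := by
  by_cases hx : x = 0
  · simp [hx]
  have h := ratOrd_mul v (neg_ne_zero.2 (one_ne_zero : (1 : RatFunc k) ≠ 0))
    (neg_ne_zero.2 (one_ne_zero : (1 : RatFunc k) ≠ 0))
  rw [neg_mul_neg, one_mul, ratOrd_one] at h
  have h2 := ratOrd_mul v (neg_ne_zero.2 (one_ne_zero : (1 : RatFunc k) ≠ 0)) hx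
  rw [neg_one_mul] at h2
  omega

lemma ratOrd_inv (v : Option k) {x : RatFunc k} (hx : x ≠ 0) :
    ratOrd v x⁻¹ = - ratOrd v x := by
  have h := ratOrd_mul v hx (inv_ne_zero hx)
  rw [mul_inv_cancel₀ hx, ratOrd_one] at h
  omega

lemma ratOrd_div (v : Option k) {x y : RatFunc k} (hx : x ≠ 0) (hy : y ≠ 0) :
    ratOrd v (x / y) = ratOrd v x - ratOrd v y := by
  rw [div_eq_mul_inv, ratOrd_mul v hx (inv_ne_zero hy), ratOrd_inv v hy]
  ring

lemma ratOrd_pow (v : Option k) {x : RatFunc k} (hx : x ≠ 0) (n : ℕ) :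
    ratOrd v (x ^ n) = n * ratOrd v x := by
  induction n with
  | zero => simp [ratOrd_one]
  | succ n ih =>
    rw [pow_succ, ratOrd_mul v (pow_ne_zero n hx) hx, ih]
    push_cast
    ring

lemma ratOrd_prod (v : Option k) {ι : Type*} (s : Finset ι) (f : ι → RatFunc k)
    (h : ∀ i ∈ s, f i ≠ 0) : ratOrd v (∏ i ∈ s, f i) = ∑ i ∈ s, ratOrd v (f i) := by
  classical
  induction s using Finset.induction_on with
  | empty => simp [ratOrd_one]
  | insert a s ha ih =>
    rw [Finset.prod_insert ha, Finset.sum_insert ha, ratOrd_mul v (h a (Finset.mem_insert_self _ _))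
      (Finset.prod_ne_zero_iff.2 fun i hi => h i (Finset.mem_insert_of_mem hi)),
      ih fun i hi => h i (Finset.mem_insert_of_mem hi)]

/-- `x` has order at least `n` at `v` -/
def GE (v : Option k) (n : ℤ) (x : RatFunc k) : Prop := x = 0 ∨ n ≤ ratOrd v x

/-- `x` has order exactly `n` at `v` -/
def EX (v : Option k) (n : ℤ) (x : RatFunc k) : Prop := x ≠ 0 ∧ ratOrd v x = n

lemma EX.ne {v : Option k} {n : ℤ} {x : RatFunc k} (h : EX v n x) : x ≠ 0 := h.1

lemma EX.ge {v : Option k} {n : ℤ} {x : RatFunc k} (h : EX v n x) : GE v n x := Or.inr h.2.ge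

lemma EX.self (v : Option k) {x : RatFunc k} (h : x ≠ 0) : EX v (ratOrd v x) x := ⟨h, rfl⟩

lemma GE.mono {v : Option k} {m n : ℤ} {x : RatFunc k} (h : GE v n x) (hm : m ≤ n) : GE v m x :=
  h.imp id fun h => hm.trans h

lemma GE.zero (v : Option k) (n : ℤ) : GE v n (0 : RatFunc k) := Or.inl rfl

lemma GE.ord {v : Option k} {n : ℤ} {x : RatFunc k} (h : GE v n x) (hx : x ≠ 0) :
    n ≤ ratOrd v x := h.resolve_left hx

lemma ratOrd_add (v : Option k) {x y : RatFunc k} {m : ℤ} (hx : x ≠ 0) (hy : y ≠ 0)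
    (hxy : x + y ≠ 0) (h1 : m ≤ ratOrd v x) (h2 : m ≤ ratOrd v y) : m ≤ ratOrd v (x + y) := by
  cases v with
  | none =>
    simp only [ratOrd] at h1 h2 ⊢
    have h3 := RatFunc.intDegree_add_le hy hxy
    rcases le_max_iff.mp h3 with h4 | h4
    · linarith
    · linarith
  | some c => exact ordc_add c x y m hx hy hxy h1 h2

lemma GE.add {v : Option k} {n : ℤ} {x y : RatFunc k} (hx : GE v n x) (hy : GE v n y) :
    GE v n (x + y) := by
  by_cases h1 : x = 0
  · rwa [h1, zero_add]
  by_cases h2 : y = 0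
  · rwa [h2, add_zero]
  by_cases h3 : x + y = 0
  · exact Or.inl h3
  exact Or.inr (ratOrd_add v h1 h2 h3 (hx.ord h1) (hy.ord h2))

lemma GE.neg {v : Option k} {n : ℤ} {x : RatFunc k} (hx : GE v n x) : GE v n (-x) := by
  rcases hx with h | h
  · exact Or.inl (by rw [h, neg_zero])
  · exact Or.inr (by rwa [ratOrd_neg])

lemma GE.sub {v : Option k} {n : ℤ} {x y : RatFunc k} (hx : GE v n x) (hy : GE v n y) :
    GE v n (x - y) := by
  rw [sub_eq_add_neg]
  exact hx.add hy.neg

lemma GE.mul {v : Option k} {m n : ℤ} {x y : RatFunc k} (hx : GE v m x) (hy : GE v n y) :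
    GE v (m + n) (x * y) := by
  by_cases h1 : x = 0
  · exact Or.inl (by rw [h1, zero_mul])
  by_cases h2 : y = 0
  · exact Or.inl (by rw [h2, mul_zero])
  refine Or.inr ?_
  rw [ratOrd_mul v h1 h2]
  exact add_le_add (hx.ord h1) (hy.ord h2)

lemma EX.mul {v : Option k} {m n : ℤ} {x y : RatFunc k} (hx : EX v m x) (hy : EX v n y) :
    EX v (m + n) (x * y) :=
  ⟨mul_ne_zero hx.1 hy.1, by rw [ratOrd_mul v hx.1 hy.1, hx.2, hy.2]⟩

lemma EX.neg {v : Option k} {n : ℤ} {x : RatFunc k} (hx : EX v n x) : EX v n (-x) :=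
  ⟨neg_ne_zero.2 hx.1, by rw [ratOrd_neg, hx.2]⟩

lemma EX.inv {v : Option k} {n : ℤ} {x : RatFunc k} (hx : EX v n x) : EX v (-n) x⁻¹ :=
  ⟨inv_ne_zero hx.1, by rw [ratOrd_inv v hx.1, hx.2]⟩

lemma EX.div {v : Option k} {m n : ℤ} {x y : RatFunc k} (hx : EX v m x) (hy : EX v n y) :
    EX v (m - n) (x / y) := ⟨div_ne_zero hx.1 hy.1, by rw [ratOrd_div v hx.1 hy.1, hx.2, hy.2]⟩

lemma EX.pow {v : Option k} {n : ℤ} {x : RatFunc k} (hx : EX v n x) (m : ℕ) :
    EX v (m * n) (x ^ m) := ⟨pow_ne_zero m hx.1, by rw [ratOrd_pow v hx.1, hx.2]⟩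

lemma GE.pow {v : Option k} {n : ℤ} {x : RatFunc k} (hx : GE v n x) {m : ℕ} (hm : m ≠ 0) :
    GE v (m * n) (x ^ m) := by
  rcases hx with h | h
  · exact Or.inl (by rw [h, zero_pow hm])
  · by_cases h0 : x = 0
    · exact Or.inl (by rw [h0, zero_pow hm])
    · refine Or.inr ?_
      rw [ratOrd_pow v h0]
      exact mul_le_mul_of_nonneg_left h (Int.natCast_nonneg m)

lemma EX.not_ge {v : Option k} {n : ℤ} {x : RatFunc k} (hx : EX v n x) : ¬ GE v (n + 1) x := by
  intro h
  have := h.ord hx.1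
  rw [hx.2] at this
  omega

lemma EX.add {v : Option k} {n : ℤ} {x y : RatFunc k} (hx : EX v n x) (hy : GE v (n + 1) y) :
    EX v n (x + y) := by
  have h1 : GE v n (x + y) := hx.ge.add (hy.mono (by omega))
  have h2 : ¬ GE v (n + 1) (x + y) := by
    intro h
    have := h.sub hy
    rw [add_sub_cancel_right] at this
    exact hx.not_ge this
  have h3 : x + y ≠ 0 := fun h => h2 (Or.inl h)
  refine ⟨h3, ?_⟩
  have h4 := h1.ord h3
  by_contra h5
  exact h2 (Or.inr (by omega))

lemma EX.add' {v : Option k} {n : ℤ} {x y : RatFunc k} (hx : GE v (n + 1) x) (hy : EX v n y) :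
    EX v n (x + y) := by
  rw [add_comm]
  exact hy.add hx

lemma EX.sub {v : Option k} {n : ℤ} {x y : RatFunc k} (hx : EX v n x) (hy : GE v (n + 1) y) :
    EX v n (x - y) := by
  rw [sub_eq_add_neg]
  exact hx.add hy.neg

lemma EX.unique {v : Option k} {m n : ℤ} {x : RatFunc k} (hx : EX v m x) (hy : EX v n x) :
    m = n := by rw [← hx.2, hy.2]

lemma EX.one (v : Option k) : EX v 0 (1 : RatFunc k) := ⟨one_ne_zero, ratOrd_one v⟩

lemma GE.of_ex_mul {v : Option k} {m n : ℤ} {x y : RatFunc k} (hx : EX v m x)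
    (h : GE v (m + n) (x * y)) : GE v n y := by
  rcases h with h | h
  · exact Or.inl ((mul_eq_zero.1 h).resolve_left hx.1)
  · by_cases hy : y = 0
    · exact Or.inl hy
    · refine Or.inr ?_
      rw [ratOrd_mul v hx.1 hy, hx.2] at h
      omega

lemma GE.of_pow {v : Option k} {n : ℤ} {x : RatFunc k} {m : ℕ} (hm : 0 < m)
    (h : GE v n (x ^ m)) : x = 0 ∨ n ≤ m * ratOrd v x := by
  rcases h with h | h
  · exact Or.inl ((pow_eq_zero_iff hm.ne').1 h)
  · by_cases hx : x = 0
    · exact Or.inl hx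
    · refine Or.inr ?_
      rwa [ratOrd_pow v hx] at h

/-- constants -/
lemma ratOrd_C (v : Option k) {c : k} (hc : c ≠ 0) : ratOrd v (RatFunc.C c) = 0 := by
  have h1 : RatFunc.C c = algebraMap k[X] (RatFunc k) (C c) := (RatFunc.algebraMap_C c).symm
  cases v with
  | none =>
    simp only [ratOrd]
    rw [h1, RatFunc.intDegree_polynomial, natDegree_C]
    simp
  | some a =>
    have h2 := ordc_mk a (C c) 1 (C_ne_zero.mpr hc) one_ne_zero
    rw [map_one, div_one] at h2
    simp only [ratOrd]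
    rw [h1, h2, rootMultiplicity_C, ← C_1, rootMultiplicity_C]
    simp

lemma EX.C (v : Option k) {c : k} (hc : c ≠ 0) : EX v 0 (RatFunc.C c : RatFunc k) :=
  ⟨by rwa [Ne, map_eq_zero], ratOrd_C v hc⟩

lemma GE.C (v : Option k) (c : k) : GE v 0 (RatFunc.C c : RatFunc k) := by
  by_cases hc : c = 0
  · exact Or.inl (by rw [hc, map_zero])
  · exact (EX.C v hc).ge

lemma CX_ne (a : k) : (RatFunc.C a - RatFunc.X : RatFunc k) ≠ 0 := by
  have : (RatFunc.C a - RatFunc.X : RatFunc k) =
      algebraMap k[X] (RatFunc k) (Polynomial.C a - X) := by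
    rw [map_sub, RatFunc.algebraMap_C, RatFunc.algebraMap_X]
  rw [this]
  apply RatFunc.algebraMap_ne_zero
  intro h
  have := congrArg (fun p : k[X] => p.coeff 1) h
  simp at this

lemma EX_CX_inf (a : k) : EX none (-1) (RatFunc.C a - RatFunc.X : RatFunc k) := by
  refine ⟨CX_ne a, ?_⟩
  have : (RatFunc.C a - RatFunc.X : RatFunc k) =
      algebraMap k[X] (RatFunc k) (Polynomial.C a - X) := by
    rw [map_sub, RatFunc.algebraMap_C, RatFunc.algebraMap_X]
  simp only [ratOrd]
  rw [this, RatFunc.intDegree_polynomial]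
  have h2 : (Polynomial.C a - X : k[X]).natDegree = 1 := by
    rw [natDegree_sub, natDegree_X_sub_C]
  rw [h2]
  rfl

lemma EX_CX_same (a : k) : EX (some a) 1 (RatFunc.C a - RatFunc.X : RatFunc k) := by
  refine ⟨CX_ne a, ?_⟩
  have h0 : (Polynomial.C a - X : k[X]) = - (X - Polynomial.C a) := by ring
  have : (RatFunc.C a - RatFunc.X : RatFunc k) =
      - algebraMap k[X] (RatFunc k) (X - Polynomial.C a) := by
    rw [map_sub, RatFunc.algebraMap_C, RatFunc.algebraMap_X]
    ring
  have h2 := ordc_mk a (X - Polynomial.C a) 1 (X_sub_C_ne_zero a) one_ne_zero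
  rw [map_one, div_one, rootMultiplicity_X_sub_C_self, ← Polynomial.C_1, rootMultiplicity_C] at h2
  rw [this, ratOrd_neg]
  simp only [ratOrd]
  rw [h2]
  simp

lemma EX_CX_ne {a c : k} (h : a ≠ c) : EX (some c) 0 (RatFunc.C a - RatFunc.X : RatFunc k) := by
  have h1 : (RatFunc.C a - RatFunc.X : RatFunc k) =
      RatFunc.C (a - c) + (RatFunc.C c - RatFunc.X) := by
    rw [map_sub]; ring
  rw [h1]
  exact (EX.C _ (sub_ne_zero.2 h)).add (by simpa using (EX_CX_same c).ge)

/-- residues: finite places -/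
lemma exists_res_fin (c : k) (x : RatFunc k) (h : GE (some c) 0 x) :
    ∃ a : k, GE (some c) 1 (x - RatFunc.C a) := by
  by_cases hx : x = 0
  · exact ⟨0, by rw [hx, map_zero, sub_zero]; exact GE.zero _ _⟩
  have hm := RatFunc.denom_ne_zero x
  have hn := RatFunc.num_ne_zero hx
  have h' := h.ord hx
  have hb0 : x.denom.rootMultiplicity c = 0 := by
    by_contra hcon
    have h1 : x.denom.IsRoot c := (rootMultiplicity_pos hm).mp (Nat.pos_of_ne_zero hcon)
    have h2 : x.num.IsRoot c := by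
      rw [← rootMultiplicity_pos hn]
      simp only [ratOrd, ordc] at h'
      omega
    obtain ⟨u, w, huw⟩ := RatFunc.isCoprime_num_denom x
    have h3 := congrArg (eval c) huw
    rw [IsRoot.def] at h1 h2
    simp [h1, h2] at h3
  have hd : x.denom.eval c ≠ 0 := by
    intro hcon
    have := (rootMultiplicity_pos hm).mpr hcon
    omega
  set a := x.num.eval c / x.denom.eval c with ha
  refine ⟨a, ?_⟩
  have h1 : x - RatFunc.C a = algebraMap k[X] (RatFunc k) (x.num - Polynomial.C a * x.denom) /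
      algebraMap k[X] (RatFunc k) x.denom := by
    rw [map_sub, sub_div, map_mul, mul_div_cancel_right₀ _ (RatFunc.algebraMap_ne_zero hm),
      RatFunc.algebraMap_C, RatFunc.num_div_denom]
  by_cases h0 : x.num - Polynomial.C a * x.denom = 0
  · left
    rw [h1, h0, map_zero, zero_div]
  · right
    rw [h1]
    have h2 := ordc_mk c _ _ h0 hm
    simp only [ratOrd]
    rw [h2, hb0]
    have h3 : 0 < (x.num - Polynomial.C a * x.denom).rootMultiplicity c := by
      rw [rootMultiplicity_pos h0, IsRoot.def, eval_sub, eval_mul, eval_C, ha,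
        div_mul_cancel₀ _ hd, sub_self]
    push_cast
    omega

/-- residues: the infinite place -/
lemma exists_res_inf (x : RatFunc k) (h : GE none 0 x) :
    ∃ a : k, GE none 1 (x - RatFunc.C a) := by
  by_cases hx : x = 0
  · exact ⟨0, by rw [hx, map_zero, sub_zero]; exact GE.zero _ _⟩
  have hm := RatFunc.denom_ne_zero x
  have hn := RatFunc.num_ne_zero hx
  have h' := h.ord hx
  have hdeg : x.num.natDegree ≤ x.denom.natDegree := by
    simp only [ratOrd, RatFunc.intDegree] at h'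
    omega
  set a := x.num.coeff x.denom.natDegree / x.denom.leadingCoeff with ha
  refine ⟨a, ?_⟩
  have h1 : x - RatFunc.C a = algebraMap k[X] (RatFunc k) (x.num - Polynomial.C a * x.denom) /
      algebraMap k[X] (RatFunc k) x.denom := by
    rw [map_sub, sub_div, map_mul, mul_div_cancel_right₀ _ (RatFunc.algebraMap_ne_zero hm),
      RatFunc.algebraMap_C, RatFunc.num_div_denom]
  by_cases h0 : x.num - Polynomial.C a * x.denom = 0
  · left
    rw [h1, h0, map_zero, zero_div]
  · right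
    rw [h1]
    simp only [ratOrd]
    rw [intDegree_mk _ _ h0 hm]
    have h3 : (x.num - Polynomial.C a * x.denom).natDegree < x.denom.natDegree := by
      have h4 : (x.num - Polynomial.C a * x.denom).natDegree ≤ x.denom.natDegree := by
        refine (natDegree_sub_le _ _).trans (max_le hdeg ?_)
        exact natDegree_C_mul_le _ _
      refine lt_of_le_of_ne h4 fun h5 => ?_
      have h6 : (x.num - Polynomial.C a * x.denom).coeff x.denom.natDegree = 0 := by
        rw [coeff_sub, coeff_C_mul, ha, ← leadingCoeff,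
          div_mul_cancel₀ _ (leadingCoeff_ne_zero.2 hm), sub_self]
      rw [← h5] at h6
      exact h0 (leadingCoeff_eq_zero.1 h6)
    omega

lemma exists_res (v : Option k) (x : RatFunc k) (h : GE v 0 x) :
    ∃ a : k, GE v 1 (x - RatFunc.C a) := by
  cases v with
  | none => exact exists_res_inf x h
  | some c => exact exists_res_fin c x h

lemma ratD_C (c : k) : ratD k (RatFunc.C c) = 0 := by
  rw [← RatFunc.algebraMap_C, ratD_alg, derivative_C, map_zero]

lemma ratD_X : ratD k (RatFunc.X : RatFunc k) = 1 := by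
  rw [← RatFunc.algebraMap_X, ratD_alg, derivative_X, map_one]

lemma ratD_zero : ratD k (0 : RatFunc k) = 0 := (ratDer k).map_zero

lemma ratD_neg (x : RatFunc k) : ratD k (-x) = - ratD k x := (ratDer k).map_neg x

lemma ratD_sub (x y : RatFunc k) : ratD k (x - y) = ratD k x - ratD k y := (ratDer k).map_sub x y

/-- general lower bound -/
lemma GE.ratD_fin {c : k} {n : ℤ} {x : RatFunc k} (h : GE (some c) n x) :
    GE (some c) (n - 1) (ratD k x) := by
  by_cases h0 : ratD k x = 0
  · exact Or.inl h0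
  have hx : x ≠ 0 := fun hx => h0 (by rw [hx, ratD_zero])
  have h1 := ratD_ordc c x hx h0
  have h2 := h.ord hx
  refine Or.inr ?_
  simp only [ratOrd] at h2 ⊢
  omega

lemma GE.ratD_inf {n : ℤ} {x : RatFunc k} (h : GE none n x) :
    GE none (n + 1) (ratD k x) := by
  by_cases h0 : ratD k x = 0
  · exact Or.inl h0
  have hx : x ≠ 0 := fun hx => h0 (by rw [hx, ratD_zero])
  have h1 := ratD_ord_inf x hx h0
  have h2 := h.ord hx
  refine Or.inr ?_
  simp only [ratOrd] at h2 ⊢
  omega

lemma GE.ratD_fin0 {c : k} {x : RatFunc k} (h : GE (some c) 0 x) :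
    GE (some c) 0 (ratD k x) := by
  obtain ⟨a, ha⟩ := exists_res _ x h
  have := GE.ratD_fin ha
  rwa [ratD_sub, ratD_C, sub_zero, sub_self] at this

lemma GE.ratD_inf0 {x : RatFunc k} (h : GE none 0 x) :
    GE none 2 (ratD k x) := by
  obtain ⟨a, ha⟩ := exists_res _ x h
  have := GE.ratD_inf ha
  rwa [ratD_sub, ratD_C, sub_zero] at this

lemma ratD_pow_p {p : ℕ} [CharP k p] (x : RatFunc k) : ratD k (x ^ p) = 0 := by
  have h : ratDer k (x ^ p) = p • x ^ (p - 1) • ratDer k x := (ratDer k).leibniz_pow x p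
  have h2 : (p : RatFunc k) = 0 := by
    have : ((p : k) : k) = 0 := CharP.cast_eq_zero k p
    have h3 := congrArg (RatFunc.C (K := k)) this
    rwa [map_natCast, map_zero] at h3
  rw [← ratDer_apply, h, nsmul_eq_mul, h2, zero_mul]

lemma ratD_pow_dvd {p q : ℕ} [CharP k p] (hpq : p ∣ q) (x : RatFunc k) : ratD k (x ^ q) = 0 := by
  obtain ⟨m, rfl⟩ := hpq
  rw [mul_comm p m, pow_mul]
  exact ratD_pow_p _

lemma ratD_zpow_p {p : ℕ} [CharP k p] (x : RatFunc k) (hx : x ≠ 0) (m : ℤ) :
    ratD k (x ^ ((p : ℤ) * m)) = 0 := by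
  have h1 : ∀ n : ℕ, ratD k (x ^ ((p : ℤ) * n)) = 0 := by
    intro n
    have : x ^ ((p : ℤ) * n) = (x ^ n) ^ p := by
      rw [← zpow_natCast, ← zpow_natCast, ← zpow_mul]
      congr 1
      ring
    rw [this]
    exact ratD_pow_p _
  rcases Int.eq_nat_or_neg m with ⟨n, rfl | rfl⟩
  · exact h1 n
  · have h2 := ratD_mul (x ^ ((p : ℤ) * (-(n : ℤ)))) (x ^ ((p : ℤ) * n))
    rw [← zpow_add₀ hx, h1 n, mul_zero, zero_add] at h2
    have h3 : (p : ℤ) * (-(n : ℤ)) + (p : ℤ) * n = 0 := by ring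
    rw [h3, zpow_zero] at h2
    have h4 : ratD k (1 : RatFunc k) = 0 := (ratDer k).map_one_eq_zero
    rw [h4] at h2
    exact (mul_eq_zero.1 h2.symm).resolve_left (zpow_ne_zero _ hx)

/-- a uniformizer at each place -/
noncomputable def unif (v : Option k) : RatFunc k :=
  match v with
  | none => (RatFunc.C 0 - RatFunc.X)⁻¹
  | some c => RatFunc.C c - RatFunc.X

lemma EX_unif (v : Option k) : EX v 1 (unif v) := by
  cases v with
  | none =>
    have h := (EX_CX_inf (0 : k)).inv
    rw [neg_neg] at h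
    exact h
  | some c => exact EX_CX_same c

lemma EX.zpow {v : Option k} {n : ℤ} {x : RatFunc k} (hx : EX v n x) (m : ℤ) :
    EX v (m * n) (x ^ m) := by
  rcases Int.eq_nat_or_neg m with ⟨j, rfl | rfl⟩
  · rw [zpow_natCast]
    exact hx.pow j
  · rw [zpow_neg, zpow_natCast, neg_mul]
    exact (hx.pow j).inv

/-- if `p ∣ n`, the derivative of an element of order `n` has the same order or more (finite
places) -/
lemma EX.ratD_fin_p {p : ℕ} [CharP k p] {c : k} {n : ℤ} {x : RatFunc k} (h : EX (some c) n x)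
    (hp : (p : ℤ) ∣ n) : GE (some c) n (ratD k x) := by
  obtain ⟨m, rfl⟩ := hp
  have hu := EX_unif (some c)
  set w := unif (some c) ^ ((p : ℤ) * m) with hw
  have hw1 : EX (some c) ((p : ℤ) * m) w := by simpa using hu.zpow ((p : ℤ) * m)
  set z := x / w with hz
  have hz1 : EX (some c) 0 z := by simpa using h.div hw1
  have hx : x = w * z := by rw [hz, mul_div_cancel₀ _ hw1.ne]
  rw [hx, ratD_mul, hw, ratD_zpow_p _ hu.ne, mul_zero, add_zero, ← hw]
  simpa using hw1.ge.mul (GE.ratD_fin0 hz1.ge)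

lemma EX.ratD_inf_p {p : ℕ} [CharP k p] {n : ℤ} {x : RatFunc k} (h : EX none n x)
    (hp : (p : ℤ) ∣ n) : GE none (n + 2) (ratD k x) := by
  obtain ⟨m, rfl⟩ := hp
  have hu := EX_unif (none : Option k)
  set w := unif (none : Option k) ^ ((p : ℤ) * m) with hw
  have hw1 : EX none ((p : ℤ) * m) w := by simpa using hu.zpow ((p : ℤ) * m)
  set z := x / w with hz
  have hz1 : EX none 0 z := by simpa using h.div hw1
  have hx : x = w * z := by rw [hz, mul_div_cancel₀ _ hw1.ne]
  rw [hx, ratD_mul, hw, ratD_zpow_p _ hu.ne, mul_zero, add_zero, ← hw]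
  exact hw1.ge.mul (GE.ratD_inf0 hz1.ge)

end Pool.Agent.TH923.Y0
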