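import Mathlib
import Pool.Agent.TH923.Y0.Val
import Pool.Agent.TH923.Y0.Seq

/-!
# The reduced system
-/

set_option autoImplicit false

namespace Pool.Agent.TH923.Y0

open Finset

/-- The functional equations `G_{i+1} G_i^q = J (θ_{i+1} - T - G_{i+1})` coming from a rational
subgroup. -/
structure Red (k : Type*) [Field k] (p q N : ℕ) where
  hp : p.Prime
  hq : ∃ f : ℕ, f ≠ 0 ∧ q = p ^ f
  hN : 3 ≤ N
  θ : ℕ → k
  G : ℕ → RatFunc k
  J : RatFunc k
  σ : RatFunc k →+* RatFunc k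
  θ_succ : ∀ i, θ (i + 1) = θ i ^ q
  θ_per : ∀ i, θ (i + N) = θ i
  θ_inj : ∀ i j, θ i = θ j → i % N = j % N
  G_ne : ∀ i, G i ≠ 0
  J_ne : J ≠ 0
  D_ne : ∀ i, RatFunc.C (θ i) - RatFunc.X - G i ≠ 0
  G_per : ∀ i, G (i + N) = G i
  rel : ∀ i, G (i + 1) * G i ^ q = J * (RatFunc.C (θ (i + 1)) - RatFunc.X - G (i + 1))
  σ_G : ∀ i, σ (G i) = G (i + 1)
  σ_J : σ J = J
  σ_X : σ RatFunc.X = RatFunc.X
  σ_C : ∀ c, σ (RatFunc.C c) = RatFunc.C (c ^ q)
  σ_inf : ∀ x, ratOrd none (σ x) = ratOrd none x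
  σ_D : ∀ x, ratD k (σ x) = σ (ratD k x)

namespace Red

variable {k : Type*} [Field k] {p q N : ℕ} (R : Red k p q N)

/-- the second summand -/
noncomputable def D (i : ℕ) : RatFunc k := RatFunc.C (R.θ i) - RatFunc.X - R.G i

lemma D_ne' (i : ℕ) : R.D i ≠ 0 := R.D_ne i

lemma D_per (i : ℕ) : R.D (i + N) = R.D i := by
  unfold D
  rw [R.θ_per, R.G_per]

lemma rel' (i : ℕ) : R.G (i + 1) * R.G i ^ q = R.J * R.D (i + 1) := R.rel i

include R in
lemma Npos : 0 < N := by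
  have := R.hN
  omega

include R in
lemma q_ge : 2 ≤ q := by
  obtain ⟨f, hf, hq⟩ := R.hq
  rw [hq]
  calc 2 ≤ p := R.hp.two_le
    _ = p ^ 1 := (pow_one p).symm
    _ ≤ p ^ f := Nat.pow_le_pow_right R.hp.pos (Nat.one_le_iff_ne_zero.2 hf)

include R in
lemma p_dvd : p ∣ q := by
  obtain ⟨f, hf, hq⟩ := R.hq
  rw [hq]
  exact dvd_pow_self p hf

include R in
lemma sub_pow_q [CharP k p] (x y : RatFunc k) : (x - y) ^ q = x ^ q - y ^ q := by
  have : Fact p.Prime := ⟨R.hp⟩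
  have : CharP (RatFunc k) p := charP_of_injective_algebraMap (algebraMap k (RatFunc k)).injective p
  obtain ⟨f, -, hq⟩ := R.hq
  rw [hq]
  exact sub_pow_char_pow x y f

include R in
lemma sub_pow_q' [CharP k p] (x y : k) : (x - y) ^ q = x ^ q - y ^ q := by
  have : Fact p.Prime := ⟨R.hp⟩
  obtain ⟨f, -, hq⟩ := R.hq
  rw [hq]
  exact sub_pow_char_pow x y f

/-- `u i l = G i / G l`, `E i l = G i / G l - 1` -/
noncomputable def E (i l : ℕ) : RatFunc k := R.G i / R.G l - 1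

lemma one_add_E (i l : ℕ) : 1 + R.E i l = R.G i / R.G l := by
  unfold E
  ring

/-- the basic identity -/
lemma star [CharP k p] (i l : ℕ) :
    R.D (l + 1) * (1 + R.E (i + 1) (l + 1)) * R.E i l ^ q =
      RatFunc.C (R.θ (i + 1) - R.θ (l + 1)) -
        (RatFunc.C (R.θ (l + 1)) - RatFunc.X) * R.E (i + 1) (l + 1) := by
  have h1 : R.E i l ^ q = R.G i ^ q / R.G l ^ q - 1 := by
    unfold E
    rw [R.sub_pow_q, one_pow, div_pow]
  have g0 := pow_ne_zero q (R.G_ne l)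
  have g1 := R.G_ne (i + 1)
  have g2 := R.G_ne (l + 1)
  have j0 := R.J_ne
  have d1 := R.D_ne' (l + 1)
  have r1 := R.rel' i
  have r2 := R.rel' l
  have h2 : R.G i ^ q / R.G l ^ q = R.D (i + 1) * R.G (l + 1) / (R.D (l + 1) * R.G (i + 1)) := by
    rw [div_eq_div_iff g0 (mul_ne_zero d1 g1)]
    have h3 : R.J * (R.G i ^ q * (R.D (l + 1) * R.G (i + 1))) =
        R.J * (R.D (i + 1) * R.G (l + 1) * R.G l ^ q) := by
      linear_combination (R.D (l + 1) * R.J) * r1 - R.J * R.D (i + 1) * r2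
    exact mul_left_cancel₀ j0 h3
  rw [h1, h2, one_add_E]
  unfold E
  rw [map_sub]
  have e1 : R.D (i + 1) = RatFunc.C (R.θ (i + 1)) - RatFunc.X - R.G (i + 1) := rfl
  have e2 : R.D (l + 1) = RatFunc.C (R.θ (l + 1)) - RatFunc.X - R.G (l + 1) := rfl
  field_simp
  rw [e1, e2]
  ring

lemma D_add (i : ℕ) : R.G i + R.D i = RatFunc.C (R.θ i) - RatFunc.X := by
  unfold D
  ring

lemma rule (v : Option k) (i : ℕ) :
    Rule (ratOrd v (RatFunc.C (R.θ i) - RatFunc.X)) (ratOrd v (R.G i)) (ratOrd v (R.D i)) := by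
  have hG := EX.self v (R.G_ne i)
  have hD := EX.self v (R.D_ne' i)
  have hs := R.D_add i
  refine ⟨fun h => ?_, fun h => ?_, fun h => ?_⟩
  · have := hG.add (hD.ge.mono (by omega))
    rw [hs] at this
    exact this.2.symm
  · have := EX.add' (hG.ge.mono (by omega)) hD
    rw [hs] at this
    exact this.2.symm
  · have := hG.ge.add (hD.ge.mono (by omega))
    rw [hs] at this
    exact this.ord (CX_ne _)

lemma s_eq (v : Option k) (i : ℕ) :
    ratOrd v (R.D (i + 1)) = ratOrd v (R.G (i + 1)) + q * ratOrd v (R.G i) - ratOrd v R.J := by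
  have h := congrArg (ratOrd v) (R.rel' i)
  rw [ratOrd_mul v (R.G_ne _) (pow_ne_zero _ (R.G_ne _)), ratOrd_mul v R.J_ne (R.D_ne' _),
    ratOrd_pow v (R.G_ne _)] at h
  linarith

section Two

variable [CharP k p]

/-- places of the second kind -/
lemma typeII_fin (c : k) (t : ℤ) (ht : 1 ≤ t) (hG : ∀ i, EX (some c) (-t) (R.G i)) :
    ∃ e : ℤ, q * e = t ∧ (q : ℤ) ∣ e ∧ ∀ i l, R.θ i ≠ R.θ l → EX (some c) e (R.E i l) := by
  have hq2 := R.q_ge
  have hqZ : (2 : ℤ) ≤ q := by exact_mod_cast hq2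
  have hκ : ∀ a : k, GE (some c) 0 (RatFunc.C a - RatFunc.X) := by
    intro a
    by_cases h : a = c
    · rw [h]; exact (EX_CX_same c).ge.mono (by norm_num)
    · exact (EX_CX_ne h).ge
  have hD : ∀ i, EX (some c) (-t) (R.D i) := by
    intro i
    have : R.D i = -R.G i + (RatFunc.C (R.θ i) - RatFunc.X) := by unfold D; ring
    rw [this]
    exact (hG i).neg.add ((hκ _).mono (by omega))
  have hu : ∀ i l, EX (some c) 0 (1 + R.E i l) := by
    intro i l
    rw [one_add_E]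
    simpa using (hG i).div (hG l)
  -- step 1
  have h1 : ∀ i l, GE (some c) 1 (R.E i l) := by
    intro i l
    have h2 := R.star i l
    have h3 : GE (some c) 0 (RatFunc.C (R.θ (i + 1) - R.θ (l + 1)) -
        (RatFunc.C (R.θ (l + 1)) - RatFunc.X) * R.E (i + 1) (l + 1)) := by
      apply GE.sub (GE.C _ _)
      have h4 : GE (some c) 0 (R.E (i + 1) (l + 1)) := by
        have : R.E (i + 1) (l + 1) = (1 + R.E (i + 1) (l + 1)) - 1 := by ring
        rw [this]
        exact (hu _ _).ge.sub (EX.one _).ge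
      simpa using (hκ (R.θ (l + 1))).mul h4
    rw [← h2] at h3
    have h5 := (hD (l + 1)).mul (hu (i + 1) (l + 1))
    have h6 := GE.of_ex_mul (n := t) h5 (by simpa using h3)
    rcases GE.of_pow (by omega) h6 with h7 | h7
    · exact Or.inl h7
    · right
      by_contra hcon
      push Not at hcon
      have : ratOrd (some c) (R.E i l) ≤ 0 := by omega
      nlinarith
  -- step 2
  have h2 : ∀ i l, R.θ i ≠ R.θ l → R.E i l ≠ 0 ∧ q * ratOrd (some c) (R.E i l) = t := by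
    intro i l hil
    have h3 := R.star i l
    have h4 : R.θ (i + 1) - R.θ (l + 1) ≠ 0 := by
      rw [R.θ_succ, R.θ_succ, ← R.sub_pow_q']
      exact pow_ne_zero _ (sub_ne_zero.2 hil)
    have h5 : EX (some c) 0 (RatFunc.C (R.θ (i + 1) - R.θ (l + 1)) -
        (RatFunc.C (R.θ (l + 1)) - RatFunc.X) * R.E (i + 1) (l + 1)) := by
      apply (EX.C _ h4).sub
      simpa using (hκ (R.θ (l + 1))).mul (h1 (i + 1) (l + 1))
    rw [← h3] at h5
    have h6 : R.E i l ≠ 0 := by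
      intro h
      apply h5.1
      rw [h, zero_pow (by omega), mul_zero]
    refine ⟨h6, ?_⟩
    have h7 := ((hD (l + 1)).mul (hu (i + 1) (l + 1))).mul ((EX.self (some c) h6).pow q)
    have := h7.unique h5
    linarith
  -- the common order
  obtain ⟨e, he, hE⟩ : ∃ e : ℤ, q * e = t ∧ ∀ i l, R.θ i ≠ R.θ l → EX (some c) e (R.E i l) := by
    have h01 : R.θ 0 ≠ R.θ 1 := by
      intro h
      have := R.θ_inj 0 1 h
      have hN := R.hN
      rw [Nat.zero_mod, Nat.mod_eq_of_lt (by omega)] at this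
      omega
    refine ⟨ratOrd (some c) (R.E 0 1), (h2 0 1 h01).2, ?_⟩
    intro i l hil
    refine ⟨(h2 i l hil).1, ?_⟩
    have e1 := (h2 0 1 h01).2
    have e2 := (h2 i l hil).2
    have e3 : (q : ℤ) * (ratOrd (some c) (R.E i l) - ratOrd (some c) (R.E 0 1)) = 0 := by
      rw [mul_sub, e1, e2]; ring
    rcases mul_eq_zero.1 e3 with h | h
    · omega
    · omega
  refine ⟨e, he, ?_, hE⟩
  have he1 : 1 ≤ e := by
    by_contra hcon
    push Not at hcon
    have : e ≤ 0 := by omega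
    nlinarith
  -- step 3
  have hrel : ∀ i l m : ℕ,
      RatFunc.C (R.θ (i + 1) - R.θ (l + 1)) * R.E m l ^ q
        - RatFunc.C (R.θ (m + 1) - R.θ (l + 1)) * R.E i l ^ q =
      RatFunc.C (R.θ (m + 1) - R.θ (l + 1)) * R.E (i + 1) (l + 1) * R.E i l ^ q
        - RatFunc.C (R.θ (i + 1) - R.θ (l + 1)) * R.E (m + 1) (l + 1) * R.E m l ^ q
        + (RatFunc.C (R.θ (l + 1)) - RatFunc.X) *
          (R.E (i + 1) (l + 1) * (1 + R.E (m + 1) (l + 1)) * R.E m l ^ q
            - R.E (m + 1) (l + 1) * (1 + R.E (i + 1) (l + 1)) * R.E i l ^ q) := by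
    intro i l m
    have s1 := R.star i l
    have s2 := R.star m l
    linear_combination (-(1 + R.E (m + 1) (l + 1)) * R.E m l ^ q) * s1
      + ((1 + R.E (i + 1) (l + 1)) * R.E i l ^ q) * s2
  have hpowc : ∀ i l m : ℕ, (RatFunc.C (R.θ i - R.θ l) * R.E m l
        - RatFunc.C (R.θ m - R.θ l) * R.E i l) ^ q =
      RatFunc.C (R.θ (i + 1) - R.θ (l + 1)) * R.E m l ^ q
        - RatFunc.C (R.θ (m + 1) - R.θ (l + 1)) * R.E i l ^ q := by
    intro i l m
    rw [R.sub_pow_q, mul_pow, mul_pow, ← map_pow, ← map_pow, R.sub_pow_q', R.sub_pow_q',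
      ← R.θ_succ, ← R.θ_succ, ← R.θ_succ]
  have hlow : ∀ i l m : ℕ, R.θ i ≠ R.θ l → R.θ m ≠ R.θ l →
      GE (some c) ((q + 1) * e) (RatFunc.C (R.θ (i + 1) - R.θ (l + 1)) * R.E m l ^ q
        - RatFunc.C (R.θ (m + 1) - R.θ (l + 1)) * R.E i l ^ q) := by
    intro i l m hil hml
    have hil' : R.θ (i + 1) ≠ R.θ (l + 1) := by
      rw [← sub_ne_zero, R.θ_succ, R.θ_succ, ← R.sub_pow_q']
      exact pow_ne_zero _ (sub_ne_zero.2 hil)
    have hml' : R.θ (m + 1) ≠ R.θ (l + 1) := by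
      rw [← sub_ne_zero, R.θ_succ, R.θ_succ, ← R.sub_pow_q']
      exact pow_ne_zero _ (sub_ne_zero.2 hml)
    rw [hrel]
    have a1 := (hE _ _ hil').ge
    have a2 := (hE _ _ hml').ge
    have b1 := ((hE _ _ hil).pow q).ge
    have b2 := ((hE _ _ hml).pow q).ge
    have c1 := (hu (i + 1) (l + 1)).ge
    have c2 := (hu (m + 1) (l + 1)).ge
    refine GE.add (GE.sub ?_ ?_) ?_
    · exact (((GE.C _ _).mul a1).mul b1).mono (by linarith)
    · exact (((GE.C _ _).mul a2).mul b2).mono (by linarith)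
    · refine ((hκ _).mul (GE.sub ((a1.mul c2).mul b2) (((a2.mul c1).mul b1).mono ?_))).mono ?_
      · linarith
      · linarith
  have hη : ∀ i l m : ℕ, R.θ i ≠ R.θ l → R.θ m ≠ R.θ l →
      GE (some c) (e + 1) (RatFunc.C (R.θ i - R.θ l) * R.E m l
        - RatFunc.C (R.θ m - R.θ l) * R.E i l) := by
    intro i l m hil hml
    have h3 := hlow i l m hil hml
    rw [← hpowc] at h3
    rcases GE.of_pow (by omega) h3 with h4 | h4
    · exact Or.inl h4
    · right
      by_contra hcon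
      push Not at hcon
      have : ratOrd (some c) (RatFunc.C (R.θ i - R.θ l) * R.E m l
        - RatFunc.C (R.θ m - R.θ l) * R.E i l) ≤ e := by omega
      nlinarith
  -- three distinct indices
  have hN := R.hN
  have hne : ∀ a b : ℕ, a < 3 → b < 3 → a ≠ b → R.θ a ≠ R.θ b := by
    intro a b ha hb hab h
    have := R.θ_inj a b h
    rw [Nat.mod_eq_of_lt (by omega), Nat.mod_eq_of_lt (by omega)] at this
    exact hab this
  have h01 := hne 1 0 (by norm_num) (by norm_num) (by norm_num)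
  have h02 := hne 2 0 (by norm_num) (by norm_num) (by norm_num)
  have h12 := hne 1 2 (by norm_num) (by norm_num) (by norm_num)
  have hs' : ∀ a b : ℕ, R.θ a ≠ R.θ b → R.θ (a + 1) ≠ R.θ (b + 1) := by
    intro a b hab
    rw [← sub_ne_zero, R.θ_succ, R.θ_succ, ← R.sub_pow_q']
    exact pow_ne_zero _ (sub_ne_zero.2 hab)
  have g01 := hs' _ _ h01
  have g02 := hs' _ _ h02
  set a := R.θ (1 + 1) - R.θ (0 + 1) with ha
  set b := R.θ (2 + 1) - R.θ (0 + 1) with hb
  have ha0 : a ≠ 0 := sub_ne_zero.2 g01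
  have hb0 : b ≠ 0 := sub_ne_zero.2 g02
  have hLam := hlow 1 0 2 h01 h02
  have hη1 := hη (1 + 1) (0 + 1) (2 + 1) g01 g02
  rw [← ha, ← hb] at hLam hη1
  set Λ := RatFunc.C a * R.E 2 0 ^ q - RatFunc.C b * R.E 1 0 ^ q with hΛ
  set η := RatFunc.C a * R.E (2 + 1) (0 + 1) - RatFunc.C b * R.E (1 + 1) (0 + 1) with hηd
  have hdiff : EX (some c) e (R.E 1 0 - R.E 2 0) := by
    have h3 : R.E 1 0 - R.E 2 0 = R.E 1 2 * (R.G 2 / R.G 0) := by
      unfold E
      have := R.G_ne 2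
      have := R.G_ne 0
      field_simp
      ring
    rw [h3]
    have h4 := (hE _ _ h12).mul ((hG 2).div (hG 0))
    simpa using h4
  have hkey : RatFunc.C b * Λ =
      RatFunc.C b * (RatFunc.C a * R.E (2 + 1) (0 + 1) * (R.E 1 0 - R.E 2 0) ^ q)
      + (-(RatFunc.C b * (η * R.E 1 0 ^ q))
      + (RatFunc.C (R.θ (0 + 1)) - RatFunc.X) * (R.E (2 + 1) (0 + 1) * Λ - η * R.E 2 0 ^ q)
      - (RatFunc.C (R.θ (0 + 1)) - RatFunc.X) * (RatFunc.C b * R.E (1 + 1) (0 + 1)
          * R.E (2 + 1) (0 + 1) * (R.E 1 0 - R.E 2 0) ^ q)) := by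
    have h3 := hrel 1 0 2
    rw [← ha, ← hb, ← hΛ] at h3
    rw [R.sub_pow_q, hΛ, hηd] at *
    linear_combination (RatFunc.C b) * h3
  have hex : EX (some c) ((q + 1) * e) (RatFunc.C b * Λ) := by
    rw [hkey]
    apply EX.add
    · have h3 := (EX.C (some c) hb0).mul (((EX.C (some c) ha0).mul (hE _ _ g02)).mul (hdiff.pow q))
      have h4 : 0 + (0 + e + q * e) = (q + 1) * e := by ring
      rwa [h4] at h3
    · have t1 := ((GE.C (some c) b).mul (hη1.mul ((hE _ _ h01).pow q).ge)).neg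
      have t2 := (hE _ _ g02).ge.mul hLam
      have t3 := hη1.mul ((hE _ _ h02).pow q).ge
      have t4 := (((GE.C (some c) b).mul (hE _ _ g01).ge).mul (hE _ _ g02).ge).mul
        (hdiff.pow q).ge
      have t5 : GE (some c) ((q + 1) * e + 1)
          (R.E (2 + 1) (0 + 1) * Λ - η * R.E 2 0 ^ q) :=
        GE.sub (t2.mono (by linarith)) (t3.mono (by linarith))
      have t6 := (hκ (R.θ (0 + 1))).mul t5
      have t7 := (hκ (R.θ (0 + 1))).mul t4
      exact GE.sub (GE.add (t1.mono (by linarith)) (t6.mono (by linarith)))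
        (t7.mono (by linarith))
  have hΛex : EX (some c) ((q + 1) * e) Λ := by
    have h3 := (EX.C (some c) hb0).inv.mul hex
    rw [← mul_assoc, inv_mul_cancel₀ (EX.C (some c) hb0).1, one_mul] at h3
    simpa using h3
  have h5 := hpowc 1 0 2
  rw [← ha, ← hb, ← hΛ] at h5
  rw [← h5] at hΛex
  have h6 := hΛex.1
  have h7 : RatFunc.C (R.θ 1 - R.θ 0) * R.E 2 0 - RatFunc.C (R.θ 2 - R.θ 0) * R.E 1 0 ≠ 0 := by
    intro h
    rw [h, zero_pow (by omega)] at h6
    exact h6 rfl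
  have h8 := hΛex.2
  rw [ratOrd_pow _ h7] at h8
  refine ⟨ratOrd (some c) (RatFunc.C (R.θ 1 - R.θ 0) * R.E 2 0
    - RatFunc.C (R.θ 2 - R.θ 0) * R.E 1 0) - e, ?_⟩
  linarith

end Two

end Red

end Pool.Agent.TH923.Y0
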