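import Mathlib
import Pool.Agent.TH923.Y0.Red
import Pool.Agent.TH923.Y0.Loc3

/-!
# The global inequality for `q ≥ 3`
-/

set_option autoImplicit false

namespace Pool.Agent.TH923.Y0

open Finset

namespace Red

variable {k : Type*} [Field k] {p q N : ℕ} (R : Red k p q N)

/-- the ratio `G_i / G_{i+2}` -/
noncomputable def u (i : ℕ) : RatFunc k := R.G i / R.G (i + 2)

lemma u_ne (i : ℕ) : R.u i ≠ 0 := div_ne_zero (R.G_ne _) (R.G_ne _)

lemma u_per (i : ℕ) : R.u (i + N) = R.u i := by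
  unfold u
  rw [R.G_per, show i + N + 2 = i + 2 + N by ring, R.G_per]

lemma u_ord (v : Option k) (i : ℕ) :
    ratOrd v (R.u i) = ratOrd v (R.G i) - ratOrd v (R.G (i + 2)) :=
  ratOrd_div v (R.G_ne _) (R.G_ne _)

/-- logarithmic derivative -/
noncomputable def w (i : ℕ) : RatFunc k := ratD k (R.u i) / R.u i

lemma w_per (i : ℕ) : R.w (i + N) = R.w i := by
  unfold w
  rw [R.u_per]

/-- nondegeneracy -/
def ND : Prop := ∀ i, ratD k (R.u i) ≠ 0

variable {R}

lemma w_ne (h : R.ND) (i : ℕ) : R.w i ≠ 0 := div_ne_zero (h i) (R.u_ne i)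

lemma w_ord (h : R.ND) (v : Option k) (i : ℕ) :
    ratOrd v (R.w i) = ratOrd v (ratD k (R.u i)) - ratOrd v (R.u i) :=
  ratOrd_div v (h i) (R.u_ne i)

lemma w_ge_fin (h : R.ND) (c : k) (i : ℕ) : -1 ≤ ratOrd (some c) (R.w i) := by
  rw [w_ord h]
  have h1 := (GE.ratD_fin (EX.self (some c) (R.u_ne i)).ge).ord (h i)
  omega

lemma w_ge_fin_p [CharP k p] (h : R.ND) (c : k) (i : ℕ)
    (hp : (p : ℤ) ∣ ratOrd (some c) (R.G i) - ratOrd (some c) (R.G (i + 2))) :
    0 ≤ ratOrd (some c) (R.w i) := by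
  rw [w_ord h]
  have h1 := ((EX.self (some c) (R.u_ne i)).ratD_fin_p (p := p) (by rwa [R.u_ord])).ord (h i)
  omega

lemma ratD_u_eq (i : ℕ) : ratD k (R.u i) = ratD k (R.E i (i + 2)) := by
  unfold E
  rw [ratD_sub]
  have h4 : ratD k (1 : RatFunc k) = 0 := (ratDer k).map_one_eq_zero
  rw [h4, sub_zero]
  rfl

lemma θ_ne_two (R : Red k p q N) (i : ℕ) : R.θ i ≠ R.θ (i + 2) := by
  intro h
  have h1 := R.θ_inj _ _ h
  have hN := R.hN
  have h2 : (2 : ℕ) ≡ 0 [MOD N] := by
    have : i + 2 ≡ i + 0 [MOD N] := h1.symm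
    exact Nat.ModEq.add_left_cancel' i this
  have h3 : N ∣ 2 := (Nat.modEq_zero_iff_dvd).1 h2
  have := Nat.le_of_dvd (by norm_num) h3
  omega

lemma w_typeII [CharP k p] (h : R.ND) (c : k)
    (hΓ : ratOrd (some c) R.J < 0) (hall : ∀ i, (q : ℤ) * ratOrd (some c) (R.G i) = ratOrd (some c) R.J)
    (i : ℕ) : ∃ e : ℤ, (q : ℤ) * e = - ratOrd (some c) (R.G i) ∧ (q : ℤ) ∣ e ∧
      e ≤ ratOrd (some c) (R.w i) := by
  have hq2 : (2 : ℤ) ≤ q := by exact_mod_cast R.q_ge
  set t := - ratOrd (some c) (R.G i) with ht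
  have hconst : ∀ j, ratOrd (some c) (R.G j) = -t := by
    intro j
    have h1 := hall i
    have h2 := hall j
    have h3 : (q : ℤ) * (ratOrd (some c) (R.G j) - ratOrd (some c) (R.G i)) = 0 := by
      rw [mul_sub, h1, h2]; ring
    rcases mul_eq_zero.1 h3 with h4 | h4
    · omega
    · omega
  have ht1 : 1 ≤ t := by
    by_contra hcon
    push Not at hcon
    have h1 := hall i
    have : 0 ≤ ratOrd (some c) (R.G i) := by omega
    nlinarith
  obtain ⟨e, he1, he2, he3⟩ := R.typeII_fin c t ht1 (fun j => ⟨R.G_ne j, hconst j⟩)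
  refine ⟨e, he1, he2, ?_⟩
  have h1 := he3 i (i + 2) (R.θ_ne_two i)
  have hpe : (p : ℤ) ∣ e := by
    have : (p : ℤ) ∣ q := by exact_mod_cast R.p_dvd
    exact this.trans he2
  have h2 := (h1.ratD_fin_p hpe)
  rw [← ratD_u_eq] at h2
  have h3 := h2.ord (h i)
  rw [w_ord h, R.u_ord, hconst i, hconst (i + 2)]
  linarith

/-- the infinite place: everything is constant -/
lemma G_inf (R : Red k p q N) (i : ℕ) : ratOrd none (R.G i) = ratOrd none (R.G 0) := by
  induction i with
  | zero => rfl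
  | succ i ih => rw [← R.σ_G, R.σ_inf, ih]

lemma u_inf (R : Red k p q N) (i : ℕ) : ratOrd none (R.u i) = 0 := by
  rw [R.u_ord, R.G_inf i, R.G_inf (i + 2), sub_self]

lemma w_inf [CharP k p] (h : R.ND) (i : ℕ) : 2 ≤ ratOrd none (R.w i) := by
  have h1 : EX none 0 (R.u i) := ⟨R.u_ne i, R.u_inf i⟩
  have h2 := (GE.ratD_inf0 h1.ge).ord (h i)
  rw [w_ord h, R.u_inf]
  linarith

lemma σ_E (R : Red k p q N) (i l : ℕ) : R.σ (R.E i l) = R.E (i + 1) (l + 1) := by
  unfold E
  rw [map_sub, map_div₀, R.σ_G, R.σ_G, map_one]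

lemma E_ne (h : R.ND) (i : ℕ) : R.E i (i + 2) ≠ 0 := by
  intro h1
  apply h i
  rw [ratD_u_eq, h1, ratD_zero]

/-- the tie case at infinity with large pole -/
lemma inf_tie [CharP k p] (h : R.ND) (i : ℕ) (t : ℤ) (htq : (q : ℤ) < t)
    (hD : ∀ i, ratOrd none (R.D i) = -t) :
    ∃ e : ℤ, 1 ≤ e ∧ t ≤ q * e ∧ EX none e (R.E i (i + 2)) := by
  have hq2 : (2 : ℤ) ≤ q := by exact_mod_cast R.q_ge
  have hu : ∀ i, EX none 0 (1 + R.E i (i + 2)) := by
    intro i
    rw [one_add_E]
    have : R.G i / R.G (i + 2) = R.u i := rfl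
    rw [this]
    exact ⟨R.u_ne i, R.u_inf i⟩
  set e := ratOrd none (R.E i (i + 2)) with he
  have hE : EX none e (R.E i (i + 2)) := EX.self _ (E_ne h i)
  have hE' : EX none e (R.E (i + 1) (i + 2 + 1)) := by
    refine ⟨E_ne h (i + 1), ?_⟩
    rw [← R.σ_E, R.σ_inf]
  have he0 : 0 ≤ e := by
    have h1 : GE none 0 (R.E i (i + 2)) := by
      have : R.E i (i + 2) = (1 + R.E i (i + 2)) - 1 := by ring
      rw [this]
      exact (hu i).ge.sub (EX.one _).ge
    exact h1.ord (E_ne h i)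
  have hs := R.star i (i + 2)
  have hDe : EX none (-t) (R.D (i + 2 + 1)) := ⟨R.D_ne' _, hD _⟩
  have hL := (hDe.mul (hu (i + 1))).mul (hE.pow q)
  rw [show i + 1 + 2 = i + 2 + 1 by ring, hs] at hL
  have hR : GE none (min 0 (e - 1)) (RatFunc.C (R.θ (i + 1) - R.θ (i + 2 + 1)) -
      (RatFunc.C (R.θ (i + 2 + 1)) - RatFunc.X) * R.E (i + 1) (i + 2 + 1)) := by
    apply GE.sub ((GE.C _ _).mono (min_le_left _ _))
    refine ((EX_CX_inf _).mul hE').ge.mono ?_
    have := min_le_right 0 (e - 1)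
    linarith
  have h1 := hR.ord hL.1
  rw [hL.2] at h1
  have he1 : 1 ≤ e := by
    by_contra hcon
    have : e = 0 := by omega
    rw [this] at h1
    norm_num at h1
    linarith
  refine ⟨e, he1, ?_, hE⟩
  rw [min_eq_left (by linarith)] at h1
  linarith

lemma loc_inf [CharP k p] (h : R.ND) (i : ℕ) :
    (q : ℤ) ≤ q * ratOrd none (R.w i) + ratOrd none (R.D i) := by
  have hq2 : (2 : ℤ) ≤ q := by exact_mod_cast R.q_ge
  have hw := w_inf h i
  have hD : ∀ i, ratOrd none (R.D i) = ratOrd none (R.D 0) := by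
    intro i
    induction i with
    | zero => rfl
    | succ i ih =>
      rw [R.s_eq, ← ih]
      cases i with
      | zero =>
        have := R.s_eq none (N - 1)
        rw [show N - 1 + 1 = 0 + N by have := R.hN; omega, R.D_per, R.G_per] at this
        rw [this, R.G_inf (0 + 1), R.G_inf (N - 1)]
      | succ i => rw [R.s_eq, R.G_inf (i + 1 + 1), R.G_inf (i + 1), R.G_inf i]
  obtain ⟨r1, r2, r3⟩ := R.rule none i
  rw [(EX_CX_inf (R.θ i)).2] at r1 r2 r3
  rcases lt_trichotomy (ratOrd none (R.G i)) (ratOrd none (R.D i)) with h1 | h1 | h1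
  · have := r1 h1
    nlinarith
  · have h2 := r3 h1
    set t := - ratOrd none (R.D i) with ht
    rcases le_or_gt t q with h3 | h3
    · nlinarith
    · obtain ⟨e, he1, he2, he3⟩ := inf_tie h i t h3 (fun j => by rw [hD j, ← hD i, ht, neg_neg])
      have h4 := (GE.ratD_inf he3.ge)
      rw [← ratD_u_eq] at h4
      have h5 := h4.ord (h i)
      have h6 : e + 1 ≤ ratOrd none (R.w i) := by
        rw [w_ord h, R.u_inf]
        linarith
      nlinarith
  · have := r2 h1
    nlinarith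

/-- **The global contradiction** for `q ≥ 3` in the nondegenerate case. -/
theorem main3 [CharP k p] [IsAlgClosed k] (h : R.ND) (hq3 : 3 ≤ q) (h33 : ¬ (q = 3 ∧ N = 3)) :
    False := by
  classical
  have hqZ : (3 : ℤ) ≤ q := by exact_mod_cast hq3
  have hpq : (p : ℤ) ∣ q := by exact_mod_cast R.p_dvd
  have h33' : ¬ ((q : ℤ) = 3 ∧ N = 3) := by
    rintro ⟨h1, h2⟩
    exact h33 ⟨by exact_mod_cast h1, h2⟩
  set F : RatFunc k := ∏ i ∈ range N, (R.w i ^ q * R.D i) with hF
  have hfac : ∀ i, R.w i ^ q * R.D i ≠ 0 := fun i =>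
    mul_ne_zero (pow_ne_zero _ (w_ne h i)) (R.D_ne' i)
  have hF0 : F ≠ 0 := Finset.prod_ne_zero_iff.2 fun i _ => hfac i
  have hord : ∀ v, ratOrd v F = ∑ i ∈ range N, ((q : ℤ) * ratOrd v (R.w i) + ratOrd v (R.D i)) := by
    intro v
    rw [hF, ratOrd_prod v _ _ fun i _ => hfac i]
    apply Finset.sum_congr rfl
    intro i _
    rw [ratOrd_mul v (pow_ne_zero _ (w_ne h i)) (R.D_ne' i), ratOrd_pow v (w_ne h i)]
  -- finite places, common data
  have hII : ∀ c : k, ratOrd (some c) R.J < 0 →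
      (∀ i, (q : ℤ) * ratOrd (some c) (R.G i) = ratOrd (some c) R.J) →
      ∀ i, - ratOrd (some c) (R.G i) ≤ q * ratOrd (some c) (R.w i) := by
    intro c h1 h2 i
    obtain ⟨e, he1, -, he3⟩ := w_typeII h c h1 h2 i
    nlinarith
  have hord1 : ∀ c : k, (∀ i, c ≠ R.θ i) → 0 ≤ ratOrd (some c) F := by
    intro c hc
    rw [hord]
    refine loc_ordinary (Γ := ratOrd (some c) R.J) (d := fun i => ratOrd (some c) (R.G i))
      (s := fun i => ratOrd (some c) (R.D i)) (o := fun i => ratOrd (some c) (R.w i))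
      R.hN hqZ hpq ?_ ?_ ?_ ?_ ?_ ?_ ?_
    · intro i; simp only [R.G_per]
    · intro i; simp only [R.D_per]
    · intro i; exact R.s_eq _ i
    · intro i
      have := R.rule (some c) i
      rwa [(EX_CX_ne (hc i).symm).2] at this
    · intro i; exact w_ge_fin h c i
    · intro i hi; exact w_ge_fin_p h c i hi
    · exact hII c
  have hord2 : ∀ m, m < N → -((q : ℤ) - 1) ≤ ratOrd (some (R.θ m)) F := by
    intro m hm
    rw [hord]
    set c := R.θ m with hc
    refine loc_special (m := m) (Γ := ratOrd (some c) R.J)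
      (d := fun i => ratOrd (some c) (R.G i))
      (s := fun i => ratOrd (some c) (R.D i)) (o := fun i => ratOrd (some c) (R.w i))
      (τ := fun i => ratOrd (some c) (RatFunc.C (R.θ i) - RatFunc.X))
      R.hN hqZ h33' hpq hm ?_ ?_ ?_ ?_ ?_ ?_ ?_ ?_ ?_
    · intro i
      by_cases h1 : R.θ i = c
      · rw [h1, (EX_CX_same c).2, if_pos]
        have := R.θ_inj _ _ h1
        rwa [Nat.mod_eq_of_lt hm] at this
      · rw [(EX_CX_ne h1).2, if_neg]
        intro h2
        apply h1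
        rw [hc, ← h2]
        have h3 := per_eq R.θ_per (i / N) (i % N)
        rw [← h3]
        congr 1
        rw [mul_comm]
        exact (Nat.mod_add_div i N).symm
    · intro i; simp only [R.G_per]
    · intro i; simp only [R.D_per]
    · intro i; simp only [R.w_per]
    · intro i; exact R.s_eq _ i
    · intro i
      exact R.rule (some c) i
    · intro i; exact w_ge_fin h c i
    · intro i hi; exact w_ge_fin_p h c i hi
    · exact hII c
  have hinf : (N : ℤ) * q ≤ ratOrd none F := by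
    rw [hord]
    have := Finset.card_nsmul_le_sum (range N)
      (fun i => (q : ℤ) * ratOrd none (R.w i) + ratOrd none (R.D i)) (q : ℤ)
      fun i _ => loc_inf h i
    rw [card_range, nsmul_eq_mul] at this
    exact this
  set S : Finset (Option k) := insert none ((range N).image fun m => some (R.θ m)) with hS
  have hprod := rat_prod k F hF0 S (by
    intro v hv
    cases v with
    | none => simp [hS] at hv
    | some c =>
      apply hord1
      intro i hi
      apply hv
      rw [hS, mem_insert, mem_image]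
      right
      refine ⟨i % N, mem_range.2 (Nat.mod_lt _ R.Npos), ?_⟩
      rw [hi]
      have h3 := per_eq R.θ_per (i / N) (i % N)
      rw [← h3]
      congr 2
      rw [mul_comm]
      exact Nat.mod_add_div i N)
  rw [hS, Finset.sum_insert (by simp), Finset.sum_image (by
    intro a ha b hb hab
    have h1 := R.θ_inj a b (Option.some.inj hab)
    rwa [Nat.mod_eq_of_lt (mem_range.1 ha), Nat.mod_eq_of_lt (mem_range.1 hb)] at h1)] at hprod
  have h1 := Finset.card_nsmul_le_sum (range N) (fun m => ratOrd (some (R.θ m)) F)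
    (-((q : ℤ) - 1)) fun m hm => hord2 m (mem_range.1 hm)
  rw [card_range, nsmul_eq_mul] at h1
  have hNpos : (0 : ℤ) < N := by exact_mod_cast R.Npos
  nlinarith

end Red

end Pool.Agent.TH923.Y0
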