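import Mathlib
import Pool.Agent.TH923.Y0.Main3

/-!
# The degenerate case
-/

set_option autoImplicit false

namespace Pool.Agent.TH923.Y0

open Finset

lemma ratD_CX {k : Type*} [Field k] (a : k) : ratD k (RatFunc.C a - RatFunc.X) = -1 := by
  rw [ratD_sub, ratD_C, ratD_X]
  ring

lemma ratD_one {k : Type*} [Field k] : ratD k (1 : RatFunc k) = 0 := (ratDer k).map_one_eq_zero

namespace Red

variable {k : Type*} [Field k] {p q N : ℕ} {R : Red k p q N}

/-- logarithmic derivatives -/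
noncomputable def ω (R : Red k p q N) (i : ℕ) : RatFunc k := ratD k (R.G i) / R.G i

noncomputable def j (R : Red k p q N) : RatFunc k := ratD k R.J / R.J

lemma deg_all (h : ¬ R.ND) : ∀ i, ratD k (R.u i) = 0 := by
  unfold ND at h
  push Not at h
  obtain ⟨i₀, h0⟩ := h
  apply per_of R.Npos (fun i => ratD k (R.u i) = 0) (fun i h => by rw [← R.u_per]; exact h) _ i₀ h0
  intro i hi
  show ratD k (R.u (i + 1)) = 0
  have : R.u (i + 1) = R.σ (R.u i) := by
    unfold u
    rw [map_div₀, R.σ_G, R.σ_G]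
  rw [this, R.σ_D]
  show R.σ (ratD k (R.u i)) = 0
  have h1 : ratD k (R.u i) = 0 := hi
  rw [h1, map_zero]

lemma ω_eq (h : ¬ R.ND) (i : ℕ) : R.ω i = R.ω (i + 2) := by
  have h1 := deg_all h i
  have h2 : R.G i = R.u i * R.G (i + 2) := by
    unfold u
    rw [div_mul_cancel₀ _ (R.G_ne _)]
  have h3 : ratD k (R.G i) = R.u i * ratD k (R.G (i + 2)) := by
    rw [h2, ratD_mul, h1, mul_zero, add_zero]
  unfold ω
  rw [h3, h2]
  have := R.u_ne i
  have := R.G_ne (i + 2)
  field_simp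

lemma ratD_G (i : ℕ) : ratD k (R.G i) = R.ω i * R.G i := by
  unfold ω
  rw [div_mul_cancel₀ _ (R.G_ne _)]

lemma ratD_J : ratD k R.J = R.j * R.J := by
  unfold j
  rw [div_mul_cancel₀ _ R.J_ne]

lemma ratD_Dd [CharP k p] (i : ℕ) : ratD k (R.D (i + 1)) = (R.ω (i + 1) - R.j) * R.D (i + 1) := by
  have h1 := congrArg (ratD k) (R.rel' i)
  rw [ratD_mul, ratD_mul, ratD_pow_dvd R.p_dvd, mul_zero, zero_add, ratD_G, ratD_J] at h1
  have h2 := R.rel' i
  have h3 := R.J_ne
  have h4 : R.J * ratD k (R.D (i + 1)) = R.J * ((R.ω (i + 1) - R.j) * R.D (i + 1)) := by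
    linear_combination -h1 + R.ω (i + 1) * h2
  exact mul_left_cancel₀ h3 h4

/-- `j D = (θ - T) ω + 1` -/
lemma jD [CharP k p] (i : ℕ) : R.j * R.D (i + 1) =
    (RatFunc.C (R.θ (i + 1)) - RatFunc.X) * R.ω (i + 1) + 1 := by
  have h1 := congrArg (ratD k) (R.D_add (i + 1))
  rw [ratD_add, ratD_CX, ratD_Dd, ratD_G] at h1
  have h2 := R.D_add (i + 1)
  linear_combination R.ω (i + 1) * h2 - h1

lemma G_ne_G [CharP k p] (h : ¬ R.ND) (i : ℕ) : R.G i ≠ R.G (i + 2) := by
  intro hG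
  have r1 := R.rel' i
  have r2 := R.rel' (i + 2)
  rw [← hG] at r2
  have h1 : R.G (i + 1) * R.D (i + 2 + 1) = R.G (i + 2 + 1) * R.D (i + 1) := by
    have h2 : (R.J * R.G i ^ q) * (R.G (i + 1) * R.D (i + 2 + 1)) =
        (R.J * R.G i ^ q) * (R.G (i + 2 + 1) * R.D (i + 1)) := by
      linear_combination (R.J * R.D (i + 2 + 1)) * r1 - (R.J * R.D (i + 1)) * r2
    exact mul_left_cancel₀ (mul_ne_zero R.J_ne (pow_ne_zero _ (R.G_ne _))) h2
  have h2 : R.G (i + 1) * (RatFunc.C (R.θ (i + 2 + 1)) - RatFunc.X) =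
      R.G (i + 2 + 1) * (RatFunc.C (R.θ (i + 1)) - RatFunc.X) := by
    have e1 := R.D_add (i + 1)
    have e2 := R.D_add (i + 2 + 1)
    linear_combination h1 - R.G (i + 1) * e2 + R.G (i + 2 + 1) * e1
  have h3 : R.u (i + 1) * (RatFunc.C (R.θ (i + 2 + 1)) - RatFunc.X) =
      RatFunc.C (R.θ (i + 1)) - RatFunc.X := by
    unfold u
    rw [show i + 1 + 2 = i + 2 + 1 by ring]
    have := R.G_ne (i + 2 + 1)
    field_simp
    linear_combination h2
  have h4 := congrArg (ratD k) h3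
  rw [ratD_mul, deg_all h, mul_zero, add_zero, ratD_CX, ratD_CX] at h4
  have h5 : R.u (i + 1) = 1 := by linear_combination -h4
  rw [h5, one_mul] at h3
  have h6 := sub_left_inj.1 h3
  have h7 : R.θ (i + 2 + 1) = R.θ (i + 1) := RatFunc.C_injective h6
  exact R.θ_ne_two (i + 1) h7.symm

lemma j_ne [CharP k p] (h : ¬ R.ND) : R.j ≠ 0 := by
  intro hj
  have h1 := jD (R := R) 0
  have h2 := jD (R := R) 2
  rw [hj, zero_mul] at h1 h2
  rw [← ω_eq h (0 + 1)] at h2
  have h3 : RatFunc.C (R.θ (0 + 1) - R.θ (2 + 1)) * R.ω (0 + 1) = 0 := by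
    rw [map_sub]
    linear_combination h2 - h1
  rcases mul_eq_zero.1 h3 with h4 | h4
  · rw [map_eq_zero, sub_eq_zero] at h4
    exact R.θ_ne_two (0 + 1) h4
  · rw [h4] at h1
    simp at h1

/-- a quadratic with three distinct roots -/
lemma quad_zero {K : Type*} [Field K] {x y z c0 c1 c2 : K} (hxy : x ≠ y) (hyz : y ≠ z) (hxz : x ≠ z)
    (h1 : c0 + c1 * x + c2 * x ^ 2 = 0) (h2 : c0 + c1 * y + c2 * y ^ 2 = 0)
    (h3 : c0 + c1 * z + c2 * z ^ 2 = 0) : c2 = 0 := by
  have h4 : c1 + c2 * (x + y) = 0 := by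
    have : (x - y) * (c1 + c2 * (x + y)) = 0 := by linear_combination h1 - h2
    exact (mul_eq_zero.1 this).resolve_left (sub_ne_zero.2 hxy)
  have h5 : c1 + c2 * (y + z) = 0 := by
    have : (y - z) * (c1 + c2 * (y + z)) = 0 := by linear_combination h2 - h3
    exact (mul_eq_zero.1 this).resolve_left (sub_ne_zero.2 hyz)
  have : (x - z) * c2 = 0 := by linear_combination h4 - h5
  exact (mul_eq_zero.1 this).resolve_left (sub_ne_zero.2 hxz)

/-- value of `G` in the degenerate case -/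
lemma jG [CharP k p] (i : ℕ) : R.j * R.G (i + 1) =
    (RatFunc.C (R.θ (i + 1)) - RatFunc.X) * (R.j - R.ω (i + 1)) - 1 := by
  have h1 := jD (R := R) i
  have h2 := R.D_add (i + 1)
  linear_combination R.j * h2 - h1

/-- The degenerate case is impossible for `N ≠ 4`. -/
theorem deg_ne_four [CharP k p] (h : ¬ R.ND) (hN4 : N ≠ 4) : False := by
  have hN := R.hN
  have hj := j_ne h
  have hne : ∀ a b : ℕ, a < 3 → b < 3 → a ≠ b → R.θ (2 * a + 2) ≠ R.θ (2 * b + 2) := by
    have key : ∀ a b : ℕ, a < 3 → b < 3 → a < b → R.θ (2 * a + 2) ≠ R.θ (2 * b + 2) := by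
      intro a b ha hb hab h1
      have h2 := R.θ_inj _ _ h1
      have h3 : 0 ≡ 2 * (b - a) [MOD N] := by
        apply Nat.ModEq.add_left_cancel' (2 * a + 2)
        rw [show 2 * a + 2 + 2 * (b - a) = 2 * b + 2 by omega, add_zero]
        exact h2
      have h4 : N ∣ 2 * (b - a) := (Nat.modEq_zero_iff_dvd).1 h3.symm
      have h5 := Nat.le_of_dvd (by omega) h4
      have h6 : N = 3 := by omega
      rw [h6] at h4
      omega
    intro a b ha hb hab
    rcases Nat.lt_or_ge a b with h1 | h1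
    · exact key a b ha hb h1
    · exact (key b a hb ha (by omega)).symm
  set ω₀ := R.ω 2 with hω₀
  set ω₁ := R.ω 1 with hω₁
  have hev : ∀ a, R.ω (2 * a + 2) = ω₀ := by
    intro a
    induction a with
    | zero => rfl
    | succ a ih => rw [← ih, show 2 * (a + 1) + 2 = 2 * a + 2 + 2 by ring, ← ω_eq h]
  have hod : ∀ a, R.ω (2 * a + 1) = ω₁ := by
    intro a
    induction a with
    | zero => rfl
    | succ a ih => rw [← ih, show 2 * (a + 1) + 1 = 2 * a + 1 + 2 by ring, ← ω_eq h]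
  -- the quadratic relation
  have hquad : ∀ a : ℕ,
      ((RatFunc.C (R.θ (2 * a + 2)) - RatFunc.X) * (R.j - ω₀) - 1) *
      ((RatFunc.C (R.θ (2 * a + 2)) - RatFunc.X ^ q) * (R.j - ω₁) ^ q - 1) =
      R.J * R.j ^ q * ((RatFunc.C (R.θ (2 * a + 2)) - RatFunc.X) * ω₀ + 1) := by
    intro a
    have h1 := jG (R := R) (2 * a + 1)
    have h2 := jG (R := R) (2 * a)
    have h3 := jD (R := R) (2 * a + 1)
    rw [show 2 * a + 1 + 1 = 2 * a + 2 by ring, hev] at h1 h3
    rw [hod] at h2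
    have h4 : (RatFunc.C (R.θ (2 * a + 2)) - RatFunc.X ^ q) * (R.j - ω₁) ^ q - 1 =
        (R.j * R.G (2 * a + 1)) ^ q := by
      rw [h2, R.sub_pow_q ((RatFunc.C (R.θ (2 * a + 1)) - RatFunc.X) * (R.j - ω₁)) 1, mul_pow,
        R.sub_pow_q (RatFunc.C (R.θ (2 * a + 1))) RatFunc.X, one_pow, ← map_pow, ← R.θ_succ]
    rw [← h1, h4, ← h3, mul_pow]
    have h5 := R.rel' (2 * a + 1)
    rw [show 2 * a + 1 + 1 = 2 * a + 2 by ring] at h5
    linear_combination (R.j ^ q * R.j) * h5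
  have hc : (R.j - ω₀) * (R.j - ω₁) ^ q = 0 := by
    refine quad_zero (x := RatFunc.C (R.θ (2 * 0 + 2))) (y := RatFunc.C (R.θ (2 * 1 + 2)))
      (z := RatFunc.C (R.θ (2 * 2 + 2)))
      (c0 := (-RatFunc.X * (R.j - ω₀) - 1) * (-RatFunc.X ^ q * (R.j - ω₁) ^ q - 1)
        - R.J * R.j ^ q * (-RatFunc.X * ω₀ + 1))
      (c1 := (R.j - ω₀) * (-RatFunc.X ^ q * (R.j - ω₁) ^ q - 1)
        + (-RatFunc.X * (R.j - ω₀) - 1) * (R.j - ω₁) ^ q - R.J * R.j ^ q * ω₀) ?_ ?_ ?_ ?_ ?_ ?_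
    · exact fun e => hne 0 1 (by norm_num) (by norm_num) (by norm_num) (RatFunc.C_injective e)
    · exact fun e => hne 1 2 (by norm_num) (by norm_num) (by norm_num) (RatFunc.C_injective e)
    · exact fun e => hne 0 2 (by norm_num) (by norm_num) (by norm_num) (RatFunc.C_injective e)
    · linear_combination hquad 0
    · linear_combination hquad 1
    · linear_combination hquad 2
  rcases mul_eq_zero.1 hc with h1 | h1
  · -- G 2 = G 4
    apply G_ne_G h 2
    have e1 := jG (R := R) 1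
    have e2 := jG (R := R) 3
    rw [show R.ω (1 + 1) = ω₀ from rfl, h1] at e1
    rw [show R.ω (3 + 1) = ω₀ from hev 1, h1] at e2
    apply mul_left_cancel₀ hj
    show R.j * R.G (1 + 1) = R.j * R.G (3 + 1)
    rw [e1, e2]
    ring
  · have h1 : R.j - ω₁ = 0 := by
      rw [pow_eq_zero_iff] at h1
      · exact h1
      · have := R.q_ge
        omega
    apply G_ne_G h 1
    have e1 := jG (R := R) 0
    have e2 := jG (R := R) 2
    rw [show R.ω (0 + 1) = ω₁ from rfl, h1] at e1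
    rw [show R.ω (2 + 1) = ω₁ from hod 1, h1] at e2
    apply mul_left_cancel₀ hj
    show R.j * R.G (0 + 1) = R.j * R.G (2 + 1)
    rw [e1, e2]
    ring

end Red

end Pool.Agent.TH923.Y0
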