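import Mathlib
import Pool.Agent.TH923.Y0.Deg

/-!
# The degenerate case, `N = 4`
-/

set_option autoImplicit false

namespace Pool.Agent.TH923.Y0

open Finset

namespace Red

variable {k : Type*} [Field k] {p q : ℕ} {R : Red k p q 4}

lemma θ_ne4 (R : Red k p q 4) (a b : ℕ) (hab : a % 4 ≠ b % 4) : R.θ a ≠ R.θ b :=
  fun h => hab (R.θ_inj a b h)

/-- the differential equations -/
lemma deg_ode [CharP k p] (h : ¬ R.ND) (i : ℕ) :
    ratD k R.j = R.j ^ 2 - 2 * R.j * R.ω (i + 1) ∧ ratD k (R.ω (i + 1)) = - R.ω (i + 1) ^ 2 := by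
  have hj := j_ne h
  have key : ∀ l, R.ω (l + 1) = R.ω (i + 1) →
      ((RatFunc.C (R.θ (l + 1)) - RatFunc.X) * R.ω (i + 1) + 1) *
        (ratD k R.j + R.j * R.ω (i + 1) - R.j ^ 2) =
      R.j * (- R.ω (i + 1) + (RatFunc.C (R.θ (l + 1)) - RatFunc.X) * ratD k (R.ω (i + 1))) := by
    intro l hl
    have h1 := jD (R := R) l
    rw [hl] at h1
    have h2 := congrArg (ratD k) h1
    rw [ratD_mul, ratD_Dd, ratD_add, ratD_mul, ratD_CX, ratD_one, hl] at h2
    rw [← h1]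
    linear_combination R.j * h2
  have k1 := key i rfl
  have k2 := key (i + 2) (by rw [show i + 2 + 1 = i + 1 + 2 by ring]; exact (ω_eq h (i + 1)).symm)
  have hθ : RatFunc.C (R.θ (i + 1)) - RatFunc.C (R.θ (i + 2 + 1)) ≠ 0 := by
    rw [← map_sub, Ne, map_eq_zero]
    exact sub_ne_zero.2 (R.θ_ne_two (i + 1))
  have h3 : R.ω (i + 1) * (ratD k R.j + R.j * R.ω (i + 1) - R.j ^ 2) =
      R.j * ratD k (R.ω (i + 1)) := by
    apply mul_left_cancel₀ hθ
    linear_combination k1 - k2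
  have h4 : ratD k R.j + R.j * R.ω (i + 1) - R.j ^ 2 = - (R.j * R.ω (i + 1)) := by
    linear_combination k1 - (RatFunc.C (R.θ (i + 1)) - RatFunc.X) * h3
  constructor
  · linear_combination h4
  · apply mul_left_cancel₀ hj
    rw [h4] at h3
    linear_combination -h3

/-- all the `ω` cannot be equal -/
lemma all_eq [CharP k p] (h : ¬ R.ND) (he : R.ω 1 = R.ω 2) : False := by
  have hj := j_ne h
  have hall : ∀ i, R.ω (i + 1) = R.ω 1 := by
    have h2 : ∀ i, R.ω (2 * i + 1) = R.ω 1 ∧ R.ω (2 * i + 2) = R.ω 1 := by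
      intro i
      induction i with
      | zero => exact ⟨rfl, he.symm⟩
      | succ i ih =>
        constructor
        · rw [← ih.1, ω_eq h (2 * i + 1)]
          rfl
        · rw [← ih.2, ω_eq h (2 * i + 2)]
          rfl
    intro i
    rcases Nat.even_or_odd' i with ⟨m, rfl | rfl⟩
    · exact (h2 m).1
    · exact (h2 m).2
  set ω := R.ω 1 with hω
  have hquad : ∀ i : ℕ,
      ((RatFunc.C (R.θ (i + 2)) - RatFunc.X) * (R.j - ω) - 1) *
      ((RatFunc.C (R.θ (i + 2)) - RatFunc.X ^ q) * (R.j - ω) ^ q - 1) =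
      R.J * R.j ^ q * ((RatFunc.C (R.θ (i + 2)) - RatFunc.X) * ω + 1) := by
    intro i
    have h1 := jG (R := R) (i + 1)
    have h2 := jG (R := R) i
    have h3 := jD (R := R) (i + 1)
    rw [hall] at h1 h3
    rw [hall] at h2
    have h4 : (RatFunc.C (R.θ (i + 2)) - RatFunc.X ^ q) * (R.j - ω) ^ q - 1 =
        (R.j * R.G (i + 1)) ^ q := by
      rw [h2, R.sub_pow_q ((RatFunc.C (R.θ (i + 1)) - RatFunc.X) * (R.j - ω)) 1, mul_pow,
        R.sub_pow_q (RatFunc.C (R.θ (i + 1))) RatFunc.X, one_pow, ← map_pow, ← R.θ_succ]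
    have h1' : (RatFunc.C (R.θ (i + 2)) - RatFunc.X) * (R.j - ω) - 1 = R.j * R.G (i + 2) :=
      h1.symm
    have h3' : (RatFunc.C (R.θ (i + 2)) - RatFunc.X) * ω + 1 = R.j * R.D (i + 2) := h3.symm
    rw [h1', h4, h3', mul_pow]
    have h5 : R.G (i + 2) * R.G (i + 1) ^ q = R.J * R.D (i + 2) := R.rel' (i + 1)
    linear_combination (R.j ^ q * R.j) * h5
  have hc : (R.j - ω) * (R.j - ω) ^ q = 0 := by
    refine quad_zero (x := RatFunc.C (R.θ (0 + 2))) (y := RatFunc.C (R.θ (1 + 2)))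
      (z := RatFunc.C (R.θ (2 + 2)))
      (c0 := (-RatFunc.X * (R.j - ω) - 1) * (-RatFunc.X ^ q * (R.j - ω) ^ q - 1)
        - R.J * R.j ^ q * (-RatFunc.X * ω + 1))
      (c1 := (R.j - ω) * (-RatFunc.X ^ q * (R.j - ω) ^ q - 1)
        + (-RatFunc.X * (R.j - ω) - 1) * (R.j - ω) ^ q - R.J * R.j ^ q * ω) ?_ ?_ ?_ ?_ ?_ ?_
    · exact fun e => R.θ_ne4 _ _ (by norm_num) (RatFunc.C_injective e)
    · exact fun e => R.θ_ne4 _ _ (by norm_num) (RatFunc.C_injective e)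
    · exact fun e => R.θ_ne4 _ _ (by norm_num) (RatFunc.C_injective e)
    · linear_combination hquad 0
    · linear_combination hquad 1
    · linear_combination hquad 2
  have h1 : R.j - ω = 0 := by
    rcases mul_eq_zero.1 hc with h1 | h1
    · exact h1
    · rw [pow_eq_zero_iff] at h1
      · exact h1
      · have := R.q_ge
        omega
  apply G_ne_G h 1
  have e1 := jG (R := R) 0
  have e2 := jG (R := R) 2
  rw [hall, h1] at e1
  rw [hall, h1] at e2
  apply mul_left_cancel₀ hj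
  show R.j * R.G (0 + 1) = R.j * R.G (2 + 1)
  rw [e1, e2]
  ring

/-- odd characteristic -/
theorem deg4_odd [CharP k p] (h : ¬ R.ND) (hp2 : p ≠ 2) : False := by
  apply all_eq h
  have h1 := (deg_ode h 0).1
  have h2 := (deg_ode h 1).1
  have hj := j_ne h
  have h3 : (2 * R.j) * (R.ω (0 + 1) - R.ω (1 + 1)) = 0 := by
    linear_combination h1 - h2
  have h20 : (2 : RatFunc k) ≠ 0 := by
    have hcp : CharP (RatFunc k) p :=
      charP_of_injective_algebraMap (algebraMap k (RatFunc k)).injective p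
    intro h4
    have h5 : ((2 : ℕ) : RatFunc k) = 0 := by exact_mod_cast h4
    have h6 := (CharP.cast_eq_zero_iff (RatFunc k) p 2).1 h5
    exact hp2 ((Nat.prime_dvd_prime_iff_eq R.hp Nat.prime_two).1 h6)
  have h4 := (mul_eq_zero.1 h3).resolve_left (mul_ne_zero h20 hj)
  exact sub_eq_zero.1 h4

/-! ### The functions `x` and `c` -/

noncomputable def xi (R : Red k p q 4) (i : ℕ) : RatFunc k := (R.j - R.ω (i + 1))⁻¹

noncomputable def ci (R : Red k p q 4) (i : ℕ) : RatFunc k := R.xi i + RatFunc.X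

lemma jω_ne [CharP k p] (h : ¬ R.ND) (i : ℕ) : R.j - R.ω (i + 1) ≠ 0 := by
  intro h1
  have hj := j_ne h
  apply G_ne_G h (i + 1)
  have e1 := jG (R := R) i
  have e2 := jG (R := R) (i + 2)
  rw [h1] at e1
  rw [show R.ω (i + 2 + 1) = R.ω (i + 1) from (ω_eq h (i + 1)).symm, h1] at e2
  apply mul_left_cancel₀ hj
  rw [e1, show i + 1 + 2 = i + 2 + 1 by ring, e2]
  ring

lemma xi_ne [CharP k p] (h : ¬ R.ND) (i : ℕ) : R.xi i ≠ 0 := inv_ne_zero (jω_ne h i)

lemma xi_two [CharP k p] (h : ¬ R.ND) (i : ℕ) : R.xi (i + 2) = R.xi i := by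
  unfold xi
  rw [show R.ω (i + 2 + 1) = R.ω (i + 1) from (ω_eq h (i + 1)).symm]

lemma ci_two [CharP k p] (h : ¬ R.ND) (i : ℕ) : R.ci (i + 2) = R.ci i := by
  unfold ci
  rw [xi_two h]

lemma σ_j : R.σ R.j = R.j := by
  unfold j
  rw [map_div₀, ← R.σ_D, R.σ_J]

lemma σ_ω (i : ℕ) : R.σ (R.ω i) = R.ω (i + 1) := by
  unfold ω
  rw [map_div₀, ← R.σ_D, R.σ_G]

lemma σ_xi (i : ℕ) : R.σ (R.xi i) = R.xi (i + 1) := by
  unfold xi
  rw [map_inv₀, map_sub, σ_j, σ_ω]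

lemma σ_ci (i : ℕ) : R.σ (R.ci i) = R.ci (i + 1) := by
  unfold ci
  rw [map_add, σ_xi, R.σ_X]

lemma ratD_xi [CharP k p] (h : ¬ R.ND) (i : ℕ) : ratD k (R.xi i) = -1 := by
  have h1 : R.xi i * (R.j - R.ω (i + 1)) = 1 := inv_mul_cancel₀ (jω_ne h i)
  have h2 := congrArg (ratD k) h1
  obtain ⟨h3, h4⟩ := deg_ode h i
  rw [ratD_mul, ratD_sub, h3, h4, ratD_one] at h2
  apply mul_left_cancel₀ (jω_ne h i)
  linear_combination h2 - (R.j - R.ω (i + 1)) * h1

lemma ratD_ci [CharP k p] (h : ¬ R.ND) (i : ℕ) : ratD k (R.ci i) = 0 := by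
  unfold ci
  rw [ratD_add, ratD_xi h, ratD_X]
  ring

/-- `M` -/
noncomputable def Mi (R : Red k p q 4) (i : ℕ) : RatFunc k := R.J * R.j ^ q * (R.xi (i + 1)) ^ q

/-- the basic relation -/
lemma basic [CharP k p] (h : ¬ R.ND) (i : ℕ) :
    (RatFunc.C (R.θ (i + 1)) - R.ci i) * (RatFunc.C (R.θ (i + 1)) - (R.ci (i + 1)) ^ q) =
      R.Mi i * ((RatFunc.C (R.θ (i + 1)) - RatFunc.X) * R.xi i * R.j -
        (RatFunc.C (R.θ (i + 1)) - R.ci i)) := by
  have hx := xi_ne h i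
  have hx1 := xi_ne h (i + 1)
  have hω : R.ω (i + 1) = R.j - (R.xi i)⁻¹ := by
    unfold xi
    rw [inv_inv]
    ring
  have hωi : ∀ i, R.j - R.ω (i + 1) = (R.xi i)⁻¹ := by
    intro i
    unfold xi
    rw [inv_inv]
  -- `j G`
  have g1 : R.j * R.G (i + 1) * R.xi i = RatFunc.C (R.θ (i + 1)) - R.ci i := by
    have h1 := jG (R := R) i
    rw [h1, hωi]
    unfold ci
    field_simp
    ring
  have g0 : R.j * R.G (i + 1 + 1 + 1 + 1) * R.xi (i + 1) =
      RatFunc.C (R.θ (i + 1 + 1 + 1 + 1)) - R.ci (i + 1) := by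
    have h1 := jG (R := R) (i + 1 + 1 + 1)
    rw [h1, hωi, show i + 1 + 1 + 1 = i + 1 + 2 by ring, xi_two h]
    unfold ci
    field_simp
    ring
  have gper : R.G (i + 1 + 1 + 1 + 1) = R.G i := R.G_per i
  have θper : R.θ (i + 1 + 1 + 1 + 1) = R.θ i := R.θ_per i
  rw [gper, θper] at g0
  have d1 : R.j * R.D (i + 1) * R.xi i = (RatFunc.C (R.θ (i + 1)) - RatFunc.X) * R.xi i * R.j -
        (RatFunc.C (R.θ (i + 1)) - R.ci i) := by
    have h1 := jD (R := R) i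
    rw [h1, hω]
    unfold ci
    field_simp
    ring
  have g0q : (R.j * R.G i * R.xi (i + 1)) ^ q = RatFunc.C (R.θ (i + 1)) - (R.ci (i + 1)) ^ q := by
    rw [g0, R.sub_pow_q, ← map_pow, ← R.θ_succ]
  rw [← d1, ← g1, ← g0q]
  unfold Mi
  have h5 := R.rel' i
  rw [mul_pow, mul_pow]
  linear_combination (R.j * R.j ^ q * R.xi i * R.xi (i + 1) ^ q) * h5

/-- the polynomial `π(T)` -/
noncomputable def πi (R : Red k p q 4) (i : ℕ) (z : RatFunc k) : RatFunc k :=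
  (z - RatFunc.C (R.θ (i + 1))) * (z - RatFunc.C (R.θ (i + 3)))

lemma two_eqs [CharP k p] (h : ¬ R.ND) (i : ℕ) :
    R.Mi i * R.xi i = R.xi i * (R.ci (i + 1) ^ q - RatFunc.X) - R.πi i RatFunc.X ∧
    R.Mi i * R.xi i ^ 2 * R.j = - R.πi i (R.ci i) := by
  have h1 := basic h i
  have h2 := basic h (i + 2)
  have hM : R.Mi (i + 2) = R.Mi i := by
    unfold Mi
    rw [show i + 2 + 1 = i + 1 + 2 by ring, xi_two h]
  rw [hM, xi_two h, ci_two h, show i + 2 + 1 = i + 1 + 2 by ring, ci_two h (i + 1),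
    show i + 1 + 2 = i + 3 by ring] at h2
  have hθ : RatFunc.C (R.θ (i + 1)) - RatFunc.C (R.θ (i + 3)) ≠ 0 := by
    rw [← map_sub, Ne, map_eq_zero]
    exact sub_ne_zero.2 (R.θ_ne_two (i + 1))
  have e1 : RatFunc.C (R.θ (i + 1)) + RatFunc.C (R.θ (i + 3)) - R.ci i - R.ci (i + 1) ^ q =
      R.Mi i * (R.xi i * R.j - 1) := by
    apply mul_left_cancel₀ hθ
    linear_combination h1 - h2
  have hc : R.ci i = R.xi i + RatFunc.X := rfl
  unfold πi
  constructor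
  · rw [hc] at h1 e1
    linear_combination -h1 + (RatFunc.C (R.θ (i + 1)) - RatFunc.X) * e1
  · rw [hc] at h1 e1 ⊢
    linear_combination -h1 + (RatFunc.C (R.θ (i + 1)) - (R.xi i + RatFunc.X)) * e1

end Red

end Pool.Agent.TH923.Y0
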