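import Mathlib
import Pool.Agent.TH923.Y0.Deg4

/-!
# Orders and Frobenius
-/

set_option autoImplicit false

namespace Pool.Agent.TH923.Y0

open Finset Polynomial

namespace Red

variable {k : Type*} [Field k] {p q N : ℕ} (R : Red k p q N)

/-- the Frobenius of the constants -/
noncomputable def fφ : k →+* k where
  toFun c := c ^ q
  map_one' := one_pow q
  map_mul' a b := mul_pow a b q
  map_zero' := zero_pow (by have := R.q_ge; omega)
  map_add' a b := by
    apply RatFunc.C_injective (K := k)
    rw [map_add, ← R.σ_C, ← R.σ_C, ← R.σ_C, map_add, map_add]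

lemma fφ_apply (c : k) : R.fφ c = c ^ q := rfl

lemma σ_poly (f : k[X]) : R.σ (algebraMap k[X] (RatFunc k) f) =
    algebraMap k[X] (RatFunc k) (f.map R.fφ) := by
  have h : R.σ.comp (algebraMap k[X] (RatFunc k)) =
      (algebraMap k[X] (RatFunc k)).comp (mapRingHom R.fφ) := by
    apply Polynomial.ringHom_ext
    · intro c
      simp only [RingHom.comp_apply, coe_mapRingHom, map_C]
      rw [RatFunc.algebraMap_C, R.σ_C, RatFunc.algebraMap_C, fφ_apply]
    · simp only [RingHom.comp_apply, coe_mapRingHom, map_X]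
      rw [RatFunc.algebraMap_X, R.σ_X]
  exact RingHom.congr_fun h f

lemma ord_σ (c : k) (x : RatFunc k) :
    ratOrd (some (c ^ q)) (R.σ x) = ratOrd (some c) x := by
  by_cases hx : x = 0
  · rw [hx, map_zero]
    simp only [ratOrd, ordc, RatFunc.num_zero, RatFunc.denom_zero, rootMultiplicity_zero]
    rw [← C_1, rootMultiplicity_C, rootMultiplicity_C]
  obtain ⟨a, b, ha, hb, rfl⟩ := exists_mk' hx
  have ha' : a.map R.fφ ≠ 0 := (Polynomial.map_ne_zero_iff R.fφ.injective).2 ha
  have hb' : b.map R.fφ ≠ 0 := (Polynomial.map_ne_zero_iff R.fφ.injective).2 hb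
  rw [map_div₀, σ_poly, σ_poly]
  simp only [ratOrd]
  rw [ordc_mk _ _ _ ha' hb', ordc_mk _ _ _ ha hb, ← fφ_apply,
    ← eq_rootMultiplicity_map R.fφ.injective, ← eq_rootMultiplicity_map R.fφ.injective]

end Red

end Pool.Agent.TH923.Y0
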