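import Mathlib
import Pool.Agent.TH923.Y0.OrdSigma

/-!
# The degenerate case, `N = 4`, characteristic two
-/

set_option autoImplicit false

namespace Pool.Agent.TH923.Y0

open Finset

namespace Red

section General

variable {k : Type*} [Field k] {p q : ℕ} {R : Red k p q 4}

lemma pow_q_add [CharP k p] (R : Red k p q 4) (x y : RatFunc k) : (x + y) ^ q = x ^ q + y ^ q := by
  have : Fact p.Prime := ⟨R.hp⟩
  have : CharP (RatFunc k) p := charP_of_injective_algebraMap (algebraMap k (RatFunc k)).injective p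
  obtain ⟨f, -, hq⟩ := R.hq
  rw [hq]
  exact add_pow_char_pow x y p f

lemma gam [CharP k p] (h : ¬ R.ND) (i : ℕ) :
    R.πi i (R.ci i) * (R.xi (i + 1) ^ 2 * R.xi i ^ q) =
      R.πi (i + 1) (R.ci (i + 1)) * (R.xi i ^ 2 * R.xi (i + 1) ^ q) := by
  have h1 := (two_eqs h i).2
  have h2 := (two_eqs h (i + 1)).2
  unfold Mi at h1 h2
  rw [show i + 1 + 1 = i + 2 by ring, xi_two h] at h2
  linear_combination (R.xi (i + 1) ^ 2 * R.xi i ^ q) * h1 -
    (R.xi i ^ 2 * R.xi (i + 1) ^ q) * h2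

lemma eps [CharP k p] (h : ¬ R.ND) (i : ℕ) :
    (R.xi i * (RatFunc.X ^ q - RatFunc.X) - R.πi i RatFunc.X) * (R.xi (i + 1) * R.xi i ^ q) =
      (R.xi (i + 1) * (RatFunc.X ^ q - RatFunc.X) - R.πi (i + 1) RatFunc.X) *
        (R.xi i * R.xi (i + 1) ^ q) := by
  have h1 := (two_eqs h i).1
  have h2 := (two_eqs h (i + 1)).1
  unfold Mi at h1 h2
  rw [show i + 1 + 1 = i + 2 by ring, xi_two h, ci_two h] at h2
  have c1 : R.ci (i + 1) ^ q = R.xi (i + 1) ^ q + RatFunc.X ^ q := by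
    unfold ci
    rw [R.pow_q_add]
  have c0 : R.ci i ^ q = R.xi i ^ q + RatFunc.X ^ q := by
    unfold ci
    rw [R.pow_q_add]
  rw [c1] at h1
  rw [c0] at h2
  linear_combination (-(R.xi (i + 1) * R.xi i ^ q)) * h1 +
    (R.xi i * R.xi (i + 1) ^ q) * h2

lemma πc_ne [CharP k p] (h : ¬ R.ND) (i : ℕ) : R.πi i (R.ci i) ≠ 0 := by
  have h1 := (two_eqs h i).2
  intro h0
  rw [h0, neg_zero] at h1
  unfold Mi at h1
  have := xi_ne h i
  have := xi_ne h (i + 1)
  have := j_ne h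
  have := R.J_ne
  have h2 : R.J * R.j ^ q * R.xi (i + 1) ^ q * R.xi i ^ 2 * R.j ≠ 0 := by positivity
  exact h2 h1

lemma X_ge (a : k) : GE (some a) 0 (RatFunc.X : RatFunc k) := by
  have : (RatFunc.X : RatFunc k) = RatFunc.C a - (RatFunc.C a - RatFunc.X) := by ring
  rw [this]
  exact (GE.C _ _).sub ((EX_CX_same a).ge.mono (by norm_num))

/-- poles of the two functions coincide -/
lemma pole_eq [CharP k p] (h : ¬ R.ND) (i : ℕ) (a : k) (hx : ratOrd (some a) (R.xi i) < 0) :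
    ratOrd (some a) (R.xi (i + 1)) = ratOrd (some a) (R.xi i) := by
  have hq2 : (2 : ℤ) ≤ q := by exact_mod_cast R.q_ge
  have hc : ∀ i, ratOrd (some a) (R.xi i) < 0 →
      EX (some a) (2 * ratOrd (some a) (R.xi i)) (R.πi i (R.ci i)) := by
    intro i hi
    have h1 : ∀ t : k, EX (some a) (ratOrd (some a) (R.xi i)) (R.ci i - RatFunc.C t) := by
      intro t
      have : R.ci i - RatFunc.C t = R.xi i + (RatFunc.X - RatFunc.C t) := by
        unfold ci; ring
      rw [this]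
      exact (EX.self _ (xi_ne h i)).add (((X_ge a).sub (GE.C _ _)).mono (by omega))
    have := (h1 (R.θ (i + 1))).mul (h1 (R.θ (i + 3)))
    rwa [← two_mul] at this
  have hg := congrArg (ratOrd (some a)) (gam h i)
  have x0 := xi_ne h i
  have x1 := xi_ne h (i + 1)
  rw [ratOrd_mul _ (πc_ne h i) (mul_ne_zero (pow_ne_zero _ x1) (pow_ne_zero _ x0)),
    ratOrd_mul _ (πc_ne h (i + 1)) (mul_ne_zero (pow_ne_zero _ x0) (pow_ne_zero _ x1)),
    ratOrd_mul _ (pow_ne_zero _ x1) (pow_ne_zero _ x0),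
    ratOrd_mul _ (pow_ne_zero _ x0) (pow_ne_zero _ x1), ratOrd_pow _ x0, ratOrd_pow _ x0,
    ratOrd_pow _ x1, ratOrd_pow _ x1, (hc i hx).2] at hg
  rcases lt_or_ge (ratOrd (some a) (R.xi (i + 1))) 0 with h1 | h1
  · rw [(hc (i + 1) h1).2] at hg
    push_cast at hg
    have h2 : (q : ℤ) * (ratOrd (some a) (R.xi (i + 1)) - ratOrd (some a) (R.xi i)) = 0 := by
      linarith
    rcases mul_eq_zero.1 h2 with h3 | h3
    · omega
    · omega
  · exfalso
    have h2 : GE (some a) 0 (R.πi (i + 1) (R.ci (i + 1))) := by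
      have hcc : GE (some a) 0 (R.ci (i + 1)) := by
        unfold ci
        exact ((EX.self _ x1).ge.mono h1).add (X_ge a)
      have := (hcc.sub (GE.C _ (R.θ (i + 1 + 1)))).mul (hcc.sub (GE.C _ (R.θ (i + 1 + 3))))
      rwa [add_zero] at this
    have h3 := h2.ord (πc_ne h (i + 1))
    push_cast at hg
    nlinarith

lemma xi_le_one [CharP k p] (h : ¬ R.ND) (i : ℕ) (a : k) : ratOrd (some a) (R.xi i) ≤ 1 := by
  by_contra hcon
  push Not at hcon
  have h1 : GE (some a) 2 (R.xi i) := Or.inr (by omega)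
  have h2 := GE.ratD_fin h1
  rw [ratD_xi h] at h2
  have h3 := h2.ord (neg_ne_zero.2 one_ne_zero)
  rw [ratOrd_neg, ratOrd_one] at h3
  norm_num at h3

lemma π_ex (R : Red k p q 4) (i : ℕ) (a : k) (h1 : R.θ (i + 1) ≠ a) (h3 : R.θ (i + 3) ≠ a) :
    EX (some a) 0 (R.πi i RatFunc.X) := by
  unfold πi
  have e1 := (EX_CX_ne h1).neg
  have e3 := (EX_CX_ne h3).neg
  rw [neg_sub] at e1 e3
  simpa using e1.mul e3

/-- zeros outside the special places coincide -/
lemma zero_pos [CharP k p] (h : ¬ R.ND) (hq : 3 ≤ q) (i : ℕ) (a : k) (h1 : R.θ (i + 1) ≠ a)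
    (h3 : R.θ (i + 3) ≠ a) (hx : 0 < ratOrd (some a) (R.xi i)) :
    0 < ratOrd (some a) (R.xi (i + 1)) := by
  have hqZ : (3 : ℤ) ≤ q := by exact_mod_cast hq
  have x0 := xi_ne h i
  have x1 := xi_ne h (i + 1)
  have hβ : ratOrd (some a) (R.xi i) = 1 := by
    have := xi_le_one h i a
    omega
  by_contra hcon
  push Not at hcon
  have hβ' : ratOrd (some a) (R.xi (i + 1)) = 0 := by
    rcases hcon.lt_or_eq with h4 | h4
    · have h5 := pole_eq h (i + 1) a h4
      rw [show i + 1 + 1 = i + 2 by ring, xi_two h] at h5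
      omega
    · exact h4
  have ex0 : EX (some a) 1 (R.xi i) := ⟨x0, hβ⟩
  have ex1 : EX (some a) 0 (R.xi (i + 1)) := ⟨x1, hβ'⟩
  have hTq : GE (some a) 0 (RatFunc.X ^ q : RatFunc k) := by
    have := (X_ge a).pow (m := q) (by omega)
    rwa [mul_zero] at this
  have hbr : EX (some a) 0 (R.xi i * (RatFunc.X ^ q - RatFunc.X) - R.πi i RatFunc.X) := by
    have e1 : R.xi i * (RatFunc.X ^ q - RatFunc.X) - R.πi i RatFunc.X =
      -(R.πi i RatFunc.X) + R.xi i * (RatFunc.X ^ q - RatFunc.X) := by ring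
    rw [e1]
    apply (R.π_ex i a h1 h3).neg.add
    have := ex0.ge.mul (hTq.sub (X_ge a))
    simpa using this
  set Y := R.xi (i + 1) * (RatFunc.X ^ q - RatFunc.X) - R.πi (i + 1) RatFunc.X with hY
  have hE := eps h i
  rw [← hY] at hE
  have hL := hbr.mul (ex1.mul (ex0.pow q))
  rw [hE] at hL
  have hY0 : Y ≠ 0 := left_ne_zero_of_mul hL.1
  have hYex : EX (some a) (q - 1) Y := by
    refine ⟨hY0, ?_⟩
    have h5 := hL.2
    rw [ratOrd_mul _ hY0 (mul_ne_zero x0 (pow_ne_zero _ x1)),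
      ratOrd_mul _ x0 (pow_ne_zero _ x1), ratOrd_pow _ x1, hβ, hβ'] at h5
    linarith
  have hcint : GE (some a) 0 (R.ci i) := by
    unfold ci
    exact (ex0.ge.mono (by norm_num)).add (X_ge a)
  have hπ0 : GE (some a) 0 (R.πi i (R.ci i)) := by
    have := (hcint.sub (GE.C _ (R.θ (i + 1)))).mul (hcint.sub (GE.C _ (R.θ (i + 3))))
    rwa [add_zero] at this
  have hπ1 : GE (some a) (q - 2) (R.πi (i + 1) (R.ci (i + 1))) := by
    have hg := congrArg (ratOrd (some a)) (gam h i)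
    rw [ratOrd_mul _ (πc_ne h i) (mul_ne_zero (pow_ne_zero _ x1) (pow_ne_zero _ x0)),
      ratOrd_mul _ (πc_ne h (i + 1)) (mul_ne_zero (pow_ne_zero _ x0) (pow_ne_zero _ x1)),
      ratOrd_mul _ (pow_ne_zero _ x1) (pow_ne_zero _ x0),
      ratOrd_mul _ (pow_ne_zero _ x0) (pow_ne_zero _ x1), ratOrd_pow _ x0, ratOrd_pow _ x0,
      ratOrd_pow _ x1, ratOrd_pow _ x1, hβ, hβ'] at hg
    have := hπ0.ord (πc_ne h i)
    right
    push_cast at hg
    linarith
  have hYd : GE (some a) (q - 2) (ratD k Y) := (GE.ratD_fin hYex.ge).mono (by linarith)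
  have hYdeq : ratD k Y = - R.ci (i + 1) - RatFunc.X ^ q +
      (RatFunc.C (R.θ (i + 1 + 1)) + RatFunc.C (R.θ (i + 1 + 3))) := by
    rw [hY, ratD_sub, ratD_mul, ratD_sub, ratD_pow_dvd R.p_dvd, ratD_xi h, ratD_X]
    unfold πi ci
    rw [ratD_mul, ratD_sub, ratD_sub, ratD_X, ratD_C, ratD_C]
    ring
  have hfin : GE (some a) (q - 2)
      ((RatFunc.X ^ q - RatFunc.C (R.θ (i + 1 + 1))) *
        (RatFunc.X ^ q - RatFunc.C (R.θ (i + 1 + 3)))) := by
    have e1 : (RatFunc.X ^ q - RatFunc.C (R.θ (i + 1 + 1))) *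
        (RatFunc.X ^ q - RatFunc.C (R.θ (i + 1 + 3))) =
        R.πi (i + 1) (R.ci (i + 1)) - ratD k Y *
          (ratD k Y + 2 * RatFunc.X ^ q - RatFunc.C (R.θ (i + 1 + 1)) -
            RatFunc.C (R.θ (i + 1 + 3))) := by
      unfold πi
      have : R.ci (i + 1) = - ratD k Y - RatFunc.X ^ q +
        (RatFunc.C (R.θ (i + 1 + 1)) + RatFunc.C (R.θ (i + 1 + 3))) := by
        rw [hYdeq]; ring
      rw [this]
      ring
    rw [e1]
    apply hπ1.sub
    have h2T : GE (some a) 0 (2 * RatFunc.X ^ q : RatFunc k) := by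
      rw [two_mul]; exact hTq.add hTq
    have := hYd.mul ((((hYd.mono (by linarith : (0 : ℤ) ≤ q - 2)).add h2T).sub
      (GE.C _ (R.θ (i + 1 + 1)))).sub (GE.C _ (R.θ (i + 1 + 3))))
    rwa [add_zero] at this
  have hpw : ∀ l : ℕ, R.θ l ≠ a → EX (some a) 0 (RatFunc.X ^ q - RatFunc.C (R.θ (l + 1))) := by
    intro l hl
    have e1 := (EX_CX_ne hl).neg.pow q
    rw [neg_sub, R.sub_pow_q, ← map_pow, ← R.θ_succ, mul_zero] at e1
    exact e1
  have e1 := (hpw (i + 1) h1).mul (hpw (i + 3) h3)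
  rw [show i + 3 + 1 = i + 1 + 3 by ring] at e1
  have e2 := hfin.ord e1.1
  rw [e1.2] at e2
  linarith

end General

end Red

end Pool.Agent.TH923.Y0
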