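import Mathlib
import Pool.Agent.TH923.Y0.Deg42

/-!
# The degenerate case, `N = 4`, `q ≥ 4` even
-/

set_option autoImplicit false

namespace Pool.Agent.TH923.Y0

open Finset

namespace Red

section General

variable {k : Type*} [Field k] {p q : ℕ} {R : Red k p q 4}

lemma dle [CharP k p] (h : ¬ R.ND) (hq : 3 ≤ q) (i : ℕ) (a : k) (h1 : R.θ (i + 1) ≠ a)
    (h3 : R.θ (i + 3) ≠ a) : ratOrd (some a) (R.xi i) ≤ ratOrd (some a) (R.xi (i + 1)) := by
  rcases lt_trichotomy (ratOrd (some a) (R.xi i)) 0 with h4 | h4 | h4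
  · exact (pole_eq h i a h4).ge
  · by_contra hcon
    push Not at hcon
    have h5 := pole_eq h (i + 1) a (by omega)
    rw [show i + 1 + 1 = i + 2 by ring, xi_two h] at h5
    omega
  · have h5 := zero_pos h hq i a h1 h3 h4
    have h6 := xi_le_one h i a
    omega

lemma dle1 [CharP k p] (h : ¬ R.ND) (i : ℕ) (a : k) :
    ratOrd (some a) (R.xi i) ≤ ratOrd (some a) (R.xi (i + 1)) + 1 := by
  rcases lt_or_ge (ratOrd (some a) (R.xi i)) 0 with h4 | h4
  · have := pole_eq h i a h4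
    omega
  · have h6 := xi_le_one h i a
    by_contra hcon
    push Not at hcon
    have h5 := pole_eq h (i + 1) a (by omega)
    rw [show i + 1 + 1 = i + 2 by ring, xi_two h] at h5
    omega

lemma ord_xi_σ (i : ℕ) (c : k) :
    ratOrd (some (c ^ q)) (R.xi (i + 1)) = ratOrd (some c) (R.xi i) := by
  rw [← σ_xi, R.ord_σ]

open Classical in
lemma ord_π (R : Red k p q 4) (i : ℕ) (a : k) : ratOrd (some a) (R.πi i RatFunc.X) =
    (if R.θ (i + 1) = a then 1 else 0) + (if R.θ (i + 3) = a then 1 else 0) := by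
  have h1 : ∀ t : k, ratOrd (some a) (RatFunc.X - RatFunc.C t) = if t = a then 1 else 0 := by
    intro t
    rw [← ratOrd_neg, neg_sub]
    by_cases h : t = a
    · rw [if_pos h, h, (EX_CX_same a).2]
    · rw [if_neg h, (EX_CX_ne h).2]
  have h2 : ∀ t : k, (RatFunc.X - RatFunc.C t : RatFunc k) ≠ 0 := by
    intro t
    rw [← neg_ne_zero, neg_sub]
    exact CX_ne t
  unfold πi
  rw [ratOrd_mul _ (h2 _) (h2 _), h1, h1]

lemma π_inf (R : Red k p q 4) (i : ℕ) : EX none (-2) (R.πi i RatFunc.X) := by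
  have h1 : ∀ t : k, EX none (-1) (RatFunc.X - RatFunc.C t) := by
    intro t
    have := (EX_CX_inf t).neg
    rwa [neg_sub] at this
  exact (h1 _).mul (h1 _)

/-- the two possibilities -/
lemma ratio [CharP k p] [IsAlgClosed k] (h : ¬ R.ND) (hq : 3 ≤ q) :
    ∃ κ : k, κ ≠ 0 ∧ R.xi 0 * R.πi 1 RatFunc.X = RatFunc.C κ * (R.xi 1 * R.πi 0 RatFunc.X) := by
  classical
  have hθ4 : R.θ 4 = R.θ 0 := R.θ_per 0
  have h2 : R.xi 2 = R.xi 0 := xi_two h 0
  have n01 := R.θ_ne4 0 1 (by norm_num)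
  have n02 := R.θ_ne4 0 2 (by norm_num)
  have n03 := R.θ_ne4 0 3 (by norm_num)
  have n12 := R.θ_ne4 1 2 (by norm_num)
  have n13 := R.θ_ne4 1 3 (by norm_num)
  have n23 := R.θ_ne4 2 3 (by norm_num)
  -- orders at the special places
  have s1 : ratOrd (some (R.θ 1)) (R.xi 1) = ratOrd (some (R.θ 0)) (R.xi 0) := by
    rw [R.θ_succ 0]; exact ord_xi_σ 0 _
  have s2 : ratOrd (some (R.θ 2)) (R.xi 1) = ratOrd (some (R.θ 1)) (R.xi 0) := by
    rw [R.θ_succ 1]; exact ord_xi_σ 0 _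
  have s3 : ratOrd (some (R.θ 3)) (R.xi 1) = ratOrd (some (R.θ 2)) (R.xi 0) := by
    rw [R.θ_succ 2]; exact ord_xi_σ 0 _
  have s4 : ratOrd (some (R.θ 0)) (R.xi 1) = ratOrd (some (R.θ 3)) (R.xi 0) := by
    rw [← hθ4, R.θ_succ 3]; exact ord_xi_σ 0 _
  have t1 : ratOrd (some (R.θ 1)) (R.xi 0) = ratOrd (some (R.θ 0)) (R.xi 1) := by
    rw [← h2, R.θ_succ 0]; exact ord_xi_σ 1 _
  have t2 : ratOrd (some (R.θ 2)) (R.xi 0) = ratOrd (some (R.θ 1)) (R.xi 1) := by
    rw [← h2, R.θ_succ 1]; exact ord_xi_σ 1 _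
  have t3 : ratOrd (some (R.θ 3)) (R.xi 0) = ratOrd (some (R.θ 2)) (R.xi 1) := by
    rw [← h2, R.θ_succ 2]; exact ord_xi_σ 1 _
  have b1 := dle1 h 0 (R.θ 1)
  have b2 := dle h hq 1 (R.θ 1) n12.symm (by rw [show 1 + 3 = 4 by rfl, hθ4]; exact n01)
  rw [show 1 + 1 = 2 by rfl, h2] at b2
  rw [zero_add] at b1
  have hgen : ∀ a, R.θ 0 ≠ a → R.θ 1 ≠ a → R.θ 2 ≠ a → R.θ 3 ≠ a →
      ratOrd (some a) (R.xi 0) = ratOrd (some a) (R.xi 1) := by
    intro a h0 h1 h2' h3
    apply le_antisymm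
    · exact dle h hq 0 a h1 h3
    · have := dle h hq 1 a h2' (by rw [show 1 + 3 = 4 by rfl, hθ4]; exact h0)
      rwa [show 1 + 1 = 2 by rfl, h2] at this
  have hinf : ratOrd none (R.xi 0) = ratOrd none (R.xi 1) := by
    rw [← σ_xi 0, R.σ_inf]
  have x0 := xi_ne h 0
  have x1 := xi_ne h 1
  have p0 := (R.π_inf 0).ne
  have p1 := (R.π_inf 1).ne
  rcases (show ratOrd (some (R.θ 1)) (R.xi 0) = ratOrd (some (R.θ 1)) (R.xi 1) ∨
    ratOrd (some (R.θ 1)) (R.xi 0) = ratOrd (some (R.θ 1)) (R.xi 1) + 1 by omega) with hc | hc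
  · exfalso
    have hF : ∀ v, 0 ≤ ratOrd v (R.xi 0 / R.xi 1) := by
      intro v
      rw [ratOrd_div _ x0 x1]
      cases v with
      | none => rw [hinf, sub_self]
      | some a =>
        by_cases h0 : R.θ 0 = a
        · rw [← h0]; omega
        by_cases h1 : R.θ 1 = a
        · rw [← h1]; omega
        by_cases h2' : R.θ 2 = a
        · rw [← h2']; omega
        by_cases h3 : R.θ 3 = a
        · rw [← h3]; omega
        rw [hgen a h0 h1 h2' h3, sub_self]
    obtain ⟨κ, hκ⟩ := rat_const k _ (div_ne_zero x0 x1) hF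
    have e1 : RatFunc.C κ * R.xi 1 = R.xi 0 := by
      have : (algebraMap k (RatFunc k)) κ = RatFunc.C κ := rfl
      rw [← this, hκ, div_mul_cancel₀ _ x1]
    have e2 := congrArg (ratD k) e1
    rw [ratD_mul, ratD_C, ratD_xi h, ratD_xi h, mul_zero, add_zero] at e2
    have e3 : RatFunc.C κ = 1 := by linear_combination -e2
    rw [e3, one_mul] at e1
    apply all_eq h
    unfold xi at e1
    have e4 := inv_injective e1
    linear_combination e4
  · have hF : ∀ v, 0 ≤ ratOrd v (R.xi 0 * R.πi 1 RatFunc.X / (R.xi 1 * R.πi 0 RatFunc.X)) := by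
      intro v
      rw [ratOrd_div _ (mul_ne_zero x0 p1) (mul_ne_zero x1 p0), ratOrd_mul _ x0 p1,
        ratOrd_mul _ x1 p0]
      cases v with
      | none => rw [hinf, (R.π_inf 0).2, (R.π_inf 1).2, sub_self]
      | some a =>
        rw [R.ord_π, R.ord_π]
        simp only [zero_add, show 1 + 1 = 2 by rfl, show 1 + 3 = 4 by rfl, hθ4]
        by_cases h0 : R.θ 0 = a
        · rw [← h0, if_neg n02.symm, if_pos rfl, if_neg n01.symm, if_neg n03.symm]; omega
        by_cases h1 : R.θ 1 = a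
        · rw [← h1, if_neg n12.symm, if_neg n01, if_pos rfl, if_neg n13.symm]; omega
        by_cases h2' : R.θ 2 = a
        · rw [← h2', if_pos rfl, if_neg n02, if_neg n12, if_neg n23.symm]; omega
        by_cases h3 : R.θ 3 = a
        · rw [← h3, if_neg n23, if_neg n03, if_neg n13, if_pos rfl]; omega
        rw [hgen a h0 h1 h2' h3, if_neg h0, if_neg h1, if_neg h2', if_neg h3]
        omega
    obtain ⟨κ, hκ⟩ := rat_const k _ (div_ne_zero (mul_ne_zero x0 p1) (mul_ne_zero x1 p0)) hF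
    refine ⟨κ, ?_, ?_⟩
    · rintro rfl
      rw [map_zero] at hκ
      exact div_ne_zero (mul_ne_zero x0 p1) (mul_ne_zero x1 p0) hκ.symm
    · have : (algebraMap k (RatFunc k)) κ = RatFunc.C κ := rfl
      rw [← this, hκ, div_mul_cancel₀ _ (mul_ne_zero x1 p0)]

end General

section Two

variable {k : Type*} [Field k] {q : ℕ} {R : Red k 2 q 4}

/-- **characteristic two, `q ≥ 4`** -/
theorem deg4_two [CharP k 2] [IsAlgClosed k] (h : ¬ R.ND) (hq : 4 ≤ q) : False := by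
  classical
  have hqZ : (4 : ℤ) ≤ q := by exact_mod_cast hq
  obtain ⟨κ, hκ0, hκ⟩ := ratio h (by omega)
  have hθ4 : R.θ 4 = R.θ 0 := R.θ_per 0
  have h2 : (2 : RatFunc k) = 0 := by
    have : CharP (RatFunc k) 2 :=
      charP_of_injective_algebraMap (algebraMap k (RatFunc k)).injective 2
    exact CharTwo.two_eq_zero
  have n01 := R.θ_ne4 0 1 (by norm_num)
  have n02 := R.θ_ne4 0 2 (by norm_num)
  have n03 := R.θ_ne4 0 3 (by norm_num)
  have n12 := R.θ_ne4 1 2 (by norm_num)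
  have n23 := R.θ_ne4 2 3 (by norm_num)
  set P := R.πi 0 RatFunc.X with hP
  set Q := R.πi 1 RatFunc.X with hQ
  set x := R.xi 0 with hx
  set y := R.xi 1 with hy
  set P' := RatFunc.C (R.θ 1) + RatFunc.C (R.θ 3) with hP'
  set Q' := RatFunc.C (R.θ 2) + RatFunc.C (R.θ 0) with hQ'
  have dP : ratD k P = P' := by
    rw [hP]
    unfold πi
    rw [ratD_mul, ratD_sub, ratD_sub, ratD_X, ratD_C, ratD_C, hP']
    simp only [zero_add]
    linear_combination (RatFunc.X - RatFunc.C (R.θ 1) - RatFunc.C (R.θ 3)) * h2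
  have dQ : ratD k Q = Q' := by
    rw [hQ]
    unfold πi
    rw [ratD_mul, ratD_sub, ratD_sub, ratD_X, ratD_C, ratD_C, hQ', show 1 + 3 = 4 by rfl, hθ4]
    simp only [show 1 + 1 = 2 by rfl]
    linear_combination (RatFunc.X - RatFunc.C (R.θ 2) - RatFunc.C (R.θ 0)) * h2
  have x0 : x ≠ 0 := xi_ne h 0
  have y0 : y ≠ 0 := xi_ne h 1
  have P0 : P ≠ 0 := (R.π_inf 0).ne
  have Q0 : Q ≠ 0 := (R.π_inf 1).ne
  have K0 : (RatFunc.C κ : RatFunc k) ≠ 0 := (EX.C none hκ0).1
  set K : RatFunc k := RatFunc.C κ with hK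
  have dx : ratD k x = -1 := ratD_xi h 0
  have dy : ratD k y = -1 := ratD_xi h 1
  have dK : ratD k K = 0 := ratD_C κ
  have dd : x * Q' + Q * (-1) = K * (y * P' + P * (-1)) + y * P * 0 := by
    have := congrArg (ratD k) hκ
    rw [ratD_mul, ratD_mul, ratD_mul, dx, dy, dK, dP, dQ] at this
    exact this
  set Λ := K * P + Q with hΛ
  set Λ' := K * P' + Q' with hΛ'
  set W := Λ' * P + Λ * P' with hW
  have hxW : x * W = P * Λ := by
    rw [hW, hΛ', hΛ]
    linear_combination P * dd + P' * hκ + (x * K * P * P' - K * P ^ 2 + K * y * P * P') * h2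
  have hyW : K * (y * W) = Q * Λ := by
    have : P * (K * (y * W)) = P * (Q * Λ) := by
      linear_combination Q * hxW - W * hκ
    exact mul_left_cancel₀ P0 this
  set E := Λ ^ 2 + Λ' * W with hE
  set E' := Λ ^ 2 + K * W * Λ' with hE'
  have π0c : R.πi 0 (R.ci 0) = x ^ 2 + x * P' + P := by
    have e1 : R.ci 0 = x + RatFunc.X := rfl
    rw [e1, hP, hP']
    unfold πi
    simp only [zero_add]
    linear_combination (x * RatFunc.X - x * RatFunc.C (R.θ 1) - x * RatFunc.C (R.θ 3)) * h2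
  have π1c : R.πi 1 (R.ci 1) = y ^ 2 + y * Q' + Q := by
    have e1 : R.ci 1 = y + RatFunc.X := rfl
    rw [e1, hQ, hQ']
    unfold πi
    simp only [show 1 + 1 = 2 by rfl, show 1 + 3 = 4 by rfl, hθ4]
    linear_combination (y * RatFunc.X - y * RatFunc.C (R.θ 2) - y * RatFunc.C (R.θ 0)) * h2
  have hEP : R.πi 0 (R.ci 0) * W ^ 2 = P ^ 2 * E := by
    rw [π0c, hE]
    linear_combination (x * W + P * Λ + P' * W) * hxW + P * W * hW + P * W * Λ * P' * h2
  have hEQ : K ^ 2 * (R.πi 1 (R.ci 1) * W ^ 2) = Q ^ 2 * E' := by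
    rw [π1c, hE']
    linear_combination (K * y * W + Q * Λ + K * Q' * W) * hyW + K ^ 2 * Q * W * hW
      - K * Q * W * Λ * hΛ' + K * Q * W * Λ' * hΛ + K ^ 2 * Q * W * Λ' * P * h2
  have hgam : R.πi 0 (R.ci 0) * (y ^ 2 * x ^ q) = R.πi 1 (R.ci 1) * (x ^ 2 * y ^ q) := gam h 0
  have G1 : K ^ 2 * (P ^ 2 * E) * (y ^ 2 * x ^ q) = (Q ^ 2 * E') * (x ^ 2 * y ^ q) := by
    linear_combination K ^ 2 * W ^ 2 * hgam - K ^ 2 * y ^ 2 * x ^ q * hEP + x ^ 2 * y ^ q * hEQ
  have hxq : x ^ q * Q ^ q = K ^ q * (y ^ q * P ^ q) := by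
    rw [← mul_pow, hκ, mul_pow, mul_pow]
  have hfin : K ^ q * E * P ^ q = E' * Q ^ q := by
    have : K ^ 2 * P ^ 2 * y ^ 2 * y ^ q * (K ^ q * E * P ^ q) =
        K ^ 2 * P ^ 2 * y ^ 2 * y ^ q * (E' * Q ^ q) := by
      linear_combination Q ^ q * G1 - K ^ 2 * P ^ 2 * E * y ^ 2 * hxq +
        E' * y ^ q * Q ^ q * (x * Q + K * (y * P)) * hκ
    exact mul_left_cancel₀ (mul_ne_zero (mul_ne_zero (mul_ne_zero (pow_ne_zero _ K0)
      (pow_ne_zero _ P0)) (pow_ne_zero _ y0)) (pow_ne_zero _ y0)) this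
  -- nonvanishing
  have hPθ : ∀ a, R.θ 1 ≠ a → R.θ 3 ≠ a → EX (some a) 0 P := fun a h1 h3 => R.π_ex 0 a h1 h3
  have hQ0 : EX (some (R.θ 0)) 1 Q := by
    refine ⟨Q0, ?_⟩
    rw [hQ, R.ord_π, show 1 + 1 = 2 by rfl, show 1 + 3 = 4 by rfl, hθ4, if_neg n02.symm,
      if_pos rfl, zero_add]
  have hQ2 : EX (some (R.θ 2)) 1 Q := by
    refine ⟨Q0, ?_⟩
    rw [hQ, R.ord_π, show 1 + 1 = 2 by rfl, show 1 + 3 = 4 by rfl, hθ4, if_pos rfl,
      if_neg n02, add_zero]
  have hP0 := hPθ (R.θ 0) n01.symm n03.symm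
  have hP2 := hPθ (R.θ 2) n12 n23.symm
  have hKe : ∀ v, EX v 0 K := fun v => EX.C v hκ0
  have hΛ0 : Λ ≠ 0 := by
    have h1 : EX (some (R.θ 0)) 0 (K * P + Q) := by
      apply EX.add
      · simpa using (hKe _).mul hP0
      · exact hQ0.ge
    exact h1.ne
  have hW0 : W ≠ 0 := by
    intro h0
    rw [h0, mul_zero] at hxW
    exact mul_ne_zero P0 hΛ0 hxW.symm
  have hE0 : E ≠ 0 := by
    intro h0
    rw [h0, mul_zero] at hEP
    exact mul_ne_zero (πc_ne h 0) (pow_ne_zero _ hW0) hEP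
  have hE0' : E' ≠ 0 := by
    intro h0
    rw [h0, mul_zero] at hEQ
    exact mul_ne_zero (pow_ne_zero _ K0) (mul_ne_zero (πc_ne h 1) (pow_ne_zero _ hW0)) hEQ
  -- integrality
  have gP' : ∀ v, GE v 0 P' := fun v => (GE.C _ _).add (GE.C _ _)
  have gQ' : ∀ v, GE v 0 Q' := fun v => (GE.C _ _).add (GE.C _ _)
  have gΛ' : ∀ v, GE v 0 Λ' := by
    intro v
    have := ((hKe v).ge.mul (gP' v)).add (by simpa using gQ' v)
    simpa using this
  have gPQ : ∀ (v : Option k) (n : ℤ), n ≤ 0 → GE v n P → GE v n Q →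
      GE v n Λ ∧ GE v n W := by
    intro v n hn h1 h2
    have h3 : GE v n Λ := by
      have := ((hKe v).ge.mul h1)
      rw [zero_add] at this
      exact this.add h2
    refine ⟨h3, ?_⟩
    have h4 := (gΛ' v).mul h1
    have h5 := h3.mul (gP' v)
    rw [zero_add] at h4
    rw [add_zero] at h5
    exact h4.add h5
  have gfin : ∀ a : k, GE (some a) 0 P ∧ GE (some a) 0 Q := by
    intro a
    constructor
    · right
      rw [hP, R.ord_π]
      split_ifs <;> norm_num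
    · right
      rw [hQ, R.ord_π]
      split_ifs <;> norm_num
  have gE : ∀ a : k, GE (some a) 0 E ∧ GE (some a) 0 E' := by
    intro a
    obtain ⟨h1, h2⟩ := gPQ (some a) 0 le_rfl (gfin a).1 (gfin a).2
    have h3 : GE (some a) 0 (Λ ^ 2) := by simpa using h1.pow (m := 2) (by norm_num)
    constructor
    · exact h3.add (by simpa using (gΛ' (some a)).mul h2)
    · exact h3.add (by simpa using ((hKe (some a)).ge.mul h2).mul (gΛ' (some a)))
  have gEinf : GE none (-4) E := by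
    obtain ⟨h1, h2⟩ := gPQ none (-2) (by norm_num) (R.π_inf 0).ge (R.π_inf 1).ge
    have h3 : GE none (-4) (Λ ^ 2) := by simpa using h1.pow (m := 2) (by norm_num)
    exact h3.add (((gΛ' none).mul h2).mono (by norm_num))
  -- orders at the two places
  have hsp : ∀ a, EX (some a) 0 P → EX (some a) 1 Q → (4 : ℤ) ≤ ratOrd (some a) E := by
    intro a h1 h2
    have h3 := congrArg (ratOrd (some a)) hfin
    rw [ratOrd_mul _ (mul_ne_zero (pow_ne_zero _ K0) hE0) (pow_ne_zero _ P0),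
      ratOrd_mul _ (pow_ne_zero _ K0) hE0, ratOrd_mul _ hE0' (pow_ne_zero _ Q0),
      ratOrd_pow _ K0, ratOrd_pow _ P0, ratOrd_pow _ Q0, (hKe _).2, h1.2, h2.2] at h3
    have h4 := (gE a).2.ord hE0'
    linarith
  have hprod := rat_prod k E hE0 {none, some (R.θ 0), some (R.θ 2)} (by
    intro v hv
    cases v with
    | none => simp at hv
    | some a => exact (gE a).1.ord hE0)
  rw [Finset.sum_insert (by simp), Finset.sum_pair (by simpa using n02)] at hprod
  have h1 := hsp _ hP0 hQ0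
  have h2 := hsp _ hP2 hQ2
  have h3 := gEinf.ord hE0
  linarith

end Two

end Red

end Pool.Agent.TH923.Y0
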