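import Mathlib
import Pool.Agent.TH923.Y0.Deg42

/-!
# The degenerate case, `N = 4`, `q = 2`
-/

set_option autoImplicit false

namespace Pool.Agent.TH923.Y0

open Finset

section Quad

variable {k : Type*} [Field k] [IsAlgClosed k]

/-- `P² (a² + 1) = Q² a` with different linear `P`, `Q` is impossible -/
lemma no_quad {u w : k} (huw : u ≠ w) {a : RatFunc k} (ha : a ≠ 0)
    (h : (RatFunc.C u - RatFunc.X) ^ 2 * (a ^ 2 + 1) = (RatFunc.C w - RatFunc.X) ^ 2 * a) :
    False := by
  have hu := CX_ne u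
  have hw := CX_ne w
  have h1 : a ^ 2 + 1 ≠ 0 := by
    intro h0
    rw [h0, mul_zero] at h
    exact mul_ne_zero (pow_ne_zero _ hw) ha h.symm
  have hord : ∀ v, 2 * ratOrd v (RatFunc.C u - RatFunc.X) + ratOrd v (a ^ 2 + 1) =
      2 * ratOrd v (RatFunc.C w - RatFunc.X) + ratOrd v a := by
    intro v
    have h2 := congrArg (ratOrd v) h
    rw [ratOrd_mul _ (pow_ne_zero _ hu) h1, ratOrd_mul _ (pow_ne_zero _ hw) ha, ratOrd_pow _ hu,
      ratOrd_pow _ hw] at h2
    exact_mod_cast h2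
  have hneg : ∀ v, ratOrd v a < 0 → ratOrd v (a ^ 2 + 1) = 2 * ratOrd v a := by
    intro v hv
    have := ((EX.self v ha).pow 2).add ((EX.one v).ge.mono (by push_cast; omega))
    exact_mod_cast this.2
  have hpos : ∀ v, 0 < ratOrd v a → ratOrd v (a ^ 2 + 1) = 0 := by
    intro v hv
    have := EX.add' (((EX.self v ha).pow 2).ge.mono (by push_cast; omega)) (EX.one v)
    exact this.2
  have hzero : ∀ v, ratOrd v a = 0 → 0 ≤ ratOrd v (a ^ 2 + 1) := by
    intro v hv
    have h2 : GE v 0 (a ^ 2) := by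
      have := ((EX.self v ha).pow 2).ge
      rwa [hv, mul_zero] at this
    exact (h2.add (EX.one v).ge).ord h1
  have hother : ∀ v, v ≠ some u → ratOrd v a = 0 := by
    intro v hv
    have e1 := hord v
    have e2 := hneg v
    have e3 := hpos v
    have e4 := hzero v
    cases v with
    | none =>
      rw [(EX_CX_inf u).2, (EX_CX_inf w).2] at e1
      omega
    | some c =>
      have huc : u ≠ c := fun e => hv (by rw [e])
      rw [(EX_CX_ne huc).2] at e1
      by_cases hwc : w = c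
      · rw [hwc, (EX_CX_same c).2] at e1
        omega
      · rw [(EX_CX_ne hwc).2] at e1
        omega
  have hu2 : ratOrd (some u) a = 2 ∨ ratOrd (some u) a = -2 := by
    have e1 := hord (some u)
    have e2 := hneg (some u)
    have e3 := hpos (some u)
    have e4 := hzero (some u)
    rw [(EX_CX_same u).2, (EX_CX_ne huw.symm).2] at e1
    omega
  rcases hu2 with h2 | h2
  · have := rat_prod k a ha {some u} (by
      intro v hv
      rw [hother v (by simpa using hv)])
    rw [Finset.sum_singleton, h2] at this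
    norm_num at this
  · have := rat_prod k a⁻¹ (inv_ne_zero ha) {some u} (by
      intro v hv
      rw [ratOrd_inv _ ha, hother v (by simpa using hv), neg_zero])
    rw [Finset.sum_singleton, ratOrd_inv _ ha, h2] at this
    norm_num at this

lemma const_quad {a : RatFunc k} (ha : a ^ 2 + a + 1 = 0) : ∃ α : k, a = RatFunc.C α := by
  have ha0 : a ≠ 0 := by
    rintro rfl
    simp at ha
  have h : ∀ v, 0 ≤ ratOrd v a := by
    intro v
    by_contra hcon
    push Not at hcon
    have h1 : EX v (2 * ratOrd v a) (a ^ 2) := by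
      have := (EX.self v ha0).pow 2
      exact_mod_cast this
    have h2 := h1.add (((EX.self v ha0).ge.mono (by omega)).add ((EX.one v).ge.mono (by omega)))
    rw [← add_assoc, ha] at h2
    exact h2.1 rfl
  obtain ⟨α, hα⟩ := rat_const k a ha0 h
  exact ⟨α, hα.symm⟩

end Quad

namespace Red

variable {k : Type*} [Field k] {R : Red k 2 2 4}

/-- **`q = 2`** -/
theorem deg4_q2 [CharP k 2] [IsAlgClosed k] (h : ¬ R.ND) : False := by
  have hθ4 : R.θ 4 = R.θ 0 := R.θ_per 0
  have hcp : CharP (RatFunc k) 2 :=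
    charP_of_injective_algebraMap (algebraMap k (RatFunc k)).injective 2
  have h2 : (2 : RatFunc k) = 0 := CharTwo.two_eq_zero
  have h2k : (2 : k) = 0 := CharTwo.two_eq_zero
  have n01 := R.θ_ne4 0 1 (by norm_num)
  have n02 := R.θ_ne4 0 2 (by norm_num)
  have n03 := R.θ_ne4 0 3 (by norm_num)
  have n12 := R.θ_ne4 1 2 (by norm_num)
  have n13 := R.θ_ne4 1 3 (by norm_num)
  have n23 := R.θ_ne4 2 3 (by norm_num)
  have s0 := R.θ_succ 0
  have s1 := R.θ_succ 1
  have s2 := R.θ_succ 2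
  have s3 := R.θ_succ 3
  simp only [zero_add, show 1 + 1 = 2 by rfl, show 2 + 1 = 3 by rfl, show 3 + 1 = 4 by rfl,
    hθ4] at s0 s1 s2 s3
  -- constants
  obtain ⟨τ, hτ⟩ : ∃ τ : k, τ = R.θ 1 + R.θ 3 := ⟨_, rfl⟩
  obtain ⟨n, hn⟩ : ∃ n : k, n = R.θ 1 * R.θ 3 := ⟨_, rfl⟩
  obtain ⟨τ', hτ'⟩ : ∃ τ' : k, τ' = R.θ 2 + R.θ 0 := ⟨_, rfl⟩
  obtain ⟨n', hn'⟩ : ∃ n' : k, n' = R.θ 2 * R.θ 0 := ⟨_, rfl⟩
  have hττ : τ' = τ ^ 2 := by
    rw [hτ, hτ', s1, s3]
    linear_combination (-(R.θ 1 * R.θ 3)) * h2k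
  have hττ' : τ = τ' ^ 2 := by
    rw [hτ, hτ']
    have e1 : R.θ 1 = R.θ 0 ^ 2 := s0
    have e2 : R.θ 3 = R.θ 2 ^ 2 := s2
    rw [e1, e2]
    linear_combination (-(R.θ 0 * R.θ 2)) * h2k
  have hnn : n' = n ^ 2 := by
    rw [hn, hn', s1, s3]
    ring
  have hnn' : n = n' ^ 2 := by
    have e1 : R.θ 1 = R.θ 0 ^ 2 := s0
    have e2 : R.θ 3 = R.θ 2 ^ 2 := s2
    rw [hn, hn', e1, e2]
    ring
  have hτ0 : τ ≠ 0 := by
    intro h0
    apply n13
    rw [hτ] at h0
    linear_combination h0 - R.θ 3 * h2k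
  have ht1 : (τ + τ') * (τ + τ' - 1) = 0 := by
    linear_combination τ * τ' * h2k - hττ' - hττ
  have ht0 : (n + n') * (n + n' - 1) = 0 := by
    linear_combination n * n' * h2k - hnn' - hnn
  have hn0 : n ≠ 0 := by
    intro h0
    have h1 : n' = 0 := by rw [hnn, h0]; ring
    rw [hn] at h0
    rw [hn'] at h1
    rcases mul_eq_zero.1 h0 with h3 | h3
    · rcases mul_eq_zero.1 h1 with h4 | h4
      · exact n12 (by rw [h3, h4])
      · exact n01 (by rw [h3, h4])
    · rcases mul_eq_zero.1 h1 with h4 | h4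
      · exact n23 (by rw [h3, h4])
      · exact n03 (by rw [h3, h4])
  -- the functions
  obtain ⟨x, hx⟩ : ∃ x, x = R.xi 0 := ⟨_, rfl⟩
  obtain ⟨y, hy⟩ : ∃ y, y = R.xi 1 := ⟨_, rfl⟩
  have x0 : x ≠ 0 := by rw [hx]; exact xi_ne h 0
  have y0 : y ≠ 0 := by rw [hy]; exact xi_ne h 1
  obtain ⟨a, ha⟩ : ∃ a, a = x + y := ⟨_, rfl⟩
  have hx2 : R.xi (1 + 1) = R.xi 0 := xi_two h 0
  have hσa : R.σ a = a := by
    rw [ha, map_add, hx, hy, σ_xi, σ_xi, hx2]
    ring
  have ha0 : a ≠ 0 := by
    intro h0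
    apply all_eq h
    have e1 : x = y := by
      linear_combination h0 - ha - y * h2
    rw [hx, hy] at e1
    unfold xi at e1
    have e4 : R.j - R.ω 1 = R.j - R.ω 2 := inv_injective e1
    linear_combination -e4
  have hno : a ^ 2 + a + 1 ≠ 0 := by
    intro h0
    obtain ⟨α, hα⟩ := const_quad h0
    rw [hα, R.σ_C] at hσa
    have h3 := RatFunc.C_injective hσa
    rw [hα, ← map_pow, h3] at h0
    have h4 : RatFunc.C α + RatFunc.C α + 1 = (1 : RatFunc k) := by
      linear_combination RatFunc.C α * h2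
    rw [h4] at h0
    exact one_ne_zero h0
  obtain ⟨c, hc⟩ : ∃ c, c = R.ci 0 := ⟨_, rfl⟩
  have hcx : x = c + RatFunc.X := by
    have : c = x + RatFunc.X := by rw [hc, hx]; rfl
    rw [this]
    linear_combination (-RatFunc.X) * h2
  have hyx : y = c + a + RatFunc.X := by
    rw [ha, hcx]
    linear_combination (-c - RatFunc.X) * h2
  have hd : R.ci 1 = c + a := by
    have : R.ci 1 = y + RatFunc.X := by rw [hy]; rfl
    rw [this, hyx]
    linear_combination RatFunc.X * h2
  have hgam := gam h 0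
  have heps := eps h 0
  rw [show 0 + 1 = 1 by rfl, ← hx, ← hy] at hgam heps
  rw [← hc] at hgam
  have hg1 : R.πi 0 c = R.πi 1 (c + a) := by
    rw [← hd]
    apply mul_right_cancel₀ (mul_ne_zero (pow_ne_zero 2 x0) (pow_ne_zero 2 y0))
    linear_combination hgam
  have he1 : x * (x * (RatFunc.X ^ 2 - RatFunc.X) - R.πi 0 RatFunc.X) =
      y * (y * (RatFunc.X ^ 2 - RatFunc.X) - R.πi 1 RatFunc.X) := by
    apply mul_right_cancel₀ (mul_ne_zero x0 y0)
    linear_combination heps
  obtain ⟨T, hT⟩ : ∃ T : RatFunc k, T = RatFunc.X := ⟨_, rfl⟩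
  rw [← hT] at hcx hyx he1
  have π0 : ∀ z, R.πi 0 z = z ^ 2 + RatFunc.C τ * z + RatFunc.C n := by
    intro z
    unfold πi
    rw [hτ, hn, map_add, map_mul]
    simp only [zero_add]
    linear_combination (-(RatFunc.C (R.θ 1) * z + RatFunc.C (R.θ 3) * z)) * h2
  have π1 : ∀ z, R.πi 1 z = z ^ 2 + RatFunc.C τ' * z + RatFunc.C n' := by
    intro z
    unfold πi
    rw [hτ', hn', map_add, map_mul]
    simp only [show 1 + 1 = 2 by rfl, show 1 + 3 = 4 by rfl, hθ4]
    linear_combination (-(RatFunc.C (R.θ 2) * z + RatFunc.C (R.θ 0) * z)) * h2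
  rw [π0, π1] at hg1 he1
  have hA : RatFunc.C (τ + τ') * c = a ^ 2 + RatFunc.C τ' * a + RatFunc.C (n + n') := by
    rw [map_add, map_add]
    linear_combination (norm := (ring_nf; reduce_mod_char!)) hg1
  have hB : T ^ 2 * (a ^ 2 + a + RatFunc.C (τ + τ')) = RatFunc.C (n + n') * c +
      RatFunc.C n' * a := by
    rw [hcx, hyx] at he1
    rw [map_add, map_add] at hA
    rw [map_add, map_add]
    linear_combination (norm := (ring_nf; reduce_mod_char!)) he1 + T * hA
  have hTu : T ≠ 0 := by rw [hT]; exact RatFunc.X_ne_zero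
  rcases mul_eq_zero.1 ht1 with h1 | h1
  · -- `τ = τ' = 1`
    have e1 : τ * (τ - 1) = 0 := by linear_combination h1 - hττ - τ * h2k
    have e2 : τ = 1 := sub_eq_zero.1 ((mul_eq_zero.1 e1).resolve_left hτ0)
    have e3 : τ' = 1 := by rw [hττ, e2]; ring
    rcases mul_eq_zero.1 ht0 with h3 | h3
    · have e4 : n' = n := by linear_combination h3 - n * h2k
      have e5 : (R.θ 0 - R.θ 1) * (R.θ 0 - R.θ 3) = 0 := by
        have e6 : (R.θ 0 - R.θ 1) * (R.θ 0 - R.θ 3) = R.θ 0 ^ 2 - τ * R.θ 0 + n := by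
          rw [hτ, hn]; ring
        have e7 : R.θ 0 ^ 2 - τ' * R.θ 0 + n' = 0 := by
          rw [hτ', hn']; ring
        rw [e6, e2, ← e4]
        rw [e3] at e7
        exact e7
      rcases mul_eq_zero.1 e5 with h4 | h4
      · exact n01 (sub_eq_zero.1 h4)
      · exact n03 (sub_eq_zero.1 h4)
    · apply hno
      rw [h1, e3, sub_eq_zero.1 h3, map_zero, map_one, zero_mul, one_mul] at hA
      exact hA.symm
  · have h1' : τ + τ' = 1 := sub_eq_zero.1 h1
    rw [h1', map_one] at hA hB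
    rcases mul_eq_zero.1 ht0 with h3 | h3
    · have e4 : n' = n := by linear_combination h3 - n * h2k
      have e5 : n * (n - 1) = 0 := by linear_combination e4 - hnn
      have e6 : n = 1 := sub_eq_zero.1 ((mul_eq_zero.1 e5).resolve_left hn0)
      rw [h3, e4, e6, map_zero, map_one, zero_mul, zero_add, one_mul] at hB
      apply no_quad (u := 0) (w := 1) zero_ne_one ha0
      rw [map_zero, map_one, ← hT]
      linear_combination (norm := (ring_nf; reduce_mod_char!)) hB
    · have h3' : n + n' = 1 := sub_eq_zero.1 h3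
      rw [h3', map_one] at hA hB
      obtain ⟨e, he⟩ : ∃ e : k, e = τ' + n' := ⟨_, rfl⟩
      have hB' : T ^ 2 * (a ^ 2 + a + 1) = a ^ 2 + RatFunc.C e * a + 1 := by
        rw [he, map_add]
        linear_combination hB + hA
      have hee : e * (e - 1) = 0 := by
        rw [he]
        linear_combination τ' * n' * h2k - hττ' - hnn' + h1' + h3' - (τ' + n' - 1) * h2k
      rcases mul_eq_zero.1 hee with h4 | h4
      · rw [h4, map_zero, zero_mul, add_zero] at hB'
        apply no_quad (u := 1) (w := 0) one_ne_zero ha0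
        rw [map_zero, map_one, ← hT]
        linear_combination (norm := (ring_nf; reduce_mod_char!)) hB'
      · rw [sub_eq_zero.1 h4, map_one, one_mul] at hB'
        have e1 : (RatFunc.C 1 - RatFunc.X) ^ 2 * (a ^ 2 + a + 1) = 0 := by
          rw [map_one, ← hT]
          linear_combination (norm := (ring_nf; reduce_mod_char!)) hB'
        rcases mul_eq_zero.1 e1 with h5 | h5
        · exact pow_ne_zero _ (CX_ne (1 : k)) h5
        · exact hno h5

end Red

end Pool.Agent.TH923.Y0
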