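import Mathlib
import Pool.Agent.TH923.Y0.Val

/-!
# Embeddings of the function fields
-/

set_option autoImplicit false

namespace Pool.Agent.TH923.Y0

open Polynomial

variable (Fq : Type) [Field Fq]

/-- the constants -/
abbrev kk := AlgebraicClosure Fq
/-- the big field -/
abbrev LL := AlgebraicClosure (RatFunc Fq)

noncomputable def ι : kk Fq →ₐ[Fq] LL Fq := IsAlgClosed.lift

noncomputable instance instAlgkL : Algebra (kk Fq) (LL Fq) := (ι Fq).toRingHom.toAlgebra

lemma algebraMap_kL (c : kk Fq) : algebraMap (kk Fq) (LL Fq) c = ι Fq c := rfl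

instance instTowerFqkL : IsScalarTower Fq (kk Fq) (LL Fq) :=
  IsScalarTower.of_algebraMap_eq fun c => by
    rw [algebraMap_kL, AlgHom.commutes]

/-- the variable in the big field -/
noncomputable def TL : LL Fq := algebraMap (RatFunc Fq) (LL Fq) RatFunc.X

lemma TL_trans : Transcendental (kk Fq) (TL Fq) := by
  have h1 : Transcendental Fq (TL Fq) := by
    unfold TL
    rw [transcendental_algebraMap_iff (algebraMap (RatFunc Fq) (LL Fq)).injective]
    exact RatFunc.transcendental_X
  exact h1.extendScalars (kk Fq)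

noncomputable def evL : (kk Fq)[X] →+* LL Fq := (aeval (TL Fq)).toRingHom

lemma evL_inj : Function.Injective (evL Fq) := transcendental_iff_injective.1 (TL_trans Fq)

noncomputable def jK : RatFunc (kk Fq) →+* LL Fq := IsFractionRing.lift (evL_inj Fq)

lemma jK_poly (f : (kk Fq)[X]) : jK Fq (algebraMap (kk Fq)[X] (RatFunc (kk Fq)) f) =
    aeval (TL Fq) f := IsFractionRing.lift_algebraMap (evL_inj Fq) f

lemma jK_C (c : kk Fq) : jK Fq (RatFunc.C c) = ι Fq c := by
  rw [← RatFunc.algebraMap_C, jK_poly, aeval_C]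
  rfl

lemma jK_X : jK Fq RatFunc.X = TL Fq := by
  rw [← RatFunc.algebraMap_X, jK_poly, aeval_X]

noncomputable instance instAlgKL : Algebra (RatFunc (kk Fq)) (LL Fq) := (jK Fq).toAlgebra

lemma algebraMap_KL : algebraMap (RatFunc (kk Fq)) (LL Fq) = jK Fq := rfl

noncomputable def mapFk : Fq[X] →+* RatFunc (kk Fq) :=
  (algebraMap (kk Fq)[X] (RatFunc (kk Fq))).comp (mapRingHom (algebraMap Fq (kk Fq)))

lemma mapFk_inj : Function.Injective (mapFk Fq) := by
  apply (RatFunc.algebraMap_injective (kk Fq)).comp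
  exact map_injective _ (algebraMap Fq (kk Fq)).injective

noncomputable def jF : RatFunc Fq →+* RatFunc (kk Fq) := IsFractionRing.lift (mapFk_inj Fq)

lemma jF_poly (f : Fq[X]) : jF Fq (algebraMap Fq[X] (RatFunc Fq) f) =
    algebraMap (kk Fq)[X] (RatFunc (kk Fq)) (f.map (algebraMap Fq (kk Fq))) :=
  IsFractionRing.lift_algebraMap (mapFk_inj Fq) f

lemma jF_X : jF Fq RatFunc.X = RatFunc.X := by
  rw [← RatFunc.algebraMap_X, jF_poly, map_X, RatFunc.algebraMap_X]

lemma jF_C (c : Fq) : jF Fq (RatFunc.C c) = RatFunc.C (algebraMap Fq (kk Fq) c) := by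
  rw [← RatFunc.algebraMap_C, jF_poly, map_C, RatFunc.algebraMap_C]

noncomputable instance instAlgFK : Algebra (RatFunc Fq) (RatFunc (kk Fq)) := (jF Fq).toAlgebra

lemma algebraMap_FK : algebraMap (RatFunc Fq) (RatFunc (kk Fq)) = jF Fq := rfl

lemma jK_jF (x : RatFunc Fq) : jK Fq (jF Fq x) = algebraMap (RatFunc Fq) (LL Fq) x := by
  have h : (jK Fq).comp (jF Fq) = algebraMap (RatFunc Fq) (LL Fq) := by
    apply IsLocalization.ringHom_ext (nonZeroDivisors Fq[X])
    apply Polynomial.ringHom_ext
    · intro c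
      simp only [RingHom.comp_apply]
      rw [RatFunc.algebraMap_C, jF_C, jK_C, AlgHom.commutes, ← RatFunc.algebraMap_eq_C,
        ← IsScalarTower.algebraMap_apply]
    · simp only [RingHom.comp_apply]
      rw [RatFunc.algebraMap_X, jF_X, jK_X]
      rfl
  exact RingHom.congr_fun h x

instance instTowerFKL : IsScalarTower (RatFunc Fq) (RatFunc (kk Fq)) (LL Fq) :=
  IsScalarTower.of_algebraMap_eq fun c => by
    rw [algebraMap_KL, algebraMap_FK, jK_jF]

section Sigma

variable {k : Type*} [Field k]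

/-- extend an endomorphism of the constants -/
noncomputable def sig (φ : k →+* k) : RatFunc k →+* RatFunc k :=
  IsFractionRing.lift (A := k[X]) (K := RatFunc k)
    (g := (algebraMap k[X] (RatFunc k)).comp (mapRingHom φ))
    ((RatFunc.algebraMap_injective k).comp (map_injective _ φ.injective))

lemma sig_poly (φ : k →+* k) (f : k[X]) : sig φ (algebraMap k[X] (RatFunc k) f) =
    algebraMap k[X] (RatFunc k) (f.map φ) := IsFractionRing.lift_algebraMap _ f

lemma sig_C (φ : k →+* k) (c : k) : sig φ (RatFunc.C c) = RatFunc.C (φ c) := by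
  rw [← RatFunc.algebraMap_C, sig_poly, map_C, RatFunc.algebraMap_C]

lemma sig_X (φ : k →+* k) : sig φ RatFunc.X = RatFunc.X := by
  rw [← RatFunc.algebraMap_X, sig_poly, map_X, RatFunc.algebraMap_X]

lemma sig_inf (φ : k →+* k) (x : RatFunc k) : ratOrd none (sig φ x) = ratOrd none x := by
  by_cases hx : x = 0
  · rw [hx, map_zero]
  obtain ⟨a, b, ha, hb, rfl⟩ := exists_mk' hx
  have h1 := natDegree_map_eq_of_injective φ.injective a
  have h2 := natDegree_map_eq_of_injective φ.injective b
  simp only [ratOrd]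
  rw [map_div₀, sig_poly, sig_poly, intDegree_mk _ _ ((Polynomial.map_ne_zero_iff φ.injective).2 ha)
    ((Polynomial.map_ne_zero_iff φ.injective).2 hb), intDegree_mk _ _ ha hb, h1, h2]

lemma sig_D (φ : k →+* k) (x : RatFunc k) : ratD k (sig φ x) = sig φ (ratD k x) := by
  obtain ⟨a, b, hb, rfl⟩ := exists_mk x
  have hb' : b.map φ ≠ 0 := (Polynomial.map_ne_zero_iff φ.injective).2 hb
  rw [map_div₀, sig_poly, sig_poly, ratD_mk _ _ hb', ratD_mk _ _ hb, map_div₀, sig_poly, sig_poly]
  congr 2
  · rw [Polynomial.map_sub, Polynomial.map_mul, Polynomial.map_mul, derivative_map, derivative_map]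
  · rw [Polynomial.map_pow]

end Sigma

end Pool.Agent.TH923.Y0
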