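import Mathlib
import Pool.Agent.TH923.Y0.Emb

/-!
# Conjugate roots over a finite field
-/

set_option autoImplicit false

namespace Pool.Agent.TH923.Y0

open Polynomial

section

variable {Fq : Type} [Field Fq] [Finite Fq] {k : Type*} [Field k] [Algebra Fq k] {q : ℕ}

lemma pow_q_Fq (hc : Nat.card Fq = q) (c : Fq) : c ^ q = c := by
  have := Fintype.ofFinite Fq
  rw [Nat.card_eq_fintype_card] at hc
  rw [← hc]
  exact FiniteField.pow_card c

lemma q_form {p : ℕ} [CharP Fq p] (hc : Nat.card Fq = q) : p.Prime ∧ ∃ f : ℕ, f ≠ 0 ∧ q = p ^ f := by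
  have := Fintype.ofFinite Fq
  rw [Nat.card_eq_fintype_card] at hc
  obtain ⟨n, hp, hn⟩ := FiniteField.card Fq p
  exact ⟨hp, n, n.pos.ne', by rw [← hc, hn]⟩

/-- the `q`-power endomorphism of `k` -/
noncomputable def frobq (hc : Nat.card Fq = q) (k : Type*) [Field k] [Algebra Fq k] : k →+* k where
  toFun x := x ^ q
  map_one' := one_pow q
  map_mul' x y := mul_pow x y q
  map_zero' := by
    obtain ⟨p, hp⟩ := CharP.exists Fq
    obtain ⟨h1, f, hf, h2⟩ := q_form (p := p) hc
    exact zero_pow (by rw [h2]; exact pow_ne_zero _ h1.ne_zero)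
  map_add' x y := by
    obtain ⟨p, hp⟩ := CharP.exists Fq
    obtain ⟨h1, f, hf, h2⟩ := q_form (p := p) hc
    have : Fact p.Prime := ⟨h1⟩
    have : CharP k p := charP_of_injective_algebraMap (algebraMap Fq k).injective p
    show (x + y) ^ q = x ^ q + y ^ q
    rw [h2]
    exact add_pow_char_pow x y p f

lemma frobq_apply (hc : Nat.card Fq = q) (x : k) : frobq hc k x = x ^ q := rfl

lemma frobq_alg (hc : Nat.card Fq = q) (c : Fq) : frobq hc k (algebraMap Fq k c) =
    algebraMap Fq k c := by
  rw [frobq_apply, ← map_pow, pow_q_Fq hc]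

/-- Frobenius and evaluation -/
lemma aeval_pow_q (hc : Nat.card Fq = q) (a : Fq[X]) (x : k) :
    (aeval x a) ^ q = aeval (x ^ q) a := by
  rw [← frobq_apply hc, ← frobq_apply hc]
  rw [aeval_def, aeval_def, hom_eval₂]
  congr 1
  ext c
  simp [frobq_apply, ← map_pow, pow_q_Fq hc]

lemma aeval_pow_q_pow (hc : Nat.card Fq = q) (a : Fq[X]) (x : k) (n : ℕ) :
    (aeval x a) ^ q ^ n = aeval (x ^ q ^ n) a := by
  induction n with
  | zero => simp
  | succ n ih => rw [pow_succ, pow_mul, ih, aeval_pow_q hc, pow_mul]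

variable {P : Fq[X]} {N : ℕ} {θ : k}

lemma pow_qN (hc : Nat.card Fq = q) (hPi : Irreducible P) (hPm : P.Monic)
    (hPN : P.natDegree = N) (hθ : aeval θ P = 0) : θ ^ q ^ N = θ := by
  have hint : IsIntegral Fq θ := ⟨P, hPm, by rwa [← aeval_def]⟩
  have hmin : minpoly Fq θ = P := (minpoly.eq_of_irreducible_of_monic hPi hθ hPm).symm
  have hfin : FiniteDimensional Fq (IntermediateField.adjoin Fq {θ}) :=
    IntermediateField.adjoin.finiteDimensional hint
  have hrank : Module.finrank Fq (IntermediateField.adjoin Fq {θ}) = N := by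
    rw [IntermediateField.adjoin.finrank hint, hmin, hPN]
  have hfinite : Finite (IntermediateField.adjoin Fq {θ}) := Module.finite_of_finite Fq
  have := Fintype.ofFinite (IntermediateField.adjoin Fq {θ})
  have := Fintype.ofFinite Fq
  have h1 := FiniteField.pow_card (IntermediateField.AdjoinSimple.gen Fq θ)
  have h2 : Fintype.card (IntermediateField.adjoin Fq {θ}) = q ^ N := by
    rw [Module.card_eq_pow_finrank (K := Fq), hrank, ← Nat.card_eq_fintype_card, hc]
  rw [h2] at h1
  have h3 := congrArg (algebraMap (IntermediateField.adjoin Fq {θ}) k) h1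
  rwa [map_pow, IntermediateField.AdjoinSimple.algebraMap_gen] at h3

lemma pow_qd_ne (hc : Nat.card Fq = q) (hPi : Irreducible P) (hPm : P.Monic)
    (hPN : P.natDegree = N) (hθ : aeval θ P = 0) {d : ℕ} (hd0 : 0 < d) (hd : d < N) :
    θ ^ q ^ d ≠ θ := by
  intro hcon
  obtain ⟨p, hp⟩ := CharP.exists Fq
  obtain ⟨h1, f, hf, h2⟩ := q_form (p := p) hc
  have hq1 : 1 < q := by
    rw [h2]
    exact Nat.one_lt_pow hf h1.one_lt
  have hint : IsIntegral Fq θ := ⟨P, hPm, by rwa [← aeval_def]⟩
  have hmin : minpoly Fq θ = P := (minpoly.eq_of_irreducible_of_monic hPi hθ hPm).symm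
  have hfin : FiniteDimensional Fq (IntermediateField.adjoin Fq {θ}) :=
    IntermediateField.adjoin.finiteDimensional hint
  have hrank : Module.finrank Fq (IntermediateField.adjoin Fq {θ}) = N := by
    rw [IntermediateField.adjoin.finrank hint, hmin, hPN]
  have hfinite : Finite (IntermediateField.adjoin Fq {θ}) := Module.finite_of_finite Fq
  have := Fintype.ofFinite (IntermediateField.adjoin Fq {θ})
  have := Fintype.ofFinite Fq
  have h2 : Fintype.card (IntermediateField.adjoin Fq {θ}) = q ^ N := by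
    rw [Module.card_eq_pow_finrank (K := Fq), hrank, ← Nat.card_eq_fintype_card, hc]
  have h3 : ∀ x : IntermediateField.adjoin Fq {θ}, x ^ q ^ d = x := by
    intro x
    have hx : (x : k) ∈ IntermediateField.adjoin Fq {θ} := x.2
    have hx2 : (x : k) ∈ (IntermediateField.adjoin Fq {θ}).toSubalgebra := hx
    rw [IntermediateField.adjoin_simple_toSubalgebra_of_isAlgebraic hint.isAlgebraic,
      Algebra.adjoin_singleton_eq_range_aeval] at hx2
    obtain ⟨a, ha⟩ := hx2
    have ha' : aeval θ a = (x : k) := ha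
    apply Subtype.ext
    show (x : k) ^ q ^ d = x
    rw [← ha', aeval_pow_q_pow hc, hcon]
  have hX : (X ^ q ^ d - X : (IntermediateField.adjoin Fq {θ})[X]) ≠ 0 :=
    FiniteField.X_pow_card_pow_sub_X_ne_zero _ hd0.ne' hq1
  have h4 := card_roots' (X ^ q ^ d - X : (IntermediateField.adjoin Fq {θ})[X])
  rw [FiniteField.X_pow_card_pow_sub_X_natDegree_eq _ hd0.ne' hq1] at h4
  classical
  have h5 : (Finset.univ : Finset (IntermediateField.adjoin Fq {θ})) ⊆
      (X ^ q ^ d - X : (IntermediateField.adjoin Fq {θ})[X]).roots.toFinset := by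
    intro x _
    rw [Multiset.mem_toFinset, mem_roots hX, IsRoot.def, eval_sub, eval_pow, eval_X, h3, sub_self]
  have h6 := (Finset.card_le_card h5).trans (Multiset.toFinset_card_le _)
  rw [Finset.card_univ, h2] at h6
  have h7 : q ^ d < q ^ N := Nat.pow_lt_pow_right hq1 hd
  omega

/-- the sequence of conjugates -/
def th (q : ℕ) (θ : k) (i : ℕ) : k := θ ^ q ^ i

omit [Algebra Fq k] in
lemma th_succ (θ : k) (i : ℕ) : th q θ (i + 1) = th q θ i ^ q := by
  unfold th
  rw [pow_succ, pow_mul]

lemma th_per (hc : Nat.card Fq = q) (hPi : Irreducible P) (hPm : P.Monic)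
    (hPN : P.natDegree = N) (hθ : aeval θ P = 0) (i : ℕ) : th q θ (i + N) = th q θ i := by
  unfold th
  rw [add_comm, pow_add, pow_mul, pow_qN hc hPi hPm hPN hθ]

lemma th_inj (hc : Nat.card Fq = q) (hPi : Irreducible P) (hPm : P.Monic)
    (hPN : P.natDegree = N) (hθ : aeval θ P = 0) (i j : ℕ) (h : th q θ i = th q θ j) :
    i % N = j % N := by
  have hN : 0 < N := by
    rw [← hPN]
    exact hPi.natDegree_pos
  have hper : ∀ n i : ℕ, th q θ (i + n * N) = th q θ i := by
    intro n
    induction n with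
    | zero => simp
    | succ n ih =>
      intro i
      rw [Nat.succ_mul, ← add_assoc, th_per hc hPi hPm hPN hθ, ih]
  have hmod : ∀ i, th q θ (i % N) = th q θ i := by
    intro i
    have := hper (i / N) (i % N)
    rw [← this]
    congr 1
    rw [mul_comm]
    exact Nat.mod_add_div i N
  have key : ∀ a b : ℕ, a < b → b < N → th q θ a ≠ th q θ b := by
    intro a b hab hb h1
    unfold th at h1
    have h2 : b = (b - a) + a := by omega
    rw [h2, pow_add, pow_mul] at h1
    -- injectivity of Frobenius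
    have hinj : Function.Injective (fun x : k => x ^ q ^ a) := by
      have : ∀ a, Function.Injective (fun x : k => x ^ q ^ a) := by
        intro a
        induction a with
        | zero => intro x y hxy; simpa using hxy
        | succ a ih =>
          intro x y hxy
          apply ih
          have h3 : frobq hc k (x ^ q ^ a) = frobq hc k (y ^ q ^ a) := by
            rw [frobq_apply, frobq_apply, ← pow_mul, ← pow_mul, ← pow_succ]
            exact hxy
          exact (frobq hc k).injective h3
      exact this a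
    have h3 := hinj h1
    exact pow_qd_ne hc hPi hPm hPN hθ (by omega) (by omega) h3.symm
  rw [← hmod i, ← hmod j] at h
  by_contra hne
  rcases Nat.lt_or_gt_of_ne hne with h1 | h1
  · exact key _ _ h1 (Nat.mod_lt _ hN) h
  · exact key _ _ h1 (Nat.mod_lt _ hN) h.symm

lemma aeval_th (hc : Nat.card Fq = q) (a : Fq[X]) (θ : k) (i : ℕ) :
    aeval (th q θ i) a = (aeval θ a) ^ q ^ i := (aeval_pow_q_pow hc a θ i).symm

lemma dvd_of_aeval (hPi : Irreducible P) (hPm : P.Monic) (hθ : aeval θ P = 0) {a : Fq[X]}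
    (ha : aeval θ a = 0) : P ∣ a := by
  have hmin : minpoly Fq θ = P := (minpoly.eq_of_irreducible_of_monic hPi hθ hPm).symm
  rw [← hmin]
  exact minpoly.dvd Fq θ ha

end

end Pool.Agent.TH923.Y0
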