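import Mathlib
import Pool.Agent.TH923.Y0.Roots

/-!
# Descent of a rational subgroup to functional equations
-/

set_option autoImplicit false

namespace Pool.Agent.TH923.Y0

open Polynomial

section

variable {Fq : Type} [Field Fq] [Finite Fq] {q : ℕ}

/-- the action of `T` -/
noncomputable def phi (hc : Nat.card Fq = q) (g Δ : RatFunc Fq) : LL Fq →ₗ[Fq] LL Fq where
  toFun y := TL Fq * y + algebraMap (RatFunc Fq) (LL Fq) g * y ^ q +
    algebraMap (RatFunc Fq) (LL Fq) Δ * y ^ (q ^ 2)
  map_add' x y := by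
    have h1 : (x + y) ^ q = x ^ q + y ^ q := by
      have := (frobq hc (LL Fq)).map_add x y
      simpa only [frobq_apply] using this
    have h2 : (x + y) ^ (q ^ 2) = x ^ (q ^ 2) + y ^ (q ^ 2) := by
      have := (frobq hc (LL Fq)).map_add (x ^ q) (y ^ q)
      simp only [frobq_apply, ← pow_mul, ← pow_two] at this
      rw [← this, ← h1, ← pow_mul, pow_two]
    rw [h1, h2]
    ring
  map_smul' c x := by
    have h1 : (c • x) ^ q = c • x ^ q := by
      rw [Algebra.smul_def, mul_pow, ← map_pow, pow_q_Fq hc, ← Algebra.smul_def]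
    have h2 : (c • x) ^ (q ^ 2) = c • x ^ (q ^ 2) := by
      rw [pow_two, pow_mul, h1, Algebra.smul_def, mul_pow, ← map_pow, pow_q_Fq hc, ← pow_mul,
        ← Algebra.smul_def]
    rw [h1, h2]
    simp only [Algebra.smul_def, RingHom.id_apply]
    ring

lemma phi_apply (hc : Nat.card Fq = q) (g Δ : RatFunc Fq) (y : LL Fq) :
    phi hc g Δ y = TL Fq * y + algebraMap (RatFunc Fq) (LL Fq) g * y ^ q +
    algebraMap (RatFunc Fq) (LL Fq) Δ * y ^ (q ^ 2) := rfl

variable (hc : Nat.card Fq = q) (g Δ : RatFunc Fq) (h0 : LL Fq)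

/-- the orbit -/
noncomputable def HH (j : ℕ) : LL Fq := ((phi hc g Δ) ^ j) h0

lemma HH_succ (j : ℕ) : HH hc g Δ h0 (j + 1) = phi hc g Δ (HH hc g Δ h0 j) := by
  unfold HH
  rw [pow_succ']
  rfl

/-- evaluation at the orbit with constant coefficients -/
noncomputable def ev : (kk Fq)[X] →ₗ[kk Fq] LL Fq :=
  Polynomial.lsum (fun j => LinearMap.toSpanSingleton (kk Fq) (LL Fq) (HH hc g Δ h0 j))

lemma ev_monomial (j : ℕ) (c : kk Fq) : ev hc g Δ h0 (monomial j c) =
    ι Fq c * HH hc g Δ h0 j := by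
  unfold ev
  rw [lsum_apply, sum_monomial_index _ _ (by simp)]
  rw [LinearMap.toSpanSingleton_apply, Algebra.smul_def, algebraMap_kL]

lemma ev_C_mul (c : kk Fq) (f : (kk Fq)[X]) : ev hc g Δ h0 (C c * f) =
    ι Fq c * ev hc g Δ h0 f := by
  rw [← smul_eq_C_mul, map_smul, Algebra.smul_def, algebraMap_kL]

/-- base change of polynomials -/
noncomputable def bc (a : Fq[X]) : (kk Fq)[X] := a.map (algebraMap Fq (kk Fq))

lemma ev_mul_monomial (a : Fq[X]) (m : ℕ) (c : kk Fq) :
    ev hc g Δ h0 (bc a * monomial m c) = ι Fq c * (aeval (phi hc g Δ) a) (HH hc g Δ h0 m) := by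
  induction a using Polynomial.induction_on' with
  | add a b ha hb =>
    have : bc (a + b) = bc a + bc b := Polynomial.map_add _
    rw [this, add_mul, map_add, ha, hb, map_add, LinearMap.add_apply]
    ring
  | monomial j b =>
    have : bc (monomial j b) = monomial j (algebraMap Fq (kk Fq) b) := map_monomial _
    rw [this, monomial_mul_monomial, ev_monomial, aeval_monomial]
    have h2 : (algebraMap Fq (Module.End Fq (LL Fq)) b * phi hc g Δ ^ j) (HH hc g Δ h0 m) =
        b • ((phi hc g Δ ^ j) (HH hc g Δ h0 m)) := by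
      rw [Module.End.mul_apply, Module.algebraMap_end_apply]
    rw [h2]
    unfold HH
    rw [← Module.End.mul_apply, ← pow_add, Algebra.smul_def, map_mul, AlgHom.commutes]
    ring

variable {P : Fq[X]}

lemma aeval_HH (a : Fq[X]) (m : ℕ) : (aeval (phi hc g Δ) a) (HH hc g Δ h0 m) =
    ((phi hc g Δ) ^ m) ((aeval (phi hc g Δ) a) h0) := by
  unfold HH
  rw [← Module.End.mul_apply, ← Module.End.mul_apply]
  congr 1
  have : (phi hc g Δ) ^ m = aeval (phi hc g Δ) ((X : Fq[X]) ^ m) := by
    rw [map_pow, aeval_X]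
  rw [this, ← map_mul, ← map_mul, mul_comm]

lemma ev_P_mul (hP : (aeval (phi hc g Δ) P) h0 = 0) (f : (kk Fq)[X]) :
    ev hc g Δ h0 (bc P * f) = 0 := by
  induction f using Polynomial.induction_on' with
  | add a b ha hb => rw [mul_add, map_add, ha, hb, add_zero]
  | monomial j b => rw [ev_mul_monomial, aeval_HH, hP, map_zero, mul_zero]

lemma ev_bc (a : Fq[X]) : ev hc g Δ h0 (bc a) = (aeval (phi hc g Δ) a) h0 := by
  have := ev_mul_monomial hc g Δ h0 a 0 1
  rw [monomial_zero_left, C_1, mul_one, map_one (ι Fq), one_mul] at this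
  rw [this]
  rfl

/-- Frobenius on coefficients -/
noncomputable def fr : kk Fq →+* kk Fq := frobq hc (kk Fq)

lemma fr_apply (c : kk Fq) : fr hc c = c ^ q := rfl

lemma ev_X_mul (f : (kk Fq)[X]) :
    ev hc g Δ h0 (X * (f.map (fr hc)).map (fr hc)) =
      TL Fq * ev hc g Δ h0 ((f.map (fr hc)).map (fr hc)) +
      algebraMap (RatFunc Fq) (LL Fq) g * (ev hc g Δ h0 (f.map (fr hc))) ^ q +
      algebraMap (RatFunc Fq) (LL Fq) Δ * (ev hc g Δ h0 f) ^ (q ^ 2) := by
  induction f using Polynomial.induction_on' with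
  | add a b ha hb =>
    have h1 : ∀ x y : LL Fq, (x + y) ^ q = x ^ q + y ^ q := by
      intro x y
      have := (frobq hc (LL Fq)).map_add x y
      simpa only [frobq_apply] using this
    have h2 : ∀ x y : LL Fq, (x + y) ^ (q ^ 2) = x ^ (q ^ 2) + y ^ (q ^ 2) := by
      intro x y
      rw [pow_two, pow_mul, pow_mul, pow_mul, h1, h1]
    simp only [Polynomial.map_add, mul_add, map_add, ha, hb, h1, h2]
    ring
  | monomial j b =>
    simp only [map_monomial, X_mul_monomial, ev_monomial, HH_succ, phi_apply, fr_apply, map_pow,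
      mul_pow]
    rw [← pow_mul, ← pow_two]
    ring

end

end Pool.Agent.TH923.Y0
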