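import Mathlib
import Pool.Agent.TH923.Y0.Desc

/-!
# Eigencomponents
-/

set_option autoImplicit false

namespace Pool.Agent.TH923.Y0

open Polynomial

section

variable {Fq : Type} [Field Fq] [Finite Fq] {q N : ℕ}
variable (hc : Nat.card Fq = q) (g Δ : RatFunc Fq) (h0 : LL Fq)
variable (P : Fq[X]) (θ : kk Fq)

/-- the interpolation polynomials -/
noncomputable def La (q : ℕ) (i : ℕ) : (kk Fq)[X] :=
  C (((derivative (bc P)).eval (th q θ i))⁻¹) * (bc P /ₘ (X - C (th q θ i)))

/-- the eigencomponents -/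
noncomputable def xx (i : ℕ) : LL Fq := ev hc g Δ h0 (La P θ q i)

lemma bc_map (a : Fq[X]) : (bc a).map (fr hc) = bc a := by
  unfold bc
  rw [Polynomial.map_map]
  congr 1
  ext c
  simp only [RingHom.comp_apply]
  exact frobq_alg hc c

lemma La_map (i : ℕ) : (La P θ q i).map (fr hc) = La P θ q (i + 1) := by
  have h1 : fr hc (th q θ i) = th q θ (i + 1) := by rw [th_succ]; rfl
  have h2 : fr hc ((derivative (bc P)).eval (th q θ i)) =
      (derivative (bc P)).eval (th q θ (i + 1)) := by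
    rw [← h1, ← eval_map_apply, ← derivative_map, bc_map]
  unfold La
  rw [Polynomial.map_mul, map_C, map_inv₀, h2, map_divByMonic _ (monic_X_sub_C _), bc_map,
    Polynomial.map_sub, map_X, map_C, h1]

lemma eval_bc (a : Fq[X]) (x : kk Fq) : (bc a).eval x = aeval x a := by
  unfold bc
  rw [eval_map_algebraMap]

variable {P θ}

include hc in
lemma root_th (hθ : aeval θ P = 0) (i : ℕ) : (bc P).IsRoot (th q θ i) := by
  rw [IsRoot.def, eval_bc, aeval_th hc, hθ, zero_pow]
  obtain ⟨p, hp⟩ := CharP.exists Fq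
  obtain ⟨h1, f, hf, h2⟩ := q_form (p := p) hc
  rw [h2]
  exact pow_ne_zero _ (pow_ne_zero _ h1.ne_zero)

include hc in
lemma mul_quot (hθ : aeval θ P = 0) (i : ℕ) :
    (X - C (th q θ i)) * (bc P /ₘ (X - C (th q θ i))) = bc P :=
  mul_divByMonic_eq_iff_isRoot.2 (root_th hc hθ i)

include hc in
lemma deriv_ne (hPi : Irreducible P) (hPm : P.Monic) (hθ : aeval θ P = 0) (i : ℕ) :
    (derivative (bc P)).eval (th q θ i) ≠ 0 := by
  have hsep : P.Separable := PerfectField.separable_of_irreducible hPi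
  have h1 : (bc P).Separable := hsep.map
  have h2 := h1.aeval_derivative_ne_zero (x := th q θ i) (by
    rw [coe_aeval_eq_eval]
    exact root_th hc hθ i)
  rwa [coe_aeval_eq_eval] at h2

/-- evaluation on the eigenspaces -/
lemma ev_mul_La (hPh : (aeval (phi hc g Δ) P) h0 = 0) (hθ : aeval θ P = 0)
    (a : (kk Fq)[X]) (i : ℕ) :
    ev hc g Δ h0 (a * La P θ q i) = ι Fq (a.eval (th q θ i)) * xx hc g Δ h0 P θ i := by
  obtain ⟨b, hb⟩ := X_sub_C_dvd_sub_C_eval (p := a) (a := th q θ i)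
  have h1 : a * La P θ q i = C (a.eval (th q θ i)) * La P θ q i +
      bc P * (b * C (((derivative (bc P)).eval (th q θ i))⁻¹)) := by
    have h2 : a = C (a.eval (th q θ i)) + (X - C (th q θ i)) * b := by rw [← hb]; ring
    have h3 := mul_quot (q := q) hc hθ i
    unfold La
    linear_combination (C (((derivative (bc P)).eval (th q θ i))⁻¹) *
      (bc P /ₘ (X - C (th q θ i)))) * h2 +
      (b * C (((derivative (bc P)).eval (th q θ i))⁻¹)) * h3
  rw [h1, map_add, ev_C_mul, ev_P_mul _ _ _ _ hPh, add_zero]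
  rfl

lemma xx_rec (hPh : (aeval (phi hc g Δ) P) h0 = 0) (hθ : aeval θ P = 0) (i : ℕ) :
    ι Fq (th q θ (i + 2)) * xx hc g Δ h0 P θ (i + 2) =
      TL Fq * xx hc g Δ h0 P θ (i + 2) +
      algebraMap (RatFunc Fq) (LL Fq) g * (xx hc g Δ h0 P θ (i + 1)) ^ q +
      algebraMap (RatFunc Fq) (LL Fq) Δ * (xx hc g Δ h0 P θ i) ^ (q ^ 2) := by
  have h1 := ev_X_mul hc g Δ h0 (La P θ q i)
  rw [La_map, La_map] at h1
  have h2 := ev_mul_La hc g Δ h0 hPh hθ X (i + 2)
  rw [eval_X] at h2
  rw [← h2]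
  exact h1

include hc in
lemma La_eval_self (hPi : Irreducible P) (hPm : P.Monic) (hθ : aeval θ P = 0) (i : ℕ) :
    (La P θ q i).eval (th q θ i) = 1 := by
  have h1 := congrArg derivative (mul_quot (q := q) hc hθ i)
  rw [derivative_mul, derivative_sub, derivative_X, derivative_C, sub_zero, one_mul] at h1
  have h2 := congrArg (eval (th q θ i)) h1
  rw [eval_add, eval_mul, eval_sub, eval_X, eval_C, sub_self, zero_mul, add_zero] at h2
  unfold La
  rw [eval_mul, eval_C, h2, inv_mul_cancel₀ (deriv_ne hc hPi hPm hθ i)]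

include hc in
lemma La_eval_ne (hθ : aeval θ P = 0) {i j : ℕ} (hij : th q θ i ≠ th q θ j) :
    (La P θ q i).eval (th q θ j) = 0 := by
  have h2 := congrArg (eval (th q θ j)) (mul_quot (q := q) hc hθ i)
  rw [root_th hc hθ j, eval_mul, eval_sub, eval_X, eval_C] at h2
  unfold La
  rw [eval_mul, (mul_eq_zero.1 h2).resolve_left (sub_ne_zero.2 hij.symm), mul_zero]

include hc in
lemma sum_La (hPi : Irreducible P) (hPm : P.Monic) (hPN : P.natDegree = N)
    (hθ : aeval θ P = 0) : ∑ i ∈ Finset.range N, La P θ q i = 1 := by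
  have hN : 0 < N := by
    rw [← hPN]
    exact hPi.natDegree_pos
  have hdeg : ∀ i, (La P θ q i).natDegree < N := by
    intro i
    have h1 : (La P θ q i).natDegree ≤ (bc P /ₘ (X - C (th q θ i))).natDegree :=
      natDegree_C_mul_le _ _
    have h2 : (bc P).natDegree = N := by
      unfold bc
      rw [natDegree_map, hPN]
    rw [natDegree_divByMonic _ (monic_X_sub_C _), h2, natDegree_X_sub_C] at h1
    omega
  have hinj : Function.Injective (fun i : Fin N => th q θ i) := by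
    intro a b hab
    have := th_inj hc hPi hPm hPN hθ a b hab
    rw [Nat.mod_eq_of_lt a.2, Nat.mod_eq_of_lt b.2] at this
    exact Fin.ext this
  have h := eq_zero_of_natDegree_lt_card_of_eval_eq_zero
    (∑ i ∈ Finset.range N, La P θ q i - 1) hinj (by
      intro j
      rw [eval_sub, eval_one, eval_finsetSum, Finset.sum_eq_single (j : ℕ),
        La_eval_self hc hPi hPm hθ, sub_self]
      · intro i hi hij
        apply La_eval_ne hc hθ
        intro h
        apply hij
        have := th_inj hc hPi hPm hPN hθ i j h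
        rwa [Nat.mod_eq_of_lt (Finset.mem_range.1 hi), Nat.mod_eq_of_lt j.2] at this
      · intro h
        exact absurd (Finset.mem_range.2 j.2) h) (by
      rw [Fintype.card_fin]
      refine lt_of_le_of_lt (natDegree_sub_le _ _) (max_lt ?_ (by simpa using hN))
      refine lt_of_le_of_lt (natDegree_sum_le _ _) ?_
      rw [Finset.fold_max_lt]
      exact ⟨hN, fun i _ => hdeg i⟩)
  exact sub_eq_zero.1 h

lemma sum_xx (hPi : Irreducible P) (hPm : P.Monic) (hPN : P.natDegree = N)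
    (hθ : aeval θ P = 0) : ∑ i ∈ Finset.range N, xx hc g Δ h0 P θ i = h0 := by
  unfold xx
  rw [← map_sum, sum_La hc hPi hPm hPN hθ]
  have := ev_monomial hc g Δ h0 0 1
  rw [monomial_zero_left, C_1, map_one (ι Fq), one_mul] at this
  rw [this]
  rfl

lemma xx_per (hPi : Irreducible P) (hPm : P.Monic) (hPN : P.natDegree = N)
    (hθ : aeval θ P = 0) (i : ℕ) : xx hc g Δ h0 P θ (i + N) = xx hc g Δ h0 P θ i := by
  unfold xx La
  rw [th_per hc hPi hPm hPN hθ]

/-- Galois action -/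
lemma gal_ev (τ : LL Fq ≃ₐ[RatFunc Fq] LL Fq) (ψ : kk Fq →+* kk Fq)
    (hτ : ∀ c, τ (ι Fq c) = ι Fq (ψ c)) (a : Fq[X])
    (ha : τ h0 = (aeval (phi hc g Δ) a) h0) (f : (kk Fq)[X]) :
    τ (ev hc g Δ h0 f) = ev hc g Δ h0 (bc a * f.map ψ) := by
  have hphi : ∀ y, τ (phi hc g Δ y) = phi hc g Δ (τ y) := by
    intro y
    have hT : τ (TL Fq) = TL Fq := τ.commutes _
    rw [phi_apply, phi_apply, map_add, map_add, map_mul, map_mul, map_mul, map_pow, map_pow,
      τ.commutes, τ.commutes, hT]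
  have hH : ∀ j, τ (HH hc g Δ h0 j) = (aeval (phi hc g Δ) a) (HH hc g Δ h0 j) := by
    intro j
    induction j with
    | zero =>
      have : HH hc g Δ h0 0 = h0 := rfl
      rw [this, ha]
    | succ j ih =>
      rw [HH_succ, hphi, ih, ← Module.End.mul_apply, ← Module.End.mul_apply]
      congr 1
      calc phi hc g Δ * aeval (phi hc g Δ) a
          = aeval (phi hc g Δ) (X : Fq[X]) * aeval (phi hc g Δ) a := by rw [aeval_X]
        _ = aeval (phi hc g Δ) ((X : Fq[X]) * a) := (map_mul _ _ _).symm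
        _ = aeval (phi hc g Δ) (a * (X : Fq[X])) := by rw [mul_comm]
        _ = aeval (phi hc g Δ) a * aeval (phi hc g Δ) (X : Fq[X]) := map_mul _ _ _
        _ = aeval (phi hc g Δ) a * phi hc g Δ := by rw [aeval_X]
  induction f using Polynomial.induction_on' with
  | add f1 f2 h1 h2 =>
    rw [map_add, map_add, h1, h2, Polynomial.map_add, mul_add, map_add]
  | monomial j b =>
    rw [ev_monomial, map_mul, hτ, hH, map_monomial, ev_mul_monomial]

lemma gal_xx (hPh : (aeval (phi hc g Δ) P) h0 = 0) (hθ : aeval θ P = 0)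
    (τ : LL Fq ≃ₐ[RatFunc Fq] LL Fq) (ψ : kk Fq →+* kk Fq)
    (hτ : ∀ c, τ (ι Fq c) = ι Fq (ψ c)) (a : Fq[X])
    (ha : τ h0 = (aeval (phi hc g Δ) a) h0) (i i' : ℕ) (hi : (La P θ q i).map ψ = La P θ q i') :
    τ (xx hc g Δ h0 P θ i) = ι Fq (aeval (th q θ i') a) * xx hc g Δ h0 P θ i' := by
  have h1 := gal_ev hc g Δ h0 τ ψ hτ a ha (La P θ q i)
  rw [hi, ev_mul_La _ _ _ _ hPh hθ, eval_bc] at h1
  exact h1

lemma a_ne (hPi : Irreducible P) (hPm : P.Monic) (hPh : (aeval (phi hc g Δ) P) h0 = 0)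
    (hθ : aeval θ P = 0) (hh : h0 ≠ 0)
    (τ : LL Fq ≃ₐ[RatFunc Fq] LL Fq) (a : Fq[X]) (ha : τ h0 = (aeval (phi hc g Δ) a) h0) (i : ℕ) :
    aeval (th q θ i) a ≠ 0 := by
  intro h
  rw [aeval_th hc] at h
  have h1 : aeval θ a = 0 := by
    rw [pow_eq_zero_iff] at h
    · exact h
    · obtain ⟨p, hp⟩ := CharP.exists Fq
      obtain ⟨h1, f, hf, h2⟩ := q_form (p := p) hc
      rw [h2]
      exact pow_ne_zero _ (pow_ne_zero _ h1.ne_zero)
  obtain ⟨b, hb⟩ := dvd_of_aeval hPi hPm hθ h1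
  rw [hb, mul_comm, map_mul, Module.End.mul_apply, hPh, map_zero] at ha
  exact hh ((map_eq_zero τ).1 ha)

end

end Pool.Agent.TH923.Y0
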