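import Mathlib
import Pool.Agent.TH923.Y0.Desc2
import Pool.Agent.TH923.Y0.Seq

/-!
# The descended system
-/

set_option autoImplicit false

namespace Pool.Agent.TH923.Y0

open Polynomial

/-- an element fixed by all automorphisms is purely inseparable -/
lemma pinsep_of_fixed {K L : Type*} [Field K] [Field L] [Algebra K L] [IsAlgClosed L]
    [Algebra.IsAlgebraic K L] (p : ℕ) [ExpChar K p] (y : L) (h : ∀ τ : L ≃ₐ[K] L, τ y = y) :
    ∃ n : ℕ, y ^ p ^ n ∈ (algebraMap K L).range := by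
  classical
  rw [← minpoly.natSepDegree_eq_one_iff_pow_mem p]
  rw [natSepDegree_eq_of_isAlgClosed L]
  have halg : IsAlgebraic K y := Algebra.IsAlgebraic.isAlgebraic y
  have hclos : IsAlgClosure K L := ⟨inferInstance, inferInstance⟩
  have hn : Normal K L := IsAlgClosure.normal K L
  have hne : minpoly K y ≠ 0 := minpoly.ne_zero halg.isIntegral
  have h1 : ((minpoly K y).aroots L).toFinset = {y} := by
    ext z
    rw [Multiset.mem_toFinset, mem_aroots, Finset.mem_singleton]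
    constructor
    · rintro ⟨-, hz⟩
      obtain ⟨σ, hσ⟩ := minpoly.exists_algEquiv_of_root' halg hz
      rw [← hσ, h]
    · rintro rfl
      exact ⟨hne, minpoly.aeval K z⟩
  rw [h1, Finset.card_singleton]

section

variable {Fq : Type} [Field Fq] [Finite Fq] {q N : ℕ}
variable (hc : Nat.card Fq = q) (g Δ : RatFunc Fq) (h0 : LL Fq)
variable {P : Fq[X]} {θ : kk Fq}

/-- Frobenius on the coefficients of rational functions -/
noncomputable def sigK : RatFunc (kk Fq) →+* RatFunc (kk Fq) := sig (fr hc)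

lemma sigK_jF (x : RatFunc Fq) : sigK hc (jF Fq x) = jF Fq x := by
  have h : (sigK hc).comp (jF Fq) = jF Fq := by
    apply IsLocalization.ringHom_ext (nonZeroDivisors Fq[X])
    apply Polynomial.ringHom_ext
    · intro c
      simp only [RingHom.comp_apply]
      rw [RatFunc.algebraMap_C, jF_C]
      unfold sigK
      rw [sig_C]
      congr 1
      exact frobq_alg hc c
    · simp only [RingHom.comp_apply]
      rw [RatFunc.algebraMap_X, jF_X]
      unfold sigK
      rw [sig_X]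
  exact RingHom.congr_fun h x

noncomputable def sigA : RatFunc (kk Fq) →ₐ[RatFunc Fq] RatFunc (kk Fq) :=
  { sigK hc with commutes' := fun x => sigK_jF hc x }

lemma sigA_apply (x : RatFunc (kk Fq)) : sigA hc x = sigK hc x := rfl

lemma exists_tau : ∃ τ : LL Fq ≃ₐ[RatFunc Fq] LL Fq, ∀ z, τ (jK Fq z) = jK Fq (sigK hc z) := by
  refine ⟨AlgEquiv.ofBijective ((sigA hc).liftNormal (LL Fq))
    (AlgHom.normal_bijective (RatFunc Fq) (LL Fq) (LL Fq) _), ?_⟩
  intro z
  exact (sigA hc).liftNormal_commutes (LL Fq) z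

lemma xx_ne (hPi : Irreducible P) (hPm : P.Monic) (hPN : P.natDegree = N)
    (hPh : (aeval (phi hc g Δ) P) h0 = 0) (hθ : aeval θ P = 0) (hh : h0 ≠ 0)
    (hGal : ∀ τ : LL Fq ≃ₐ[RatFunc Fq] LL Fq, ∃ a : Fq[X], τ h0 = (aeval (phi hc g Δ) a) h0)
    (i : ℕ) : xx hc g Δ h0 P θ i ≠ 0 := by
  have hN : 0 < N := by
    rw [← hPN]
    exact hPi.natDegree_pos
  intro hi
  obtain ⟨τ, hτ⟩ := exists_tau hc
  obtain ⟨a, ha⟩ := hGal τ
  have hτ' : ∀ c, τ (ι Fq c) = ι Fq (fr hc c) := by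
    intro c
    rw [← jK_C, hτ, ← jK_C]
    unfold sigK
    rw [sig_C]
  have h1 : ∀ j, xx hc g Δ h0 P θ j = 0 := by
    refine per_of hN (fun j => xx hc g Δ h0 P θ j = 0) (fun j h => by
      rw [← xx_per hc g Δ h0 hPi hPm hPN hθ]; exact h) ?_ i hi
    intro j hj
    have h2 := gal_xx hc g Δ h0 hPh hθ τ (fr hc) hτ' a ha j (j + 1) (La_map hc P θ j)
    have hj' : xx hc g Δ h0 P θ j = 0 := hj
    rw [hj', map_zero] at h2
    rcases mul_eq_zero.1 h2.symm with h3 | h3
    · exact absurd ((map_eq_zero (ι Fq)).1 h3) (a_ne hc g Δ h0 hPi hPm hPh hθ hh τ a ha (j + 1))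
    · exact h3
  apply hh
  rw [← sum_xx hc g Δ h0 hPi hPm hPN hθ]
  exact Finset.sum_eq_zero fun j _ => h1 j

/-- the ratios -/
noncomputable def yy (N : ℕ) (P : Fq[X]) (θ : kk Fq) (i : ℕ) : LL Fq :=
  (xx hc g Δ h0 P θ (i + (N - 1))) ^ q / xx hc g Δ h0 P θ i

lemma descent (hΔ : Δ ≠ 0) (hPi : Irreducible P) (hPm : P.Monic) (hPN : P.natDegree = N)
    (hPh : (aeval (phi hc g Δ) P) h0 = 0) (hθ : aeval θ P = 0) (hh : h0 ≠ 0)
    (hGal : ∀ τ : LL Fq ≃ₐ[RatFunc Fq] LL Fq, ∃ a : Fq[X], τ h0 = (aeval (phi hc g Δ) a) h0) :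
    ∃ z : ℕ → RatFunc (kk Fq), (∀ i, z i ≠ 0) ∧ (∀ i, z (i + N) = z i) ∧
      (∀ i, z (i + 1) * (jF Fq g + jF Fq Δ * z i ^ q) =
        RatFunc.C (th q θ (i + 1)) - RatFunc.X) ∧
      (∀ i, sigK hc (z i) = z (i + 1)) := by
  have hN : 0 < N := by
    rw [← hPN]
    exact hPi.natDegree_pos
  set x : ℕ → LL Fq := fun i => xx hc g Δ h0 P θ i with hx
  have hxp : ∀ i, x (i + N) = x i := fun i => xx_per hc g Δ h0 hPi hPm hPN hθ i
  have hxn : ∀ i, x i ≠ 0 := fun i => xx_ne hc g Δ h0 hPi hPm hPN hPh hθ hh hGal i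
  have hthp : ∀ i, th q θ (i + N) = th q θ i := th_per hc hPi hPm hPN hθ
  set y : ℕ → LL Fq := fun i => x (i + (N - 1)) ^ q / x i with hy
  have hyp : ∀ i, y (i + N) = y i := by
    intro i
    simp only [hy]
    rw [show i + N + (N - 1) = i + (N - 1) + N by ring, hxp, hxp]
  have hyn : ∀ i, y i ≠ 0 := fun i => div_ne_zero (pow_ne_zero _ (hxn _)) (hxn _)
  have hy1 : ∀ i, y (i + 1) = x i ^ q / x (i + 1) := by
    intro i
    simp only [hy]
    rw [show i + 1 + (N - 1) = i + N by omega, hxp]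
  have hxrec := fun i => xx_rec hc g Δ h0 (P := P) (θ := θ) hPh hθ i
  have heq2 : ∀ i, y (i + 2) * (algebraMap (RatFunc Fq) (LL Fq) g +
      algebraMap (RatFunc Fq) (LL Fq) Δ * y (i + 1) ^ q) = ι Fq (th q θ (i + 2)) - TL Fq := by
    intro i
    have h1 := hxrec i
    have h1' : ι Fq (th q θ (i + 2)) * x (i + 2) = TL Fq * x (i + 2) +
      algebraMap (RatFunc Fq) (LL Fq) g * (x (i + 1)) ^ q +
      algebraMap (RatFunc Fq) (LL Fq) Δ * (x i) ^ (q ^ 2) := h1
    have e1 := hy1 i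
    have e2 := hy1 (i + 1)
    rw [show i + 1 + 1 = i + 2 by ring] at e2
    have n0 := hxn i
    have n1 := hxn (i + 1)
    have n2 := hxn (i + 2)
    have n1q := pow_ne_zero q n1
    rw [e1, e2, div_pow, ← pow_mul, ← pow_two]
    field_simp
    linear_combination -h1'
  have heq : ∀ i, y (i + 1) * (algebraMap (RatFunc Fq) (LL Fq) g +
      algebraMap (RatFunc Fq) (LL Fq) Δ * y i ^ q) = ι Fq (th q θ (i + 1)) - TL Fq := by
    intro i
    have h1 := heq2 (i + (N - 1))
    rwa [show i + (N - 1) + 2 = i + 1 + N by omega, show i + (N - 1) + 1 = i + N by omega,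
      hyp, hyp, hthp] at h1
  -- Galois action on y
  have hgaly : ∀ (τ : LL Fq ≃ₐ[RatFunc Fq] LL Fq) (ψ : kk Fq →+* kk Fq)
      (_ : ∀ c, τ (ι Fq c) = ι Fq (ψ c)) (s : ℕ)
      (_ : ∀ i, (La P θ q i).map ψ = La P θ q (i + s)) (i : ℕ), τ (y i) = y (i + s) := by
    intro τ ψ hτ s hs i
    obtain ⟨a, ha⟩ := hGal τ
    have h1 := gal_xx hc g Δ h0 hPh hθ τ ψ hτ a ha i (i + s) (hs i)
    have h2 := gal_xx hc g Δ h0 hPh hθ τ ψ hτ a ha (i + (N - 1)) (i + (N - 1) + s)
      (hs (i + (N - 1)))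
    have h3 : τ (x i) = ι Fq (aeval (th q θ (i + s)) a) * x (i + s) := h1
    have h4 : τ (x (i + (N - 1))) = ι Fq (aeval (th q θ (i + (N - 1) + s)) a) *
      x (i + (N - 1) + s) := h2
    have hy' : y i = x (i + (N - 1)) ^ q / x i := rfl
    have hy'' : y (i + s) = x (i + s + (N - 1)) ^ q / x (i + s) := rfl
    have h5 : (ι Fq (aeval (th q θ (i + (N - 1) + s)) a)) ^ q =
        ι Fq (aeval (th q θ (i + s)) a) := by
      rw [← map_pow, aeval_pow_q hc, ← th_succ, show i + (N - 1) + s + 1 = i + s + N by omega,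
        hthp]
    have h6 : ι Fq (aeval (th q θ (i + s)) a) ≠ 0 := by
      rw [Ne, map_eq_zero]
      exact a_ne hc g Δ h0 hPi hPm hPh hθ hh τ a ha (i + s)
    rw [hy', hy'', map_div₀, map_pow, h3, h4, mul_pow, h5,
      show i + s + (N - 1) = i + (N - 1) + s by ring, mul_div_mul_left _ _ h6]
  -- y is purely inseparable over K
  obtain ⟨p, hp⟩ := CharP.exists Fq
  obtain ⟨hprime, f, hf, hqf⟩ := q_form (p := p) hc
  have : Fact p.Prime := ⟨hprime⟩
  have hpk : CharP (kk Fq) p := charP_of_injective_algebraMap (algebraMap Fq (kk Fq)).injective p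
  have hpK : CharP (RatFunc (kk Fq)) p :=
    charP_of_injective_algebraMap (algebraMap (kk Fq) (RatFunc (kk Fq))).injective p
  have hpL : CharP (LL Fq) p :=
    charP_of_injective_algebraMap (algebraMap (kk Fq) (LL Fq)).injective p
  have hexp : ExpChar (RatFunc (kk Fq)) p := ExpChar.prime hprime
  have halg : Algebra.IsAlgebraic (RatFunc (kk Fq)) (LL Fq) :=
    Algebra.IsAlgebraic.tower_top (K := RatFunc Fq) (RatFunc (kk Fq))
  have hins : ∀ i, ∃ n : ℕ, y i ^ p ^ n ∈ (algebraMap (RatFunc (kk Fq)) (LL Fq)).range := by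
    intro i
    apply pinsep_of_fixed
    intro τ
    have h1 := hgaly (τ.restrictScalars (RatFunc Fq)) (RingHom.id _) (by
      intro c
      have h2 : ι Fq c = algebraMap (RatFunc (kk Fq)) (LL Fq) (RatFunc.C c) := by
        rw [algebraMap_KL, jK_C]
      rw [RingHom.id_apply, h2]
      exact τ.commutes _) 0 (by intro i; rw [Polynomial.map_id, add_zero]) i
    exact h1
  have hmono : ∀ i m n : ℕ, m ≤ n → y i ^ p ^ m ∈ (algebraMap (RatFunc (kk Fq)) (LL Fq)).range →
      y i ^ p ^ n ∈ (algebraMap (RatFunc (kk Fq)) (LL Fq)).range := by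
    intro i m n hmn h
    obtain ⟨c, rfl⟩ := Nat.exists_eq_add_of_le hmn
    rw [pow_add, pow_mul]
    exact pow_mem h _
  obtain ⟨n, hn⟩ : ∃ n : ℕ, ∀ i, y i ^ p ^ n ∈ (algebraMap (RatFunc (kk Fq)) (LL Fq)).range := by
    choose m hm using hins
    refine ⟨(Finset.range N).sup m, ?_⟩
    intro i
    have h1 : y i = y (i % N) := by
      have h3 := per_eq hyp (i / N) (i % N)
      rw [← h3]
      congr 1
      rw [mul_comm]
      exact (Nat.mod_add_div i N).symm
    rw [h1]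
    exact hmono _ _ _ (Finset.le_sup (f := m) (Finset.mem_range.2 (Nat.mod_lt _ hN))) (hm _)
  have hdown : ∀ n : ℕ, (∀ i, y i ^ p ^ n ∈ (algebraMap (RatFunc (kk Fq)) (LL Fq)).range) →
      ∀ i, y i ∈ (algebraMap (RatFunc (kk Fq)) (LL Fq)).range := by
    intro n
    induction n with
    | zero => intro h i; simpa using h i
    | succ n ih =>
      intro h
      apply ih
      have key : ∀ i, y (i + 1) ^ p ^ n ∈ (algebraMap (RatFunc (kk Fq)) (LL Fq)).range := by
        intro i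
        have h1 := congrArg (fun t => t ^ p ^ n) (heq i)
        simp only [mul_pow, add_pow_char_pow] at h1
        have h2 : (y i ^ q) ^ p ^ n ∈ (algebraMap (RatFunc (kk Fq)) (LL Fq)).range := by
          have h3 : (y i ^ q) ^ p ^ n = (y i ^ p ^ (n + 1)) ^ p ^ (f - 1) := by
            rw [← pow_mul, ← pow_mul, hqf, ← pow_add, ← pow_add]
            congr 2
            omega
          rw [h3]
          exact pow_mem (h i) _
        have hF : ∀ t : RatFunc Fq, algebraMap (RatFunc Fq) (LL Fq) t ∈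
            (algebraMap (RatFunc (kk Fq)) (LL Fq)).range := fun t =>
          ⟨jF Fq t, by rw [algebraMap_KL, jK_jF]⟩
        have hι : ∀ c : kk Fq, ι Fq c ∈ (algebraMap (RatFunc (kk Fq)) (LL Fq)).range := fun c =>
          ⟨RatFunc.C c, by rw [algebraMap_KL, jK_C]⟩
        have hTT : TL Fq ∈ (algebraMap (RatFunc (kk Fq)) (LL Fq)).range :=
          ⟨RatFunc.X, by rw [algebraMap_KL, jK_X]⟩
        have h4 : (algebraMap (RatFunc Fq) (LL Fq) g) ^ p ^ n +
            (algebraMap (RatFunc Fq) (LL Fq) Δ) ^ p ^ n * (y i ^ q) ^ p ^ n ∈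
            (algebraMap (RatFunc (kk Fq)) (LL Fq)).range :=
          add_mem (pow_mem (hF g) _) (mul_mem (pow_mem (hF Δ) _) h2)
        have h5 : (ι Fq (th q θ (i + 1)) - TL Fq) ^ p ^ n ∈
            (algebraMap (RatFunc (kk Fq)) (LL Fq)).range :=
          pow_mem (sub_mem (hι _) hTT) _
        have h6 : (ι Fq (th q θ (i + 1)) - TL Fq) ≠ 0 := by
          rw [← jK_C, ← jK_X, ← map_sub, Ne, map_eq_zero]
          exact CX_ne _
        have h7 : (algebraMap (RatFunc Fq) (LL Fq) g) ^ p ^ n +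
            (algebraMap (RatFunc Fq) (LL Fq) Δ) ^ p ^ n * (y i ^ q) ^ p ^ n ≠ 0 := by
          intro h8
          rw [h8, mul_zero] at h1
          exact pow_ne_zero _ h6 h1.symm
        have h9 : y (i + 1) ^ p ^ n = (ι Fq (th q θ (i + 1)) - TL Fq) ^ p ^ n /
            ((algebraMap (RatFunc Fq) (LL Fq) g) ^ p ^ n +
            (algebraMap (RatFunc Fq) (LL Fq) Δ) ^ p ^ n * (y i ^ q) ^ p ^ n) := by
          rw [eq_div_iff h7]
          exact h1
        rw [h9]
        obtain ⟨a, ha⟩ := h4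
        obtain ⟨b, hb⟩ := h5
        exact ⟨b / a, by rw [map_div₀, ha, hb]⟩
      intro i
      have h1 := key (i + (N - 1))
      rwa [show i + (N - 1) + 1 = i + N by omega, hyp] at h1
  have hmem := hdown n hn
  choose z hz using hmem
  have hz' : ∀ i, jK Fq (z i) = y i := hz
  have hinj := (jK Fq).injective
  refine ⟨z, ?_, ?_, ?_, ?_⟩
  · intro i h
    apply hyn i
    rw [← hz', h, map_zero]
  · intro i
    apply hinj
    rw [hz', hz', hyp]
  · intro i
    apply hinj
    rw [map_mul, map_add, map_mul, map_pow, hz', hz', jK_jF, jK_jF, map_sub, jK_C, jK_X]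
    exact heq i
  · intro i
    apply hinj
    obtain ⟨τ, hτ⟩ := exists_tau hc
    rw [← hτ, hz', hz']
    refine hgaly τ (fr hc) ?_ 1 (fun i => La_map hc P θ i) i
    intro c
    rw [← jK_C, hτ, ← jK_C]
    unfold sigK
    rw [sig_C]

end

end Pool.Agent.TH923.Y0
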