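import Mathlib
import Pool.Agent.TH923.Y0.Red
import Pool.Agent.TH923.Y0.Cls
import Pool.Agent.TH923.Y0.Desc3

/-!
# The reduced system of a rational subgroup
-/

set_option autoImplicit false

namespace Pool.Agent.TH923.Y0

open Polynomial

section

variable {Fq : Type} [Field Fq] [Finite Fq] {q N : ℕ}
variable (hc : Nat.card Fq = q) (g Δ : RatFunc Fq)
variable {P : Fq[X]} {θ : kk Fq}

include hc in
lemma g_zero (hq2 : 2 ≤ q) (hN3 : 3 ≤ N) (hΔ : Δ ≠ 0) (hPi : Irreducible P) (hPm : P.Monic)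
    (hPN : P.natDegree = N) (hθ : aeval θ P = 0) (z : ℕ → RatFunc (kk Fq))
    (hz0 : ∀ i, z i ≠ 0) (hzp : ∀ i, z (i + N) = z i)
    (hz : ∀ i, z (i + 1) * (jF Fq Δ * z i ^ q) = RatFunc.C (th q θ (i + 1)) - RatFunc.X) :
    False := by
  have hΔ' : jF Fq Δ ≠ 0 := (map_ne_zero (jF Fq)).2 hΔ
  set c := th q θ 0 with hc0
  set b : ℕ → ℤ := fun i => ratOrd (some c) (z i) with hb
  set δ : ℤ := ratOrd (some c) (jF Fq Δ) with hδ
  have h1 : ∀ i, b (i + 1) + (δ + q * b i) =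
      ratOrd (some c) (RatFunc.C (th q θ (i + 1)) - RatFunc.X) := by
    intro i
    have h2 := congrArg (ratOrd (some c)) (hz i)
    rw [ratOrd_mul _ (hz0 _) (mul_ne_zero hΔ' (pow_ne_zero _ (hz0 _))),
      ratOrd_mul _ hΔ' (pow_ne_zero _ (hz0 _)), ratOrd_pow _ (hz0 _)] at h2
    exact h2
  have h2 : ∀ i, i + 1 < N → b (i + 1) + (δ + q * b i) = 0 := by
    intro i hi
    rw [h1]
    have h3 : th q θ (i + 1) ≠ c := by
      intro h
      have := th_inj hc hPi hPm hPN hθ _ _ h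
      rw [Nat.mod_eq_of_lt hi, Nat.zero_mod] at this
      omega
    exact (EX_CX_ne h3).2
  have h3 : b 0 + (δ + q * b (N - 1)) = 1 := by
    have h4 := h1 (N - 1)
    rw [show N - 1 + 1 = 0 + N by omega, th_per hc hPi hPm hPN hθ] at h4
    have h5 : b (0 + N) = b 0 := by simp only [hb, hzp]
    rw [h5] at h4
    rw [h4]
    exact (EX_CX_same c).2
  have h4 : ∀ n, n < N → (q + 1) * b n + δ = (-(q : ℤ)) ^ n * ((q + 1) * b 0 + δ) := by
    intro n
    induction n with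
    | zero => intro _; simp
    | succ n ih =>
      intro hn
      have h5 := h2 n hn
      rw [pow_succ]
      linear_combination (-(q : ℤ)) * ih (by omega) + (q + 1) * h5
  have h5 := h4 (N - 1) (by omega)
  apply no_int_sol (q := (q : ℤ)) (by exact_mod_cast hq2) hN3 ((q + 1) * b 0 + δ)
  have h6 : (-(q : ℤ)) ^ N = (-(q : ℤ)) ^ (N - 1) * (-q) := by
    rw [← pow_succ]
    congr 1
    omega
  rw [h6]
  linear_combination (q + 1) * h3 - q * h5

/-- the reduced system -/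
lemma exists_Red (p : ℕ) [CharP Fq p] (hN3 : 3 ≤ N) (hΔ : Δ ≠ 0) (hPi : Irreducible P)
    (hPm : P.Monic) (hPN : P.natDegree = N) (hθ : aeval θ P = 0) (h0 : LL Fq)
    (hPh : (aeval (phi hc g Δ) P) h0 = 0) (hh : h0 ≠ 0)
    (hGal : ∀ τ : LL Fq ≃ₐ[RatFunc Fq] LL Fq, ∃ a : Fq[X], τ h0 = (aeval (phi hc g Δ) a) h0) :
    Nonempty (Red (kk Fq) p q N) := by
  obtain ⟨z, hz0, hzp, hz, hzs⟩ := descent hc g Δ h0 hΔ hPi hPm hPN hPh hθ hh hGal
  obtain ⟨hprime, f, hf, hqf⟩ := q_form (p := p) hc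
  have hq2 : 2 ≤ q := by
    rw [hqf]
    calc 2 ≤ p := hprime.two_le
      _ = p ^ 1 := (pow_one p).symm
      _ ≤ p ^ f := Nat.pow_le_pow_right hprime.pos (Nat.one_le_iff_ne_zero.2 hf)
  have hΔ' : jF Fq Δ ≠ 0 := (map_ne_zero (jF Fq)).2 hΔ
  by_cases hg : g = 0
  · exfalso
    apply g_zero hc Δ hq2 hN3 hΔ hPi hPm hPN hθ z hz0 hzp
    intro i
    have := hz i
    rwa [hg, map_zero, zero_add] at this
  have hg' : jF Fq g ≠ 0 := (map_ne_zero (jF Fq)).2 hg
  have hD : ∀ i, RatFunc.C (th q θ (i + 1)) - RatFunc.X - jF Fq g * z (i + 1) =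
      jF Fq Δ * z (i + 1) * z i ^ q := by
    intro i
    rw [← hz i]
    ring
  refine ⟨{
    hp := hprime
    hq := ⟨f, hf, hqf⟩
    hN := hN3
    θ := th q θ
    G := fun i => jF Fq g * z i
    J := (jF Fq g) ^ (q + 1) / jF Fq Δ
    σ := sigK hc
    θ_succ := th_succ θ
    θ_per := th_per hc hPi hPm hPN hθ
    θ_inj := th_inj hc hPi hPm hPN hθ
    G_ne := fun i => mul_ne_zero hg' (hz0 i)
    J_ne := div_ne_zero (pow_ne_zero _ hg') hΔ'
    D_ne := ?_
    G_per := ?_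
    rel := ?_
    σ_G := ?_
    σ_J := ?_
    σ_X := sig_X _
    σ_C := ?_
    σ_inf := sig_inf _
    σ_D := sig_D _ }⟩
  · intro i
    have h1 := hD (i + (N - 1))
    rw [show i + (N - 1) + 1 = i + N by omega, th_per hc hPi hPm hPN hθ, hzp] at h1
    rw [h1]
    exact mul_ne_zero (mul_ne_zero hΔ' (hz0 _)) (pow_ne_zero _ (hz0 _))
  · intro i
    simp only [hzp]
  · intro i
    rw [hD, mul_pow, pow_succ, div_mul_eq_mul_div, eq_div_iff hΔ']
    ring
  · intro i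
    rw [map_mul, sigK_jF, hzs]
  · rw [map_div₀, map_pow, sigK_jF, sigK_jF]
  · intro c
    unfold sigK
    rw [sig_C]
    rfl

end

end Pool.Agent.TH923.Y0
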