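import Mathlib
import Pool.Agent.TH923.Y0.Build

/-!
# From a rational subgroup to the reduced system
-/

set_option autoImplicit false

namespace Pool.Agent.TH923.Y0

open Polynomial

section

variable {Fq : Type} [Field Fq] [Finite Fq] {q N : ℕ}
variable (hc : Nat.card Fq = q) (g Δ : RatFunc Fq)
variable {P : Fq[X]}

lemma sum_eq_aeval (a : Fq[X]) (x : LL Fq) :
    a.sum (fun (i : ℕ) (c : Fq) =>
      algebraMap (RatFunc Fq) (LL Fq) (RatFunc.C c) *
        (fun y : LL Fq => algebraMap (RatFunc Fq) (LL Fq) RatFunc.X * y +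
          algebraMap (RatFunc Fq) (LL Fq) g * y ^ q +
          algebraMap (RatFunc Fq) (LL Fq) Δ * y ^ (q ^ 2))^[i] x) =
      (aeval (phi hc g Δ) a) x := by
  rw [aeval_eq_sum_range, LinearMap.sum_apply, Polynomial.sum_over_range]
  · apply Finset.sum_congr rfl
    intro i _
    rw [LinearMap.smul_apply, Module.End.pow_apply, Algebra.smul_def,
      IsScalarTower.algebraMap_apply Fq (RatFunc Fq) (LL Fq), RatFunc.algebraMap_eq_C]
    rfl
  · intro i
    simp

/-- the polynomial multiples of a nonzero point are distinct -/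
lemma mult_inj (hPi : Irreducible P) (x : LL Fq) (hx : x ≠ 0)
    (hPx : (aeval (phi hc g Δ) P) x = 0) (a : Fq[X]) (ha : a.degree < P.degree)
    (h : (aeval (phi hc g Δ) a) x = 0) : a = 0 := by
  by_contra hne
  have hcop : IsCoprime P a := by
    rw [hPi.coprime_iff_not_dvd]
    intro h1
    exact absurd ha (not_lt.2 (degree_le_of_dvd h1 hne))
  obtain ⟨u, v, huv⟩ := hcop
  apply hx
  have h1 := congrArg (fun f => (aeval (phi hc g Δ) f) x) huv
  simp only [map_add, map_mul, map_one, LinearMap.add_apply, Module.End.mul_apply, hPx, h,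
    map_zero, add_zero, Module.End.one_apply] at h1
  exact h1.symm

lemma surj_of_card (hPi : Irreducible P) (hPN : P.natDegree = N) (S : Set (LL Fq))
    (hfin : S.Finite) (hcard : S.ncard = q ^ N)
    (hmul : ∀ a : Fq[X], ∀ x ∈ S, (aeval (phi hc g Δ) a) x ∈ S)
    (x : LL Fq) (hx : x ≠ 0) (hxS : x ∈ S) (hPx : (aeval (phi hc g Δ) P) x = 0) (y : LL Fq)
    (hy : y ∈ S) : ∃ a : Fq[X], y = (aeval (phi hc g Δ) a) x := by
  classical
  have hinj : Function.Injective (fun a : degreeLT Fq N => (aeval (phi hc g Δ) (a : Fq[X])) x) := by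
    intro a b hab
    have hab' : (aeval (phi hc g Δ) (a : Fq[X])) x = (aeval (phi hc g Δ) (b : Fq[X])) x := hab
    have h1 : (aeval (phi hc g Δ) ((a - b : degreeLT Fq N) : Fq[X])) x = 0 := by
      rw [Submodule.coe_sub, map_sub, LinearMap.sub_apply, hab', sub_self]
    have h2 := mult_inj hc g Δ hPi x hx hPx _ (by
      have h3 := mem_degreeLT.1 (a - b).2
      rwa [degree_eq_natDegree hPi.ne_zero, hPN]) h1
    have h4 : a - b = 0 := Subtype.ext h2
    exact sub_eq_zero.1 h4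
  have hfinD : Finite (degreeLT Fq N) := Finite.of_equiv _ (degreeLTEquiv Fq N).toEquiv.symm
  have hcardD : Nat.card (degreeLT Fq N) = q ^ N := by
    rw [Nat.card_congr (degreeLTEquiv Fq N).toEquiv, Nat.card_fun, hc, Nat.card_fin]
  have hsub : Set.range (fun a : degreeLT Fq N => (aeval (phi hc g Δ) (a : Fq[X])) x) ⊆ S := by
    rintro _ ⟨a, rfl⟩
    exact hmul _ _ hxS
  have heq := Set.eq_of_subset_of_ncard_le hsub (by
    rw [hcard, ← hcardD, Set.ncard_range_of_injective hinj]) hfin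
  rw [← heq] at hy
  obtain ⟨a, ha⟩ := hy
  exact ⟨a, ha.symm⟩

include hc in
lemma front (p : ℕ) [CharP Fq p] (hN3 : 3 ≤ N) (hΔ : Δ ≠ 0) (hPi : Irreducible P)
    (hPm : P.Monic) (hPN : P.natDegree = N) (S : Set (LL Fq))
    (hfin : S.Finite) (hcard : S.ncard = q ^ N)
    (hmul : ∀ a : Fq[X], ∀ x ∈ S, a.sum (fun (i : ℕ) (c : Fq) =>
      algebraMap (RatFunc Fq) (LL Fq) (RatFunc.C c) *
        (fun y : LL Fq => algebraMap (RatFunc Fq) (LL Fq) RatFunc.X * y +
          algebraMap (RatFunc Fq) (LL Fq) g * y ^ q +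
          algebraMap (RatFunc Fq) (LL Fq) Δ * y ^ (q ^ 2))^[i] x) ∈ S)
    (hP : ∀ x ∈ S, P.sum (fun (i : ℕ) (c : Fq) =>
      algebraMap (RatFunc Fq) (LL Fq) (RatFunc.C c) *
        (fun y : LL Fq => algebraMap (RatFunc Fq) (LL Fq) RatFunc.X * y +
          algebraMap (RatFunc Fq) (LL Fq) g * y ^ q +
          algebraMap (RatFunc Fq) (LL Fq) Δ * y ^ (q ^ 2))^[i] x) = 0)
    (hGal : ∀ τ : LL Fq ≃ₐ[RatFunc Fq] LL Fq, ∀ x ∈ S, τ x ∈ S) :
    Nonempty (Red (kk Fq) p q N) := by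
  have hq1 : 1 < q := by
    obtain ⟨hprime, f, hf, hqf⟩ := q_form (p := p) hc
    rw [hqf]
    exact Nat.one_lt_pow hf hprime.one_lt
  simp only [sum_eq_aeval hc g Δ] at hmul hP
  obtain ⟨θ, hθ⟩ := IsAlgClosed.exists_aeval_eq_zero (kk Fq) P (by
    rw [degree_eq_natDegree hPi.ne_zero, hPN]
    exact_mod_cast (by omega : N ≠ 0))
  have h1 : 1 < S.ncard := by
    rw [hcard]
    exact Nat.one_lt_pow (by omega) hq1
  obtain ⟨x, hxS, hx⟩ := Set.exists_ne_of_one_lt_ncard h1 0
  refine exists_Red hc g Δ p hN3 hΔ hPi hPm hPN hθ x (hP x hxS) hx ?_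
  intro τ
  exact surj_of_card hc g Δ hPi hPN S hfin hcard hmul x hx hxS (hP x hxS) _ (hGal τ x hxS)

end

end Pool.Agent.TH923.Y0
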