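import Mathlib
import Pool.Agent.TH923.Y0.Val

/-!
# The kernel of the derivation
-/

set_option autoImplicit false

namespace Pool.Agent.TH923.Y0

open Polynomial

variable {k : Type*} [Field k]

lemma unif_dlog (v : Option k) : EX v (match v with | none => 1 | some _ => -1)
    (ratD k (unif v) / unif v) := by
  cases v with
  | none =>
    have h1 : ratD k (unif (none : Option k)) * (RatFunc.C 0 - RatFunc.X) =
        unif (none : Option k) := by
      have hne := CX_ne (0 : k)
      have h2 : unif (none : Option k) * (RatFunc.C 0 - RatFunc.X) = 1 := by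
        unfold unif
        rw [inv_mul_cancel₀ hne]
      have h3 := congrArg (ratD k) h2
      rw [ratD_mul, ratD_sub, ratD_C, ratD_X] at h3
      have h4 : ratD k (1 : RatFunc k) = 0 := (ratDer k).map_one_eq_zero
      rw [h4] at h3
      linear_combination h3
    have h2 : ratD k (unif (none : Option k)) / unif (none : Option k) =
        (RatFunc.C 0 - RatFunc.X)⁻¹ := by
      rw [div_eq_iff (EX_unif none).ne]
      conv_rhs => rw [← h1]
      have := CX_ne (0 : k)
      field_simp
    rw [h2]
    have := (EX_CX_inf (0 : k)).inv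
    rwa [neg_neg] at this
  | some c =>
    have h2 : ratD k (unif (some c)) / unif (some c) = -(RatFunc.C c - RatFunc.X)⁻¹ := by
      show ratD k (RatFunc.C c - RatFunc.X) / (RatFunc.C c - RatFunc.X) = _
      rw [ratD_sub, ratD_C, ratD_X]
      ring
    rw [h2]
    exact (EX_CX_same c).inv.neg

/-- elements with zero derivative have orders divisible by `p` -/
lemma dvd_of_ratD_zero {p : ℕ} [CharP k p] (v : Option k) {x : RatFunc k} (hx : x ≠ 0)
    (h : ratD k x = 0) : (p : ℤ) ∣ ratOrd v x := by
  set n := ratOrd v x with hn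
  have hu := EX_unif v
  have hw1 : EX v n (unif v ^ n) := by simpa using hu.zpow n
  set z := x / unif v ^ n with hz
  have hz1 : EX v 0 z := by
    have := (EX.self v hx).div hw1
    rwa [← hn, sub_self] at this
  have hxz : x = unif v ^ n * z := by rw [hz, mul_div_cancel₀ _ hw1.ne]
  have h1 : ratD k (unif v ^ n) = (n : RatFunc k) * (ratD k (unif v) / unif v) * unif v ^ n := by
    have h2 : ratDer k (unif v ^ n) = n • (unif v) ^ (n - 1) • ratDer k (unif v) :=
      (ratDer k).leibniz_zpow (unif v) n
    rw [← ratDer_apply, h2, zpow_sub_one₀ hu.ne, ratDer_apply, zsmul_eq_mul, smul_eq_mul]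
    have := hu.ne
    field_simp
  have h2 : (n : RatFunc k) * (ratD k (unif v) / unif v) = - (ratD k z / z) := by
    rw [hxz, ratD_mul, h1] at h
    have h3 : unif v ^ n * (ratD k z + z * ((n : RatFunc k) * (ratD k (unif v) / unif v))) = 0 := by
      linear_combination h
    have h4 := (mul_eq_zero.1 h3).resolve_left hw1.ne
    have := hz1.ne
    rw [← neg_div, eq_div_iff hz1.ne]
    linear_combination h4
  by_contra hcon
  have h3 : (n : k) ≠ 0 := by
    intro h3
    exact hcon ((CharP.intCast_eq_zero_iff k p n).1 h3)
  have h4 : EX v 0 (n : RatFunc k) := by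
    have := EX.C v h3
    rwa [map_intCast] at this
  have h5 := h4.mul (unif_dlog v)
  rw [h2] at h5
  cases v with
  | none =>
    have h6 := (GE.ratD_inf0 hz1.ge).mul hz1.inv.ge
    rw [← div_eq_mul_inv] at h6
    have h7 := h6.neg.ord h5.1
    rw [h5.2] at h7
    norm_num at h7
  | some c =>
    have h6 := (GE.ratD_fin0 hz1.ge).mul hz1.inv.ge
    rw [← div_eq_mul_inv] at h6
    have h7 := h6.neg.ord h5.1
    rw [h5.2] at h7
    norm_num at h7

end Pool.Agent.TH923.Y0
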