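import Mathlib
import Pool.Agent.TH923.Y0.Loc3

/-!
# Local inequalities at the finite places, `q = 2`
-/

set_option autoImplicit false

namespace Pool.Agent.TH923.Y0

open Finset

/-- the special place, `Γ > 0` -/
lemma pos_special2 {N : ℕ} {Γ j : ℤ} {a c o : ℕ → ℤ} (hN : 3 ≤ N)
    (hΓ : 0 < Γ) (hT : Tr N 2 Γ a)
    (haN : ∀ i, a (i + N) = a i)
    (hc : ∀ i, c i = a (i + 1) + 2 * a i - Γ) (ho1 : ∀ i, -1 ≤ o i)
    (ho2 : ∀ i, (2 : ℤ) ∣ a i - a (i + 2) → 0 ≤ o i)
    (hj1 : -1 ≤ j) (hj2 : (2 : ℤ) ∣ Γ → 0 ≤ j) :
    -6 ≤ ∑ i ∈ range N, (3 * j + 6 * o i + 4 * c i + Γ) ∧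
    ((2 : ℤ) ∣ Γ → 0 ≤ ∑ i ∈ range N, (3 * j + 6 * o i + 4 * c i + Γ)) := by
  have hN' : (3 : ℤ) ≤ N := by exact_mod_cast hN
  have haN0 : a N = a 0 := by simpa using haN 0
  have haN1 : a (N + 1) = a 1 := by rw [add_comm, haN]
  set e : ℕ → ℤ := fun i => a i + a (i + 1) - Γ with he
  have htot : ∑ i ∈ range N, (3 * j + 6 * o i + 4 * c i + Γ) =
      N * (3 * j + 3 * Γ) + 6 * (∑ i ∈ range N, e i + ∑ i ∈ range N, o i) := by
    have h1 := sum_shift haN
    simp only [he, hc, Finset.sum_add_distrib, Finset.sum_sub_distrib, ← Finset.mul_sum, h1,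
      Finset.sum_const, card_range, nsmul_eq_mul]
    ring
  rw [htot]
  have hz : ∀ i, a i = a (i + 2) → 0 ≤ o i := fun i hi => ho2 i (by rw [hi, sub_self]; exact dvd_zero _)
  have hsub : ∀ S : Finset ℕ, (∀ i ∈ S, i < N) → (∀ i, i < N → i ∉ S → 0 ≤ e i) →
      ∑ i ∈ S, e i ≤ ∑ i ∈ range N, e i := fun S h1 h2 => sum_ge_sub S h1 h2
  rcases hT.cls (by norm_num) hΓ hN with ⟨hev, h0, h1⟩ | ⟨hev, h0, h1, hG, h2⟩ |
    ⟨hodd, hG, h0, h1⟩ | ⟨hodd, hG, h0, h1, h2, h3⟩ | ⟨hev, -, hG, h0, h1, h2, h3, h4⟩
  · -- E1
    have hN4 : 4 ≤ N := by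
      rcases Nat.lt_or_ge N 4 with h5 | h5
      · have : N = 3 := by omega
        subst this
        exact absurd hev (by decide)
      · exact h5
    have hs1 := hsub {0, N - 1} (by
      intro i hi
      simp only [mem_insert, mem_singleton] at hi
      omega) (by
      intro i hi hi'
      simp only [mem_insert, mem_singleton, not_or] at hi'
      simp only [he]
      rw [h1 i (by omega) hi, h1 (i + 1) (by omega) (by omega)]
      by_cases hh : Even i
      · rw [if_pos hh, if_neg (by rwa [Nat.even_add_one, not_not])]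
        linarith
      · rw [if_neg hh, if_pos (by rwa [Nat.even_add_one])]
        linarith)
    rw [Finset.sum_pair (by omega)] at hs1
    have e1 : e 0 = 1 := by
      simp only [he]
      rw [h0, h1 (0 + 1) (by omega) (by omega), if_neg (by decide)]
      ring
    have e2 : e (N - 1) = 1 := by
      simp only [he]
      rw [show N - 1 + 1 = N by omega, haN0, h0, h1 (N - 1) (by omega) (by omega), if_neg (by
        rw [Nat.even_sub (by omega)]
        simp [hev])]
      ring
    have hs2 : -(({0, N - 2} : Finset ℕ).card : ℤ) ≤ ∑ i ∈ range N, o i := by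
      apply sum_o_ge _ ho1
      intro i hi hi'
      simp only [mem_insert, mem_singleton, not_or] at hi'
      apply hz
      rcases Nat.lt_or_ge (i + 2) N with h5 | h5
      · rw [h1 i (by omega) hi, h1 (i + 2) (by omega) h5]
        simp [Nat.even_add]
      · have : i = N - 1 := by omega
        subst this
        rw [show N - 1 + 2 = N + 1 by omega, haN1, h1 (N - 1) (by omega) (by omega),
          h1 1 (by omega) (by omega), if_neg (by
            rw [Nat.even_sub (by omega)]
            simp [hev]), if_neg (by decide)]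
    rw [Finset.card_pair (by omega)] at hs2
    push_cast at hs2
    have h5 : 0 ≤ (N : ℤ) * (3 * j + 3 * Γ) := mul_nonneg (by linarith) (by linarith)
    exact ⟨by linarith, fun _ => by linarith⟩
  · -- E2
    have hN4 : 4 ≤ N := by
      rcases Nat.lt_or_ge N 4 with h5 | h5
      · have : N = 3 := by omega
        subst this
        exact absurd hev (by decide)
      · exact h5
    have hN4' : (4 : ℤ) ≤ N := by exact_mod_cast hN4
    have hs1 := hsub {0, 1, N - 1} (by
      intro i hi
      simp only [mem_insert, mem_singleton] at hi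
      omega) (by
      intro i hi hi'
      simp only [mem_insert, mem_singleton, not_or] at hi'
      simp only [he]
      rw [h2 i (by omega) hi, h2 (i + 1) (by omega) (by omega)]
      by_cases hh : Even i
      · rw [if_pos hh, if_neg (by rwa [Nat.even_add_one, not_not])]
        linarith
      · rw [if_neg hh, if_pos (by rwa [Nat.even_add_one])]
        linarith)
    rw [Finset.sum_insert (by simp; omega), Finset.sum_pair (by omega)] at hs1
    have e0 : e 0 = -1 := by
      simp only [he]
      rw [h0, zero_add, h1]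
      ring
    have e1 : e 1 = -2 := by
      simp only [he]
      rw [h1, h2 (1 + 1) (by omega) (by omega), if_pos (by decide)]
      ring
    have e2 : e (N - 1) = 1 := by
      simp only [he]
      rw [show N - 1 + 1 = N by omega, haN0, h0, h2 (N - 1) (by omega) (by omega), if_neg (by
        rw [Nat.even_sub (by omega)]
        simp [hev])]
      ring
    have hs2 : -(({0, N - 2} : Finset ℕ).card : ℤ) ≤ ∑ i ∈ range N, o i := by
      apply sum_o_ge _ ho1
      intro i hi hi'
      simp only [mem_insert, mem_singleton, not_or] at hi'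
      rcases Nat.lt_or_ge (i + 2) N with h5 | h5
      · by_cases hi1 : i = 1
        · subst hi1
          apply ho2
          rw [h1, h2 (1 + 2) (by omega) h5, if_neg (by decide)]
          rw [show Γ - 2 - Γ = -2 by ring]
          norm_num
        · apply hz
          rw [h2 i (by omega) hi, h2 (i + 2) (by omega) h5]
          simp [Nat.even_add]
      · have : i = N - 1 := by omega
        subst this
        apply ho2
        rw [show N - 1 + 2 = N + 1 by omega, haN1, h2 (N - 1) (by omega) (by omega),
          h1, if_neg (by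
            rw [Nat.even_sub (by omega)]
            simp [hev])]
        rw [show Γ - (Γ - 2) = 2 by ring]
    rw [Finset.card_pair (by omega)] at hs2
    push_cast at hs2
    have hΓ5 : 5 ≤ Γ := by linarith
    have h5 : 48 ≤ (N : ℤ) * (3 * j + 3 * Γ) := by
      have : 12 ≤ 3 * j + 3 * Γ := by linarith
      nlinarith
    exact ⟨by linarith, fun _ => by linarith⟩
  · -- O1
    have hΓ1 : Γ = 1 := by omega
    have hs1 := hsub {0, N - 1} (by
      intro i hi
      simp only [mem_insert, mem_singleton] at hi
      omega) (by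
      intro i hi hi'
      simp only [mem_insert, mem_singleton, not_or] at hi'
      simp only [he]
      rw [h1 i (by omega) hi, h1 (i + 1) (by omega) (by omega)]
      by_cases hh : Even i
      · rw [if_pos hh, if_neg (by rwa [Nat.even_add_one, not_not])]
        linarith
      · rw [if_neg hh, if_pos (by rwa [Nat.even_add_one])]
        linarith)
    rw [Finset.sum_pair (by omega)] at hs1
    have e0 : e 0 = 0 := by
      simp only [he]
      rw [h0, h1 (0 + 1) (by omega) (by omega), if_neg (by decide), hΓ1]
      ring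
    have elast : e (N - 1) = 1 := by
      simp only [he]
      rw [show N - 1 + 1 = N by omega, haN0, h0, h1 (N - 1) (by omega) (by omega), if_pos (by
        rw [Nat.even_sub (by omega)]
        simp [hodd])]
      ring
    have hs2 : -(({N - 2, N - 1} : Finset ℕ).card : ℤ) ≤ ∑ i ∈ range N, o i := by
      apply sum_o_ge _ ho1
      intro i hi hi'
      simp only [mem_insert, mem_singleton, not_or] at hi'
      apply hz
      by_cases hi3 : i = 0
      · subst hi3
        rw [h0, h1 (0 + 2) (by omega) (by omega), if_pos (by decide), hΓ1]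
      · rw [h1 i (by omega) hi, h1 (i + 2) (by omega) (by omega)]
        simp [Nat.even_add]
    rw [Finset.card_pair (by omega)] at hs2
    push_cast at hs2
    have h5 : 0 ≤ (N : ℤ) * (3 * j + 3 * Γ) := mul_nonneg (by linarith) (by linarith)
    refine ⟨by linarith, fun h => ?_⟩
    exfalso
    rw [hΓ1] at h
    omega
  · -- O2
    have hj0 : 0 ≤ j := hj2 (by rw [hG])
    have e0 : e 0 = a 1 - 1 := by
      simp only [he]
      rw [h0, zero_add, hG]
      ring
    have e1 : e 1 = - a 1 := by
      simp only [he]
      rw [show 1 + 1 = 2 by rfl, h2, hG]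
      ring
    by_cases hN3 : N = 3
    · subst hN3
      have e2 : e 2 = 1 - 2 * a 1 := by
        simp only [he]
        rw [show 2 + 1 = 3 by rfl, haN0, h0, h2, hG]
        ring
      have hs1 : ∑ i ∈ range 3, e i = - 2 * a 1 := by
        simp only [sum_range_succ, sum_range_zero, e0, e1, e2]
        ring
      rw [hs1]
      have hs2 : -((Finset.range 3).card : ℤ) ≤ ∑ i ∈ range 3, o i := by
        apply sum_o_ge _ ho1
        intro i hi hi'
        exact absurd (mem_range.2 hi) hi'
      rw [card_range] at hs2
      push_cast at hs2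
      rw [hG]
      push_cast
      constructor
      · linarith
      · intro _
        linarith
    · have hN5 : 5 ≤ N := by
        by_contra hcon
        have : N = 4 := by omega
        subst this
        exact hodd (by decide)
      have hN5' : (5 : ℤ) ≤ N := by exact_mod_cast hN5
      have e2 : e 2 = - 2 * a 1 := by
        simp only [he]
        rw [h2, h3 (2 + 1) (by omega) (by omega), if_neg (by decide), hG]
        ring
      have elast : e (N - 1) = 1 := by
        simp only [he]
        rw [show N - 1 + 1 = N by omega, haN0, h0, h3 (N - 1) (by omega) (by omega), if_pos (by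
          rw [Nat.even_sub (by omega)]
          simp [hodd])]
        ring
      have hs3 := hsub {0, 1, 2, N - 1} (by
        intro i hi
        simp only [mem_insert, mem_singleton] at hi
        omega) (by
        intro i hi hi'
        simp only [mem_insert, mem_singleton, not_or] at hi'
        simp only [he]
        rw [h3 i (by omega) hi, h3 (i + 1) (by omega) (by omega)]
        by_cases hh : Even i
        · rw [if_pos hh, if_neg (by rwa [Nat.even_add_one, not_not])]
          linarith
        · rw [if_neg hh, if_pos (by rwa [Nat.even_add_one])]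
          linarith)
      rw [Finset.sum_insert (by simp; omega), Finset.sum_insert (by simp; omega),
        Finset.sum_pair (by omega), e0, e1, e2, elast] at hs3
      have hs2 : -(({0, 1, N - 2, N - 1} : Finset ℕ).card : ℤ) ≤ ∑ i ∈ range N, o i := by
        apply sum_o_ge _ ho1
        intro i hi hi'
        simp only [mem_insert, mem_singleton, not_or] at hi'
        by_cases hi2 : i = 2
        · subst hi2
          apply ho2
          rw [h2, h3 (2 + 2) (by omega) (by omega), if_pos (by decide), hG]
          rw [show 2 - 2 * a 1 - 2 = 2 * (- a 1) by ring]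
          exact dvd_mul_right _ _
        · apply hz
          rw [h3 i (by omega) hi, h3 (i + 2) (by omega) (by omega)]
          simp [Nat.even_add]
      have hcard : (({0, 1, N - 2, N - 1} : Finset ℕ).card : ℤ) ≤ 4 := by
        exact_mod_cast Finset.card_le_four
      rw [hG]
      have h5 : 30 ≤ (N : ℤ) * (3 * j + 3 * 2) := by nlinarith
      exact ⟨by linarith, fun _ => by linarith⟩
  · -- Q2
    have hj0 : 0 ≤ j := hj2 (by rw [hG]; norm_num)
    have hN4 : 4 ≤ N := by
      rcases Nat.lt_or_ge N 4 with h5 | h5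
      · have : N = 3 := by omega
        subst this
        exact absurd hev (by decide)
      · exact h5
    have hN4' : (4 : ℤ) ≤ N := by exact_mod_cast hN4
    have e0 : e 0 = -1 := by
      simp only [he]
      rw [h0, zero_add, h1, hG]
      ring
    have e1 : e 1 = a 2 - 2 := by
      simp only [he]
      rw [h1, show 1 + 1 = 2 by rfl, hG]
      ring
    have e2 : e 2 = - a 2 := by
      simp only [he]
      rw [show 2 + 1 = 3 by rfl, h3, hG]
      ring
    by_cases hN44 : N = 4
    · subst hN44
      have e3 : e 3 = 1 - 2 * a 2 := by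
        simp only [he]
        rw [show 3 + 1 = 4 by rfl, haN0, h0, h3, hG]
        ring
      have hs1 : ∑ i ∈ range 4, e i = - 2 - 2 * a 2 := by
        simp only [sum_range_succ, sum_range_zero, e0, e1, e2, e3]
        ring
      rw [hs1]
      have hs2 : -((Finset.range 4).card : ℤ) ≤ ∑ i ∈ range 4, o i := by
        apply sum_o_ge _ ho1
        intro i hi hi'
        exact absurd (mem_range.2 hi) hi'
      rw [card_range] at hs2
      push_cast at hs2
      rw [hG]
      push_cast
      constructor
      · linarith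
      · intro _
        linarith
    · have hN6 : 6 ≤ N := by
        by_contra hcon
        have : N = 5 := by omega
        subst this
        exact absurd hev (by decide)
      have hN6' : (6 : ℤ) ≤ N := by exact_mod_cast hN6
      have e3 : e 3 = - 2 * a 2 := by
        simp only [he]
        rw [h3, h4 (3 + 1) (by omega) (by omega), if_pos (by decide), hG]
        ring
      have elast : e (N - 1) = 1 := by
        simp only [he]
        rw [show N - 1 + 1 = N by omega, haN0, h0, h4 (N - 1) (by omega) (by omega), if_neg (by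
          rw [Nat.even_sub (by omega)]
          simp [hev])]
        ring
      have hs3 := hsub {0, 1, 2, 3, N - 1} (by
        intro i hi
        simp only [mem_insert, mem_singleton] at hi
        omega) (by
        intro i hi hi'
        simp only [mem_insert, mem_singleton, not_or] at hi'
        simp only [he]
        rw [h4 i (by omega) hi, h4 (i + 1) (by omega) (by omega)]
        by_cases hh : Even i
        · rw [if_pos hh, if_neg (by rwa [Nat.even_add_one, not_not])]
          linarith
        · rw [if_neg hh, if_pos (by rwa [Nat.even_add_one])]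
          linarith)
      rw [Finset.sum_insert (by simp; omega), Finset.sum_insert (by simp; omega),
        Finset.sum_insert (by simp; omega),
        Finset.sum_pair (by omega), e0, e1, e2, e3, elast] at hs3
      have hs2 : -(({0, 2, 1, N - 2, N - 1} : Finset ℕ).card : ℤ) ≤ ∑ i ∈ range N, o i := by
        apply sum_o_ge _ ho1
        intro i hi hi'
        simp only [mem_insert, mem_singleton, not_or] at hi'
        by_cases hi2 : i = 3
        · subst hi2
          apply ho2
          rw [h3, h4 (3 + 2) (by omega) (by omega), if_neg (by decide), hG]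
          rw [show 4 - 2 * a 2 - 4 = 2 * (- a 2) by ring]
          exact dvd_mul_right _ _
        · apply hz
          rw [h4 i (by omega) hi, h4 (i + 2) (by omega) (by omega)]
          simp [Nat.even_add]
      have hcard : (({0, 2, 1, N - 2, N - 1} : Finset ℕ).card : ℤ) ≤ 5 := by
        exact_mod_cast Finset.card_le_five
      rw [hG]
      have h5 : 72 ≤ (N : ℤ) * (3 * j + 3 * 4) := by nlinarith
      exact ⟨by linarith, fun _ => by linarith⟩

/-- both kinds of finite places, `Γ ≤ 0` -/
lemma nonpos_any2 {N : ℕ} {Γ j : ℤ} {d s τ o : ℕ → ℤ} (hN : 3 ≤ N)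
    (hΓ : Γ ≤ 0) (hτ : ∀ i, 0 ≤ τ i)
    (hd : ∀ i, d (i + N) = d i) (hτp : ∀ i, τ (i + N) = τ i) (hsp : ∀ i, s (i + N) = s i)
    (hs : ∀ i, s (i + 1) = d (i + 1) + 2 * d i - Γ) (hr : ∀ i, Rule (τ i) (d i) (s i))
    (ho1 : ∀ i, -1 ≤ o i) (ho2 : ∀ i, (2 : ℤ) ∣ d i - d (i + 2) → 0 ≤ o i)
    (hj1 : -1 ≤ j) (hj2 : (2 : ℤ) ∣ Γ → 0 ≤ j)
    (hII : Γ < 0 → (∀ i, 2 * d i = Γ) → ∀ i, - d i ≤ 2 * o i ∧ - d i ≤ j) :
    0 ≤ ∑ i ∈ range N, (3 * j + 6 * o i + 4 * s i + Γ) := by
  have hN' : (3 : ℤ) ≤ N := by exact_mod_cast hN
  have hτ0 : 0 ≤ ∑ i ∈ range N, τ i := Finset.sum_nonneg fun i _ => hτ i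
  have hsum : ∑ i ∈ range N, s i = 3 * ∑ i ∈ range N, d i - N * Γ := by
    rw [← sum_shift hsp]
    simp only [hs]
    rw [Finset.sum_sub_distrib, Finset.sum_add_distrib, ← Finset.mul_sum, sum_shift hd,
      Finset.sum_const, card_range, nsmul_eq_mul]
    ring
  have htot : ∑ i ∈ range N, (3 * j + 6 * o i + 4 * s i + Γ) =
      N * (3 * j - 3 * Γ) + 12 * ∑ i ∈ range N, d i + 6 * ∑ i ∈ range N, o i := by
    simp only [Finset.sum_add_distrib, ← Finset.mul_sum, hsum,
      Finset.sum_const, card_range, nsmul_eq_mul]
    ring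
  rcases hΓ.lt_or_eq with hΓ | hΓ
  · rcases seq_neg (by omega) (by norm_num) hΓ hτ hd hτp hs hr with h | h
    · rw [htot]
      simp only [h]
      have h1 : -(∑ i ∈ range N, (τ i + τ (i + 2))) ≤ ∑ i ∈ range N, o i := by
        rw [← Finset.sum_neg_distrib]
        apply Finset.sum_le_sum
        intro i _
        have h2 := hτ i
        have h3 := hτ (i + 2)
        by_cases h4 : τ i + τ (i + 2) = 0
        · rw [h4, neg_zero]
          apply ho2
          rw [h i, h (i + 2), show τ i - τ (i + 2) = 0 by linarith]
          exact dvd_zero _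
        · have := ho1 i
          omega
      rw [Finset.sum_add_distrib, sum_shift' hτp 2] at h1
      have h5 : 0 ≤ (N : ℤ) * (3 * j - 3 * Γ) := mul_nonneg (by linarith) (by linarith)
      linarith
    · apply Finset.sum_nonneg
      intro i _
      obtain ⟨h2, h2'⟩ := hII hΓ h i
      have h3 : s i = d i := by
        have h4 := hs (i + (N - 1))
        rw [show i + (N - 1) + 1 = i + N by omega, hsp, hd] at h4
        have h5 := h (i + (N - 1))
        linarith
      have h6 := h i
      linarith
  · subst hΓ
    have hj0 : 0 ≤ j := hj2 (dvd_zero _)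
    set n : ℕ → ℤ := fun i => max 0 (-d i) with hn
    have hn0 : ∀ i, 0 ≤ n i := fun i => le_max_left _ _
    have hnp : ∀ i, n (i + N) = n i := fun i => by simp only [hn, hd]
    set e : ℕ → ℤ := fun i => d i + n i - 2 * n (i + (N - 1)) with he
    have he1 : ∀ i, 0 ≤ e i ∧ e i ≤ τ i := by
      intro i
      have h1 := seq_zero (by norm_num : (2 : ℤ) ≤ 2) hτ (fun i => by rw [hs]; ring) hr
        (i + (N - 1))
      rw [show i + (N - 1) + 1 = i + N by omega, hτp] at h1
      simp only [he, hn]
      rw [hd] at h1
      exact h1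
    have hep : ∀ i, e (i + N) = e i := by
      intro i
      simp only [he]
      rw [hd, hnp, show i + N + (N - 1) = i + (N - 1) + N by omega, hnp]
    have hde : ∀ i, d i = e i - n i + 2 * n (i + (N - 1)) := by
      intro i
      simp only [he]
      ring
    have hsd : ∑ i ∈ range N, d i = ∑ i ∈ range N, e i + ∑ i ∈ range N, n i := by
      rw [Finset.sum_congr rfl fun i _ => hde i, Finset.sum_add_distrib, Finset.sum_sub_distrib,
        ← Finset.mul_sum, sum_shift' hnp]
      ring
    have h1 : -(∑ i ∈ range N, ((n i + n (i + 2)) + (e i + e (i + 2)))) ≤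
        ∑ i ∈ range N, o i := by
      rw [← Finset.sum_neg_distrib]
      apply Finset.sum_le_sum
      intro i _
      have h2 := hn0 i
      have h3 := hn0 (i + 2)
      have h4 := (he1 i).1
      have h5 := (he1 (i + 2)).1
      by_cases h6 : (n i + n (i + 2)) + (e i + e (i + 2)) = 0
      · rw [h6, neg_zero]
        apply ho2
        rw [hde i, hde (i + 2)]
        have e1 : n i = 0 := by linarith
        have e2 : n (i + 2) = 0 := by linarith
        have e3 : e i = 0 := by linarith
        have e4 : e (i + 2) = 0 := by linarith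
        rw [e1, e2, e3, e4]
        have : (0 : ℤ) - 0 + 2 * n (i + (N - 1)) - (0 - 0 + 2 * n (i + 2 + (N - 1))) =
          2 * (n (i + (N - 1)) - n (i + 2 + (N - 1))) := by ring
        rw [this]
        exact dvd_mul_right _ _
      · have := ho1 i
        omega
    rw [Finset.sum_add_distrib, Finset.sum_add_distrib, Finset.sum_add_distrib, sum_shift' hnp 2,
      sum_shift' hep 2] at h1
    rw [htot, hsd]
    have h5 : 0 ≤ (N : ℤ) * (3 * j - 3 * 0) := mul_nonneg (by linarith) (by linarith)
    linarith

/-- ordinary finite places -/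
lemma loc_ordinary2 {N : ℕ} {Γ j : ℤ} {d s o : ℕ → ℤ} (hN : 3 ≤ N)
    (hd : ∀ i, d (i + N) = d i) (hsp : ∀ i, s (i + N) = s i)
    (hs : ∀ i, s (i + 1) = d (i + 1) + 2 * d i - Γ) (hr : ∀ i, Rule 0 (d i) (s i))
    (ho1 : ∀ i, -1 ≤ o i) (ho2 : ∀ i, (2 : ℤ) ∣ d i - d (i + 2) → 0 ≤ o i)
    (hj1 : -1 ≤ j) (hj2 : (2 : ℤ) ∣ Γ → 0 ≤ j)
    (hII : Γ < 0 → (∀ i, 2 * d i = Γ) → ∀ i, - d i ≤ 2 * o i ∧ - d i ≤ j) :
    0 ≤ ∑ i ∈ range N, (3 * j + 6 * o i + 4 * s i + Γ) := by
  have hN' : (3 : ℤ) ≤ N := by exact_mod_cast hN
  rcases le_or_gt Γ 0 with hΓ | hΓ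
  · exact nonpos_any2 (τ := fun _ => 0) hN hΓ (fun _ => le_rfl) hd
      (fun _ => rfl) hsp hs hr ho1 ho2 hj1 hj2 hII
  · have hsum : ∑ i ∈ range N, s i = 3 * ∑ i ∈ range N, d i - N * Γ := by
      rw [← sum_shift hsp]
      simp only [hs]
      rw [Finset.sum_sub_distrib, Finset.sum_add_distrib, ← Finset.mul_sum, sum_shift hd,
        Finset.sum_const, card_range, nsmul_eq_mul]
      ring
    have htot : ∑ i ∈ range N, (3 * j + 6 * o i + 4 * s i + Γ) =
        N * (3 * j - 3 * Γ) + 12 * ∑ i ∈ range N, d i + 6 * ∑ i ∈ range N, o i := by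
      simp only [Finset.sum_add_distrib, ← Finset.mul_sum, hsum,
        Finset.sum_const, card_range, nsmul_eq_mul]
      ring
    rw [htot]
    rcases seq_pos (by omega) (by norm_num) hΓ hd hs hr with h | h
    · have ho : 0 ≤ ∑ i ∈ range N, o i := by
        apply Finset.sum_nonneg
        intro i _
        apply ho2
        have h1 := h i
        have h2 := h (i + 2)
        rw [show d i - d (i + 2) = 0 by linarith]
        exact dvd_zero _
      have h3 : 3 * ∑ i ∈ range N, d i = N * Γ := by
        rw [Finset.mul_sum, Finset.sum_congr rfl fun i _ => (by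
          have := h i
          linarith : 3 * d i = Γ), Finset.sum_const, card_range, nsmul_eq_mul]
      have h4 : 3 ≤ Γ := by
        have := h 0
        omega
      have h5 : 0 ≤ (N : ℤ) * (3 * j + Γ) := mul_nonneg (by linarith) (by linarith)
      nlinarith
    · have ho : 0 ≤ ∑ i ∈ range N, o i := by
        apply Finset.sum_nonneg
        intro i _
        apply ho2
        have : d i = d (i + 2) := by
          rcases h i with ⟨h1, h2⟩ | ⟨h1, h2⟩ <;> rcases h (i + 1) with ⟨h3, h4⟩ | ⟨h3, h4⟩
          · linarith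
          · rw [show i + 2 = i + 1 + 1 by rfl, h4, h1]
          · rw [show i + 2 = i + 1 + 1 by rfl, h4, h1]
          · linarith
        rw [this, sub_self]
        exact dvd_zero _
      have h3 : 2 * ∑ i ∈ range N, d i = N * Γ := by
        have h4 : ∑ i ∈ range N, (d i + d (i + 1)) = N * Γ := by
          rw [Finset.sum_congr rfl fun i _ => (by
            rcases h i with ⟨h1, h2⟩ | ⟨h1, h2⟩
            · linarith
            · linarith : d i + d (i + 1) = Γ), Finset.sum_const, card_range, nsmul_eq_mul]
        rw [Finset.sum_add_distrib, sum_shift hd] at h4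
        linarith
      have h5 : 0 ≤ (N : ℤ) * (3 * j + 3 * Γ) := mul_nonneg (by linarith) (by linarith)
      nlinarith

/-- special finite places: `τ i = 1` iff `i ≡ m` -/
lemma loc_special2 {N m : ℕ} {Γ j : ℤ} {d s τ o : ℕ → ℤ} (hN : 3 ≤ N) (hm : m < N)
    (hτ : ∀ i, τ i = if i % N = m then 1 else 0)
    (hd : ∀ i, d (i + N) = d i) (hsp : ∀ i, s (i + N) = s i)
    (hop : ∀ i, o (i + N) = o i)
    (hs : ∀ i, s (i + 1) = d (i + 1) + 2 * d i - Γ) (hr : ∀ i, Rule (τ i) (d i) (s i))
    (ho1 : ∀ i, -1 ≤ o i) (ho2 : ∀ i, (2 : ℤ) ∣ d i - d (i + 2) → 0 ≤ o i)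
    (hj1 : -1 ≤ j) (hj2 : (2 : ℤ) ∣ Γ → 0 ≤ j)
    (hII : Γ < 0 → (∀ i, 2 * d i = Γ) → ∀ i, - d i ≤ 2 * o i ∧ - d i ≤ j) :
    -6 ≤ ∑ i ∈ range N, (3 * j + 6 * o i + 4 * s i + Γ) ∧
    ((2 : ℤ) ∣ Γ → 0 ≤ ∑ i ∈ range N, (3 * j + 6 * o i + 4 * s i + Γ)) := by
  rcases le_or_gt Γ 0 with hΓ | hΓ
  · have := nonpos_any2 (τ := τ) hN hΓ (fun i => by rw [hτ]; split_ifs <;> norm_num)
      hd (fun i => by rw [hτ, hτ, Nat.add_mod_right]) hsp hs hr ho1 ho2 hj1 hj2 hII
    exact ⟨by linarith, fun _ => this⟩
  · have hτ0 : ∀ i, i % N ≠ m → τ i = 0 := fun i hi => by rw [hτ, if_neg hi]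
    have hτm : τ m = 1 := by rw [hτ, if_pos (Nat.mod_eq_of_lt hm)]
    have hmod : ∀ j, 0 < j → j < N → (m + j) % N ≠ m := by
      intro j h1 h2 h3
      rcases Nat.lt_or_ge (m + j) N with h4 | h4
      · rw [Nat.mod_eq_of_lt h4] at h3
        omega
      · rw [Nat.mod_eq_sub_mod h4, Nat.mod_eq_of_lt (by omega)] at h3
        omega
    have hT : Tr N 2 Γ (fun j => d (m + j)) := by
      refine ⟨?_, ?_, ?_, ?_, ?_, ?_⟩
      · intro i hi h
        have h1 := hr (m + i + 1)
        rw [hτ0 (m + i + 1) (hmod (i + 1) (by omega) hi)] at h1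
        exact h1.1 (by rw [hs]; linarith)
      · intro i hi h
        have h1 := hr (m + i + 1)
        rw [hτ0 (m + i + 1) (hmod (i + 1) (by omega) hi)] at h1
        have h2 := h1.2.1 (by rw [hs]; linarith)
        rw [hs] at h2
        show d (m + i + 1) = Γ - 2 * d (m + i)
        linarith
      · intro i hi h
        have h1 := hr (m + i + 1)
        rw [hτ0 (m + i + 1) (hmod (i + 1) (by omega) hi)] at h1
        exact h1.2.2 (by rw [hs]; linarith)
      · intro h
        have h1 := hr (m + (N - 1) + 1)
        rw [show m + (N - 1) + 1 = m + N by omega, hτ (m + N), Nat.add_mod_right,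
          Nat.mod_eq_of_lt hm, if_pos rfl, hd, hsp] at h1
        have h2 := hs (m + (N - 1))
        rw [show m + (N - 1) + 1 = m + N by omega, hd, hsp] at h2
        exact h1.1 (by rw [h2]; linarith)
      · intro h
        have h1 := hr (m + (N - 1) + 1)
        rw [show m + (N - 1) + 1 = m + N by omega, hτ (m + N), Nat.add_mod_right,
          Nat.mod_eq_of_lt hm, if_pos rfl, hd, hsp] at h1
        have h2 := hs (m + (N - 1))
        rw [show m + (N - 1) + 1 = m + N by omega, hd, hsp] at h2
        have h3 := h1.2.1 (by rw [h2]; linarith)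
        show d m = 1 + Γ - 2 * d (m + (N - 1))
        linarith
      · intro h
        have h1 := hr (m + (N - 1) + 1)
        rw [show m + (N - 1) + 1 = m + N by omega, hτ (m + N), Nat.add_mod_right,
          Nat.mod_eq_of_lt hm, if_pos rfl, hd, hsp] at h1
        have h2 := hs (m + (N - 1))
        rw [show m + (N - 1) + 1 = m + N by omega, hd, hsp] at h2
        exact h1.2.2 (by rw [h2]; linarith)
    have key := pos_special2 (a := fun j => d (m + j)) (c := fun j => s (m + j + 1))
      (o := fun j => o (m + j)) hN hΓ hT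
      (by intro i; show d (m + (i + N)) = d (m + i); rw [← add_assoc, hd])
      (fun i => hs (m + i)) (fun i => ho1 _) (fun i h => ho2 _ h) hj1 hj2
    have e : ∑ i ∈ range N, (3 * j + 6 * o (m + i) + 4 * s (m + i + 1) + Γ) =
        ∑ i ∈ range N, (3 * j + 6 * o i + 4 * s i + Γ) := by
      simp only [Finset.sum_add_distrib, ← Finset.mul_sum]
      have e1 : ∑ i ∈ range N, o (m + i) = ∑ i ∈ range N, o i := by
        rw [← sum_shift' hop m]
        exact Finset.sum_congr rfl fun i _ => by rw [add_comm]
      have e2 : ∑ i ∈ range N, s (m + i + 1) = ∑ i ∈ range N, s i := by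
        rw [← sum_shift' hsp (m + 1)]
        exact Finset.sum_congr rfl fun i _ => by rw [show m + i + 1 = i + (m + 1) by ring]
      rw [e1, e2]
    rw [e] at key
    exact key

end Pool.Agent.TH923.Y0
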