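import Mathlib
import Pool.Agent.TH923.Y0.Deg
import Pool.Agent.TH923.Y0.Ker
import Pool.Agent.TH923.Y0.Loc2

/-!
# The infinite place for `q = 2`
-/

set_option autoImplicit false

namespace Pool.Agent.TH923.Y0

open Finset

namespace Red

section General

variable {k : Type*} [Field k] {p q N : ℕ} (R : Red k p q N)

lemma hrel [CharP k p] (i l m : ℕ) :
    RatFunc.C (R.θ (i + 1) - R.θ (l + 1)) * R.E m l ^ q
      - RatFunc.C (R.θ (m + 1) - R.θ (l + 1)) * R.E i l ^ q =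
    RatFunc.C (R.θ (m + 1) - R.θ (l + 1)) * R.E (i + 1) (l + 1) * R.E i l ^ q
      - RatFunc.C (R.θ (i + 1) - R.θ (l + 1)) * R.E (m + 1) (l + 1) * R.E m l ^ q
      + (RatFunc.C (R.θ (l + 1)) - RatFunc.X) *
        (R.E (i + 1) (l + 1) * (1 + R.E (m + 1) (l + 1)) * R.E m l ^ q
          - R.E (m + 1) (l + 1) * (1 + R.E (i + 1) (l + 1)) * R.E i l ^ q) := by
  have s1 := R.star i l
  have s2 := R.star m l
  linear_combination (-(1 + R.E (m + 1) (l + 1)) * R.E m l ^ q) * s1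
    + ((1 + R.E (i + 1) (l + 1)) * R.E i l ^ q) * s2

lemma hkey [CharP k p] (i l m : ℕ) :
    RatFunc.C (R.θ (m + 1) - R.θ (l + 1)) *
      (RatFunc.C (R.θ (i + 1) - R.θ (l + 1)) * R.E m l ^ q
        - RatFunc.C (R.θ (m + 1) - R.θ (l + 1)) * R.E i l ^ q) =
      RatFunc.C (R.θ (m + 1) - R.θ (l + 1)) * (RatFunc.C (R.θ (i + 1) - R.θ (l + 1)) *
        R.E (m + 1) (l + 1) * (R.E i l - R.E m l) ^ q)
      + (-(RatFunc.C (R.θ (m + 1) - R.θ (l + 1)) *
        ((RatFunc.C (R.θ (i + 1) - R.θ (l + 1)) * R.E (m + 1) (l + 1)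
          - RatFunc.C (R.θ (m + 1) - R.θ (l + 1)) * R.E (i + 1) (l + 1)) * R.E i l ^ q))
      + (RatFunc.C (R.θ (l + 1)) - RatFunc.X) *
        (R.E (m + 1) (l + 1) * (RatFunc.C (R.θ (i + 1) - R.θ (l + 1)) * R.E m l ^ q
        - RatFunc.C (R.θ (m + 1) - R.θ (l + 1)) * R.E i l ^ q)
          - (RatFunc.C (R.θ (i + 1) - R.θ (l + 1)) * R.E (m + 1) (l + 1)
          - RatFunc.C (R.θ (m + 1) - R.θ (l + 1)) * R.E (i + 1) (l + 1)) * R.E m l ^ q)
      - (RatFunc.C (R.θ (l + 1)) - RatFunc.X) * (RatFunc.C (R.θ (m + 1) - R.θ (l + 1))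
          * R.E (i + 1) (l + 1)
          * R.E (m + 1) (l + 1) * (R.E i l - R.E m l) ^ q)) := by
  have h3 := R.hrel i l m
  rw [R.sub_pow_q]
  linear_combination (RatFunc.C (R.θ (m + 1) - R.θ (l + 1))) * h3

lemma hpowc [CharP k p] (i l m : ℕ) : (RatFunc.C (R.θ i - R.θ l) * R.E m l
      - RatFunc.C (R.θ m - R.θ l) * R.E i l) ^ q =
    RatFunc.C (R.θ (i + 1) - R.θ (l + 1)) * R.E m l ^ q
      - RatFunc.C (R.θ (m + 1) - R.θ (l + 1)) * R.E i l ^ q := by
  rw [R.sub_pow_q, mul_pow, mul_pow, ← map_pow, ← map_pow, R.sub_pow_q', R.sub_pow_q',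
    ← R.θ_succ, ← R.θ_succ, ← R.θ_succ]

lemma hσc [CharP k p] (i l m : ℕ) : R.σ (RatFunc.C (R.θ i - R.θ l) * R.E m l
      - RatFunc.C (R.θ m - R.θ l) * R.E i l) =
    RatFunc.C (R.θ (i + 1) - R.θ (l + 1)) * R.E (m + 1) (l + 1)
      - RatFunc.C (R.θ (m + 1) - R.θ (l + 1)) * R.E (i + 1) (l + 1) := by
  rw [map_sub, map_mul, map_mul, R.σ_C, R.σ_C, R.σ_E, R.σ_E, R.sub_pow_q', R.sub_pow_q',
    ← R.θ_succ, ← R.θ_succ, ← R.θ_succ]

lemma θ_ne_small (a b : ℕ) (ha : a < 3) (hb : b < 3) (hab : a ≠ b) : R.θ a ≠ R.θ b := by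
  intro h
  have hN := R.hN
  have := R.θ_inj a b h
  rw [Nat.mod_eq_of_lt (by omega), Nat.mod_eq_of_lt (by omega)] at this
  exact hab this

lemma θ_ne_succ [CharP k p] (a b : ℕ) (hab : R.θ a ≠ R.θ b) : R.θ (a + 1) ≠ R.θ (b + 1) := by
  rw [← sub_ne_zero, R.θ_succ, R.θ_succ, ← R.sub_pow_q']
  exact pow_ne_zero _ (sub_ne_zero.2 hab)

lemma E_diff (i l m : ℕ) : R.E i l - R.E m l = R.E i m * (R.G m / R.G l) := by
  unfold E
  have := R.G_ne m
  have := R.G_ne l
  field_simp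
  ring

lemma D_inf (i : ℕ) : ratOrd none (R.D i) = ratOrd none (R.D 0) := by
  induction i with
  | zero => rfl
  | succ i ih =>
    rw [R.s_eq, ← ih]
    cases i with
    | zero =>
      have := R.s_eq none (N - 1)
      rw [show N - 1 + 1 = 0 + N by have := R.hN; omega, R.D_per, R.G_per] at this
      rw [this, R.G_inf (0 + 1), R.G_inf (N - 1)]
    | succ i => rw [R.s_eq, R.G_inf (i + 1 + 1), R.G_inf (i + 1), R.G_inf i]

lemma E_ne_inf [CharP k p] (i l : ℕ) (hil : R.θ i ≠ R.θ l) : R.E i l ≠ 0 := by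
  intro h
  have h1 := R.star i l
  have h2 : R.E (i + 1) (l + 1) = 0 := by rw [← R.σ_E, h, map_zero]
  rw [h, h2, zero_pow (by have := R.q_ge; omega), mul_zero, mul_zero, sub_zero] at h1
  have h3 := R.θ_ne_succ _ _ hil
  exact h3 (sub_eq_zero.1 ((map_eq_zero _).1 h1.symm))

lemma EX_σ {n : ℤ} {x : RatFunc k} (h : EX none n x) : EX none n (R.σ x) :=
  ⟨(map_ne_zero R.σ).2 h.1, by rw [R.σ_inf, h.2]⟩

lemma GE_σ {n : ℤ} {x : RatFunc k} (h : GE none n x) : GE none n (R.σ x) := by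
  rcases h with h | h
  · exact Or.inl (by rw [h, map_zero])
  · exact Or.inr (by rwa [R.σ_inf])

end General

section Two

variable {k : Type*} [Field k] {N : ℕ} (R : Red k 2 2 N)

/-- common order of the `E` at infinity in the tie case -/
lemma tie_E [CharP k 2] (t : ℤ) (ht : 3 ≤ t) (hG : ∀ i, EX none (-t) (R.G i))
    (hD : ∀ i, EX none (-t) (R.D i)) (i l : ℕ) (hil : R.θ i ≠ R.θ l) :
    2 ≤ ratOrd none (R.E i l) ∧ t = 2 * ratOrd none (R.E i l) := by
  have hu : ∀ i l, EX none 0 (1 + R.E i l) := by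
    intro i l
    rw [one_add_E]
    simpa using (hG i).div (hG l)
  have hE0 := R.E_ne_inf i l hil
  set e := ratOrd none (R.E i l) with he
  have hE : EX none e (R.E i l) := EX.self _ hE0
  have hE' : EX none e (R.E (i + 1) (l + 1)) := by
    rw [← R.σ_E]
    exact R.EX_σ hE
  have he0 : 0 ≤ e := by
    have h1 : GE none 0 (R.E i l) := by
      have : R.E i l = (1 + R.E i l) - 1 := by ring
      rw [this]
      exact (hu i l).ge.sub (EX.one _).ge
    exact h1.ord hE0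
  have hs := R.star i l
  have hL := ((hD (l + 1)).mul (hu (i + 1) (l + 1))).mul (hE.pow 2)
  rw [hs] at hL
  push_cast at hL
  have hR : GE none (min 0 (e - 1)) (RatFunc.C (R.θ (i + 1) - R.θ (l + 1)) -
      (RatFunc.C (R.θ (l + 1)) - RatFunc.X) * R.E (i + 1) (l + 1)) := by
    apply GE.sub ((GE.C _ _).mono (min_le_left _ _))
    refine ((EX_CX_inf _).mul hE').ge.mono ?_
    have := min_le_right 0 (e - 1)
    linarith
  have h1 := hR.ord hL.1
  rw [hL.2] at h1
  have he2 : 2 ≤ e := by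
    by_contra hcon
    have : e = 0 ∨ e = 1 := by omega
    rcases this with h | h
    · rw [h] at h1
      norm_num at h1
      linarith
    · rw [h] at h1
      norm_num at h1
      linarith
  refine ⟨he2, ?_⟩
  have h2 : EX none 0 (RatFunc.C (R.θ (i + 1) - R.θ (l + 1)) -
      (RatFunc.C (R.θ (l + 1)) - RatFunc.X) * R.E (i + 1) (l + 1)) := by
    apply (EX.C _ (sub_ne_zero.2 (R.θ_ne_succ _ _ hil))).sub
    refine ((EX_CX_inf _).mul hE').ge.mono ?_
    linarith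
  have h3 := hL.unique h2
  linarith

/-- parity of `e` -/
lemma tie_even [CharP k 2] (t : ℤ) (ht : 3 ≤ t) (hG : ∀ i, EX none (-t) (R.G i))
    (hD : ∀ i, EX none (-t) (R.D i)) :
    ∃ e : ℤ, 2 ≤ e ∧ t = 2 * e ∧ (2 : ℤ) ∣ e ∧ ∀ i l, R.θ i ≠ R.θ l → EX none e (R.E i l) := by
  have h01 := R.θ_ne_small 1 0 (by norm_num) (by norm_num) (by norm_num)
  have h02 := R.θ_ne_small 2 0 (by norm_num) (by norm_num) (by norm_num)
  have h12 := R.θ_ne_small 1 2 (by norm_num) (by norm_num) (by norm_num)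
  obtain ⟨he2, het⟩ := R.tie_E t ht hG hD 1 0 h01
  set e := ratOrd none (R.E 1 0) with he
  have hE : ∀ i l, R.θ i ≠ R.θ l → EX none e (R.E i l) := by
    intro i l hil
    refine ⟨R.E_ne_inf i l hil, ?_⟩
    have := (R.tie_E t ht hG hD i l hil).2
    linarith
  refine ⟨e, he2, het, ?_, hE⟩
  have g01 := R.θ_ne_succ _ _ h01
  have g02 := R.θ_ne_succ _ _ h02
  have hkey := R.hkey 1 0 2
  have hpow := R.hpowc 1 0 2
  have hσ := R.hσc 1 0 2
  rw [← hpow, ← hσ] at hkey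
  set a := R.θ (1 + 1) - R.θ (0 + 1) with ha
  set b := R.θ (2 + 1) - R.θ (0 + 1) with hb
  have ha0 : a ≠ 0 := sub_ne_zero.2 g01
  have hb0 : b ≠ 0 := sub_ne_zero.2 g02
  set ℓ := RatFunc.C (R.θ 1 - R.θ 0) * R.E 2 0 - RatFunc.C (R.θ 2 - R.θ 0) * R.E 1 0 with hℓ
  have hdiff : EX none e (R.E 1 0 - R.E 2 0) := by
    rw [R.E_diff]
    have h4 := (hE _ _ h12).mul ((hG 2).div (hG 0))
    simpa using h4
  have hA : EX none (3 * e) (RatFunc.C b * (RatFunc.C a * R.E (2 + 1) (0 + 1) *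
      (R.E 1 0 - R.E 2 0) ^ 2)) := by
    have h3 := (EX.C none hb0).mul (((EX.C none ha0).mul (hE _ _ g02)).mul (hdiff.pow 2))
    have h4 : 0 + (0 + e + ((2 : ℕ) : ℤ) * e) = 3 * e := by push_cast; ring
    rwa [h4] at h3
  have hF : GE none (3 * e + 1) ((RatFunc.C (R.θ (0 + 1)) - RatFunc.X) * (RatFunc.C b
          * R.E (1 + 1) (0 + 1) * R.E (2 + 1) (0 + 1) * (R.E 1 0 - R.E 2 0) ^ 2)) := by
    refine ((EX_CX_inf _).mul ((((EX.C none hb0).mul (hE _ _ g01)).mul (hE _ _ g02)).mul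
      (hdiff.pow 2))).ge.mono ?_
    push_cast
    linarith
  by_cases hl0 : ℓ = 0
  · exfalso
    rw [hl0, map_zero] at hkey
    simp only [ne_eq, OfNat.ofNat_ne_zero, not_false_eq_true, zero_pow, mul_zero, zero_mul,
      neg_zero, zero_add, sub_zero, zero_sub] at hkey
    have h1 := hA.add hF.neg
    rw [← hkey] at h1
    exact h1.1 rfl
  set f := ratOrd none ℓ with hf
  have hlf : EX none f ℓ := EX.self _ hl0
  have hlσ : EX none f (R.σ ℓ) := R.EX_σ hlf
  have hfe : e ≤ f := by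
    have h1 : GE none e ℓ := by
      apply GE.sub
      · exact ((GE.C none _).mul (hE _ _ h02).ge).mono (by linarith)
      · exact ((GE.C none _).mul (hE _ _ h01).ge).mono (by linarith)
    exact h1.ord hl0
  have hL : EX none (2 * f) (RatFunc.C b * ℓ ^ 2) := by
    have := (EX.C none hb0).mul (hlf.pow 2)
    push_cast at this
    rwa [zero_add] at this
  have hB := ((EX.C none hb0).mul (hlσ.mul ((hE _ _ h01).pow 2))).ge
  have hC1 := ((hE _ _ g02).mul (hlf.pow 2)).ge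
  have hC2 := (hlσ.mul ((hE _ _ h02).pow 2)).ge
  push_cast at hB hC1 hC2
  -- the remaining terms
  have hrest : ∀ n : ℤ, n ≤ f + 2 * e → n ≤ e + 2 * f - 1 → n ≤ f + 2 * e - 1 → n ≤ 3 * e + 1 →
      GE none n (-(RatFunc.C b * (R.σ ℓ * R.E 1 0 ^ 2)) +
        (RatFunc.C (R.θ (0 + 1)) - RatFunc.X) *
          (R.E (2 + 1) (0 + 1) * ℓ ^ 2 - R.σ ℓ * R.E 2 0 ^ 2) -
        (RatFunc.C (R.θ (0 + 1)) - RatFunc.X) * (RatFunc.C b * R.E (1 + 1) (0 + 1) *
          R.E (2 + 1) (0 + 1) * (R.E 1 0 - R.E 2 0) ^ 2)) := by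
    intro n h1 h2 h3 h4
    apply GE.sub (GE.add (hB.neg.mono (by linarith)) ?_) (hF.mono h4)
    have h5 : GE none (n + 1) (R.E (2 + 1) (0 + 1) * ℓ ^ 2 - R.σ ℓ * R.E 2 0 ^ 2) :=
      GE.sub (hC1.mono (by linarith)) (hC2.mono (by linarith))
    exact ((EX_CX_inf _).ge.mul h5).mono (by linarith)
  rcases hfe.eq_or_lt with h1 | h1
  · exfalso
    have h2 : GE none (2 * f + 1) (RatFunc.C b * ℓ ^ 2) := by
      rw [hkey]
      exact (hA.ge.mono (by linarith)).add (hrest _ (by linarith) (by linarith) (by linarith)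
        (by linarith))
    exact hL.not_ge h2
  · rcases (show e + 1 ≤ f by omega).eq_or_lt with h2 | h2
    · have h3 : GE none (3 * e) (RatFunc.C b * ℓ ^ 2) := by
        rw [hkey]
        exact (hA.ge).add (hrest _ (by linarith) (by linarith) (by linarith) (by linarith))
      have h4 := h3.ord hL.1
      rw [hL.2] at h4
      have : e = 2 := by linarith
      rw [this]
    · have h3 : EX none (3 * e) (RatFunc.C b * ℓ ^ 2) := by
        rw [hkey]
        exact hA.add (hrest _ (by linarith) (by linarith) (by linarith) (by linarith))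
      have h4 := hL.unique h3
      refine ⟨f - e, ?_⟩
      linarith

/-- `t = 2` is impossible -/
lemma tie_two [CharP k 2] (hG : ∀ i, EX none (-2) (R.G i)) (hD : ∀ i, EX none (-2) (R.D i)) :
    False := by
  have h01 := R.θ_ne_small 1 0 (by norm_num) (by norm_num) (by norm_num)
  have hu : ∀ i l, EX none 0 (1 + R.E i l) := by
    intro i l
    rw [one_add_E]
    simpa using (hG i).div (hG l)
  have hE0 := R.E_ne_inf 1 0 h01
  set e := ratOrd none (R.E 1 0) with he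
  have hE : EX none e (R.E 1 0) := EX.self _ hE0
  have hE' : EX none e (R.E (1 + 1) (0 + 1)) := by
    rw [← R.σ_E]
    exact R.EX_σ hE
  have he0 : 0 ≤ e := by
    have h1 : GE none 0 (R.E 1 0) := by
      have : R.E 1 0 = (1 + R.E 1 0) - 1 := by ring
      rw [this]
      exact (hu 1 0).ge.sub (EX.one _).ge
    exact h1.ord hE0
  have hs := R.star 1 0
  have hL := ((hD (0 + 1)).mul (hu (1 + 1) (0 + 1))).mul (hE.pow 2)
  rw [hs] at hL
  push_cast at hL
  have hR : GE none (min 0 (e - 1)) (RatFunc.C (R.θ (1 + 1) - R.θ (0 + 1)) -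
      (RatFunc.C (R.θ (0 + 1)) - RatFunc.X) * R.E (1 + 1) (0 + 1)) := by
    apply GE.sub ((GE.C _ _).mono (min_le_left _ _))
    refine ((EX_CX_inf _).mul hE').ge.mono ?_
    have := min_le_right 0 (e - 1)
    linarith
  have h1 := hR.ord hL.1
  rw [hL.2] at h1
  have he1 : 1 ≤ e := by
    by_contra hcon
    have : e = 0 := by omega
    rw [this] at h1
    norm_num at h1
  -- leading coefficients
  have hXinf : EX none (-1) (RatFunc.X : RatFunc k) := by
    have := (EX_CX_inf (0 : k)).neg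
    rwa [map_zero, zero_sub, neg_neg] at this
  obtain ⟨ε, hε⟩ := exists_res none (RatFunc.X * R.E 1 0)
    ((hXinf.mul hE).ge.mono (by linarith))
  have hε' : GE none 1 (RatFunc.X * R.E (1 + 1) (0 + 1) - RatFunc.C (ε ^ 2)) := by
    have := R.GE_σ hε
    rwa [map_sub, map_mul, R.σ_X, R.σ_E, R.σ_C] at this
  obtain ⟨γ, hγ⟩ := exists_res none (R.G 0 / RatFunc.X ^ 2) (by
    have := ((hG 0).div (hXinf.pow 2)).ge
    norm_num at this
    exact this)
  have hγ1 : GE none 1 (R.G 1 / RatFunc.X ^ 2 - RatFunc.C (γ ^ 2)) := by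
    have := R.GE_σ hγ
    rwa [map_sub, map_div₀, map_pow, R.σ_X, R.σ_G, R.σ_C] at this
  have hγ0 : γ ≠ 0 := by
    rintro rfl
    rw [map_zero, sub_zero] at hγ
    have h2 := (hG 0).div (hXinf.pow 2)
    norm_num at h2
    exact h2.not_ge hγ
  have h2k : ∀ x : RatFunc k, x + x = 0 := by
    intro x
    have : CharP (RatFunc k) 2 :=
      charP_of_injective_algebraMap (algebraMap k (RatFunc k)).injective 2
    exact CharTwo.add_self_eq_zero x
  have h2k' : ∀ x : k, x + x = 0 := fun x => CharTwo.add_self_eq_zero x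
  have hX0 : (RatFunc.X : RatFunc k) ≠ 0 := RatFunc.X_ne_zero
  -- `D 1 / X^2`
  have hD1 : GE none 1 (R.D 1 / RatFunc.X ^ 2 - RatFunc.C (γ ^ 2)) := by
    have e1 : R.D 1 / RatFunc.X ^ 2 - RatFunc.C (γ ^ 2) =
        (RatFunc.C (R.θ 1) - RatFunc.X) / RatFunc.X ^ 2 -
          (R.G 1 / RatFunc.X ^ 2 - RatFunc.C (γ ^ 2)) := by
      have e2 := R.D_add 1
      have e3 : R.D 1 = (RatFunc.C (R.θ 1) - RatFunc.X) - R.G 1 := by rw [← e2]; ring
      have e4 := h2k (RatFunc.C (γ ^ 2))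
      rw [e3, sub_div]
      linear_combination -e4
    rw [e1]
    apply GE.sub _ hγ1
    have := ((EX_CX_inf (R.θ 1)).div (hXinf.pow 2)).ge
    norm_num at this
    exact this
  -- `J / X^4`
  have hJ : GE none 1 (R.J / RatFunc.X ^ 4 - RatFunc.C (γ ^ 2)) := by
    have r1 := R.rel' 0
    have hd : EX none 0 (R.D 1 / RatFunc.X ^ 2) := by
      have := (hD 1).div (hXinf.pow 2)
      norm_num at this
      exact this
    have e1 : R.D 1 / RatFunc.X ^ 2 * (R.J / RatFunc.X ^ 4 - RatFunc.C (γ ^ 2)) =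
        (R.G 1 / RatFunc.X ^ 2 - RatFunc.C (γ ^ 2)) * (R.G 0 / RatFunc.X ^ 2) ^ 2 +
        RatFunc.C (γ ^ 2) * (R.G 0 / RatFunc.X ^ 2 - RatFunc.C γ) ^ 2 -
        RatFunc.C (γ ^ 2) * (R.D 1 / RatFunc.X ^ 2 - RatFunc.C (γ ^ 2)) := by
      have e2 : R.D 1 / RatFunc.X ^ 2 * (R.J / RatFunc.X ^ 4) =
          R.G 1 / RatFunc.X ^ 2 * (R.G 0 / RatFunc.X ^ 2) ^ 2 := by
        rw [div_mul_div_comm, div_pow, div_mul_div_comm]
        have : R.D 1 * R.J = R.G 1 * R.G 0 ^ 2 := by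
          rw [mul_comm]
          exact r1.symm
        rw [this]
        ring_nf
      have e3 := h2k (RatFunc.C (γ ^ 2) * (RatFunc.C γ * (R.G 0 / RatFunc.X ^ 2)))
      have e4 := h2k (RatFunc.C (γ ^ 2) * RatFunc.C γ ^ 2)
      rw [map_pow] at *
      linear_combination e2 + e3 - e4
    have h3 : GE none (0 + 1) (R.D 1 / RatFunc.X ^ 2 * (R.J / RatFunc.X ^ 4 - RatFunc.C (γ ^ 2))) := by
      rw [e1, zero_add]
      have g0 : GE none 0 ((R.G 0 / RatFunc.X ^ 2) ^ 2) := by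
        have := (((hG 0).div (hXinf.pow 2)).pow 2).ge
        norm_num at this
        exact this
      apply GE.sub (GE.add _ _) _
      · exact (hγ1.mul g0).mono (by norm_num)
      · exact ((GE.C none (γ ^ 2)).mul (hγ.pow (m := 2) (by norm_num))).mono (by norm_num)
      · exact ((GE.C none (γ ^ 2)).mul hD1).mono (by norm_num)
    exact GE.of_ex_mul hd h3
  -- `γ = 1`
  have hγ2 : γ = 1 := by
    have h3 := R.GE_σ hJ
    rw [map_sub, map_div₀, map_pow, R.σ_X, R.σ_J, R.σ_C] at h3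
    have h4 := h3.sub hJ
    rw [sub_sub_sub_cancel_left, ← map_sub] at h4
    have h5 : γ ^ 2 - (γ ^ 2) ^ 2 = 0 := by
      by_contra hne
      have h6 := h4.ord (EX.C none hne).1
      rw [(EX.C none hne).2] at h6
      norm_num at h6
    have h6 : γ ^ 2 * (1 - γ) * (1 - γ) = 0 := by
      have := h2k' (γ ^ 3)
      have := h2k' (γ ^ 4)
      linear_combination h5 - h2k' (γ ^ 3) + h2k' (γ ^ 4)
    rcases mul_eq_zero.1 h6 with h7 | h7
    · rcases mul_eq_zero.1 h7 with h8 | h8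
      · exact absurd h8 (pow_ne_zero _ hγ0)
      · exact (sub_eq_zero.1 h8).symm
    · exact (sub_eq_zero.1 h7).symm
  rw [hγ2, one_pow, map_one] at hD1
  -- the contradiction
  have hfin : GE none 1 (RatFunc.C (R.θ (1 + 1) - R.θ (0 + 1))) := by
    have e1 : RatFunc.C (R.θ (1 + 1) - R.θ (0 + 1)) =
        (R.D 1 / RatFunc.X ^ 2 - 1) * (1 + R.E (1 + 1) (0 + 1)) * (RatFunc.X * R.E 1 0) ^ 2 +
        R.E (1 + 1) (0 + 1) * (RatFunc.X * R.E 1 0) ^ 2 +
        (RatFunc.X * R.E 1 0 - RatFunc.C ε) ^ 2 +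
        RatFunc.C (R.θ (0 + 1)) * R.E (1 + 1) (0 + 1) -
        (RatFunc.X * R.E (1 + 1) (0 + 1) - RatFunc.C (ε ^ 2)) := by
      have e2 : R.D 1 / RatFunc.X ^ 2 * RatFunc.X ^ 2 = R.D 1 :=
        div_mul_cancel₀ _ (pow_ne_zero _ hX0)
      have e3 := h2k (RatFunc.C ε * (RatFunc.X * R.E 1 0))
      have e4 := h2k (RatFunc.C ε ^ 2)
      rw [map_pow]
      have hs' : R.D 1 * (1 + R.E (1 + 1) (0 + 1)) * R.E 1 0 ^ 2 =
        RatFunc.C (R.θ (1 + 1) - R.θ (0 + 1)) -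
        (RatFunc.C (R.θ (0 + 1)) - RatFunc.X) * R.E (1 + 1) (0 + 1) := hs
      linear_combination -hs' - ((1 + R.E (1 + 1) (0 + 1)) * R.E 1 0 ^ 2) * e2 + e3 - e4
    rw [e1]
    have g1 : GE none 0 ((RatFunc.X * R.E 1 0) ^ 2) := by
      have := ((hXinf.mul hE).pow 2).ge
      push_cast at this
      exact this.mono (by linarith)
    apply GE.sub (GE.add (GE.add (GE.add _ _) _) _) hε'
    · simpa using (hD1.mul (hu (1 + 1) (0 + 1)).ge).mul g1
    · exact (hE'.ge.mul g1).mono (by linarith)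
    · have := hε.pow (m := 2) (by norm_num)
      norm_num at this
      exact this.mono (by norm_num)
    · exact ((GE.C none _).mul hE'.ge).mono (by linarith)
  have hne : R.θ (1 + 1) - R.θ (0 + 1) ≠ 0 := sub_ne_zero.2 (R.θ_ne_succ _ _ h01)
  exact (EX.C none hne).not_ge hfin

end Two

end Red

end Pool.Agent.TH923.Y0
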