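import Mathlib
import Pool.Agent.TH923.Y0.Inf2

/-!
# The global inequality for `q = 2`
-/

set_option autoImplicit false

namespace Pool.Agent.TH923.Y0

open Finset

namespace Red

variable {k : Type*} [Field k] {N : ℕ} {R : Red k 2 2 N}

/-- the function `(θ - T) / G` -/
noncomputable def zz (R : Red k 2 2 N) (i : ℕ) : RatFunc k :=
  (RatFunc.C (R.θ i) - RatFunc.X) / R.G i

lemma zz_sub (i : ℕ) : R.zz i - 1 = R.D i / R.G i := by
  unfold zz
  have := R.G_ne i
  rw [← R.D_add i]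
  field_simp
  ring

lemma J_zz (i : ℕ) : R.J * (R.zz (i + 1) - 1) = R.G i ^ 2 := by
  rw [zz_sub]
  have h := R.rel' i
  have := R.G_ne (i + 1)
  field_simp
  linear_combination -h

lemma J_dz [CharP k 2] (i : ℕ) :
    ratD k R.J * (R.zz (i + 1) - 1) = - (R.J * ratD k (R.zz (i + 1))) := by
  have h := congrArg (ratD k) (J_zz (R := R) i)
  rw [ratD_mul, ratD_pow_dvd R.p_dvd, ratD_sub, ratD_one, sub_zero] at h
  linear_combination h

lemma idx (R : Red k 2 2 N) (i : ℕ) : R.zz (i + (N - 1) + 1) = R.zz i := by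
  have hN := R.hN
  unfold zz
  rw [show i + (N - 1) + 1 = i + N by omega, R.θ_per, R.G_per]

lemma J_dz' [CharP k 2] (i : ℕ) :
    ratD k R.J * (R.zz i - 1) = - (R.J * ratD k (R.zz i)) := by
  have h := J_dz (R := R) (i + (N - 1))
  rwa [idx] at h

lemma j_ne' (hJ : ratD k R.J ≠ 0) : R.j ≠ 0 := div_ne_zero hJ R.J_ne

lemma j_ord (hJ : ratD k R.J ≠ 0) (v : Option k) :
    ratOrd v R.j = ratOrd v (ratD k R.J) - ratOrd v R.J := ratOrd_div v hJ R.J_ne

lemma j_ge_fin (hJ : ratD k R.J ≠ 0) (c : k) : -1 ≤ ratOrd (some c) R.j := by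
  rw [j_ord hJ]
  have h1 := (GE.ratD_fin (EX.self (some c) R.J_ne).ge).ord hJ
  omega

lemma j_ge_fin_p [CharP k 2] (hJ : ratD k R.J ≠ 0) (c : k)
    (h2 : (2 : ℤ) ∣ ratOrd (some c) R.J) : 0 ≤ ratOrd (some c) R.j := by
  rw [j_ord hJ]
  have h1 := ((EX.self (some c) R.J_ne).ratD_fin_p (p := 2) h2).ord hJ
  omega

/-- `j` in terms of `zz` -/
lemma j_zz [CharP k 2] (i : ℕ) : R.j * (R.zz i - 1) = - ratD k (R.zz i) := by
  have h := J_dz' (R := R) i
  unfold j
  have := R.J_ne
  field_simp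
  linear_combination h

lemma j_typeII [CharP k 2] (hJ : ratD k R.J ≠ 0) (c : k)
    (hΓ : ratOrd (some c) R.J < 0)
    (hall : ∀ i, 2 * ratOrd (some c) (R.G i) = ratOrd (some c) R.J)
    (i : ℕ) : - ratOrd (some c) (R.G i) ≤ ratOrd (some c) R.j := by
  set t := - ratOrd (some c) (R.G i) with ht
  have hconst : ∀ j, ratOrd (some c) (R.G j) = -t := by
    intro j
    have h1 := hall i
    have h2 := hall j
    linarith
  have ht1 : 1 ≤ t := by
    have h1 := hall i
    omega
  obtain ⟨e, he1, -, -⟩ := R.typeII_fin c t ht1 (fun j => ⟨R.G_ne j, hconst j⟩)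
  have ht2 : (2 : ℤ) ∣ t := ⟨e, by rw [← he1]; push_cast; ring⟩
  have hG : EX (some c) (-t) (R.G i) := ⟨R.G_ne i, hconst i⟩
  have hinv : EX (some c) t (R.G i)⁻¹ := by simpa using hG.inv
  have hκ : GE (some c) 0 (RatFunc.C (R.θ i) - RatFunc.X) := by
    by_cases h : R.θ i = c
    · rw [h]; exact (EX_CX_same c).ge.mono (by norm_num)
    · exact (EX_CX_ne h).ge
  have hz : GE (some c) t (ratD k (R.zz i)) := by
    have e1 : R.zz i = (RatFunc.C (R.θ i) - RatFunc.X) * (R.G i)⁻¹ := div_eq_mul_inv _ _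
    rw [e1, ratD_mul, ratD_CX]
    apply GE.add
    · simpa using hκ.mul (hinv.ratD_fin_p (p := 2) ht2)
    · have := hinv.ge.neg
      rwa [neg_eq_neg_one_mul, mul_comm] at this
  have hs : ratOrd (some c) (R.D i) = -t := by
    have h4 := R.s_eq (some c) (i + (N - 1))
    have hN := R.hN
    rw [show i + (N - 1) + 1 = i + N by omega, R.D_per, R.G_per] at h4
    have h5 := hall (i + (N - 1))
    push_cast at h4
    rw [h4, hconst i]
    linarith
  have hzs : EX (some c) 0 (R.zz i - 1) := by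
    rw [zz_sub]
    have hD : EX (some c) (-t) (R.D i) := ⟨R.D_ne' i, hs⟩
    simpa using hD.div hG
  have h1 := j_zz (R := R) i
  have h2 : GE (some c) (0 + t) ((R.zz i - 1) * R.j) := by
    rw [mul_comm, h1, zero_add]
    exact hz.neg
  exact (GE.of_ex_mul hzs h2).ord (j_ne' hJ)

/-- general global lemma -/
theorem glob2 [CharP k 2] [IsAlgClosed k] (h : R.ND) (x : RatFunc k) (hx : x ≠ 0)
    (hx1 : ∀ c, -1 ≤ ratOrd (some c) x)
    (hx2 : ∀ c, (2 : ℤ) ∣ ratOrd (some c) R.J → 0 ≤ ratOrd (some c) x)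
    (hxII : ∀ c, ratOrd (some c) R.J < 0 →
      (∀ i, 2 * ratOrd (some c) (R.G i) = ratOrd (some c) R.J) →
      ∀ i, - ratOrd (some c) (R.G i) ≤ ratOrd (some c) x)
    (A B : ℤ) (hAB : A < B) (hA : A = 6 ∨ A = 0 ∧ ∀ c, (2 : ℤ) ∣ ratOrd (some c) R.J)
    (hB : ∀ i, B ≤ 3 * ratOrd none x + 6 * ratOrd none (R.w i) + 4 * ratOrd none (R.D i)
      + ratOrd none R.J) : False := by
  classical
  set F : RatFunc k := ∏ i ∈ range N, (x ^ 3 * R.w i ^ 6 * R.D i ^ 4 * R.J) with hF
  have hfac : ∀ i, x ^ 3 * R.w i ^ 6 * R.D i ^ 4 * R.J ≠ 0 := fun i =>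
    mul_ne_zero (mul_ne_zero (mul_ne_zero (pow_ne_zero _ hx) (pow_ne_zero _ (w_ne h i)))
      (pow_ne_zero _ (R.D_ne' i))) R.J_ne
  have hF0 : F ≠ 0 := Finset.prod_ne_zero_iff.2 fun i _ => hfac i
  have hord : ∀ v, ratOrd v F = ∑ i ∈ range N, (3 * ratOrd v x + 6 * ratOrd v (R.w i)
      + 4 * ratOrd v (R.D i) + ratOrd v R.J) := by
    intro v
    rw [hF, ratOrd_prod v _ _ fun i _ => hfac i]
    apply Finset.sum_congr rfl
    intro i _
    rw [ratOrd_mul v (mul_ne_zero (mul_ne_zero (pow_ne_zero _ hx) (pow_ne_zero _ (w_ne h i)))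
      (pow_ne_zero _ (R.D_ne' i))) R.J_ne,
      ratOrd_mul v (mul_ne_zero (pow_ne_zero _ hx) (pow_ne_zero _ (w_ne h i)))
      (pow_ne_zero _ (R.D_ne' i)), ratOrd_mul v (pow_ne_zero _ hx) (pow_ne_zero _ (w_ne h i)),
      ratOrd_pow v hx, ratOrd_pow v (w_ne h i), ratOrd_pow v (R.D_ne' i)]
    push_cast
    ring
  have hII : ∀ c : k, ratOrd (some c) R.J < 0 →
      (∀ i, 2 * ratOrd (some c) (R.G i) = ratOrd (some c) R.J) →
      ∀ i, - ratOrd (some c) (R.G i) ≤ 2 * ratOrd (some c) (R.w i) ∧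
        - ratOrd (some c) (R.G i) ≤ ratOrd (some c) x := by
    intro c h1 h2 i
    obtain ⟨e, he1, -, he3⟩ := w_typeII h c h1 (by intro i; push_cast; exact h2 i) i
    push_cast at he1
    exact ⟨by linarith, hxII c h1 h2 i⟩
  have hord1 : ∀ c : k, (∀ i, c ≠ R.θ i) → 0 ≤ ratOrd (some c) F := by
    intro c hc
    rw [hord]
    refine loc_ordinary2 (Γ := ratOrd (some c) R.J) (j := ratOrd (some c) x)
      (d := fun i => ratOrd (some c) (R.G i))
      (s := fun i => ratOrd (some c) (R.D i)) (o := fun i => ratOrd (some c) (R.w i))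
      R.hN ?_ ?_ ?_ ?_ ?_ ?_ (hx1 c) (hx2 c) ?_
    · intro i; simp only [R.G_per]
    · intro i; simp only [R.D_per]
    · intro i; exact R.s_eq _ i
    · intro i
      have := R.rule (some c) i
      rwa [(EX_CX_ne (hc i).symm).2] at this
    · intro i; exact w_ge_fin h c i
    · intro i hi; exact w_ge_fin_p (p := 2) h c i hi
    · exact hII c
  have hord2 : ∀ m, m < N → -A ≤ ratOrd (some (R.θ m)) F := by
    intro m hm
    rw [hord]
    set c := R.θ m with hc
    have key := loc_special2 (m := m) (Γ := ratOrd (some c) R.J) (j := ratOrd (some c) x)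
      (d := fun i => ratOrd (some c) (R.G i))
      (s := fun i => ratOrd (some c) (R.D i)) (o := fun i => ratOrd (some c) (R.w i))
      (τ := fun i => ratOrd (some c) (RatFunc.C (R.θ i) - RatFunc.X))
      R.hN hm (by
        intro i
        by_cases h1 : R.θ i = c
        · rw [h1, (EX_CX_same c).2, if_pos]
          have := R.θ_inj _ _ h1
          rwa [Nat.mod_eq_of_lt hm] at this
        · rw [(EX_CX_ne h1).2, if_neg]
          intro h2
          apply h1
          rw [hc, ← h2]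
          have h3 := per_eq R.θ_per (i / N) (i % N)
          rw [← h3]
          congr 1
          rw [mul_comm]
          exact (Nat.mod_add_div i N).symm)
      (by intro i; simp only [R.G_per]) (by intro i; simp only [R.D_per])
      (by intro i; simp only [R.w_per]) (by intro i; exact R.s_eq _ i)
      (by intro i; exact R.rule (some c) i) (by intro i; exact w_ge_fin h c i)
      (by intro i hi; exact w_ge_fin_p (p := 2) h c i hi) (hx1 c) (hx2 c) (hII c)
    rcases hA with rfl | ⟨rfl, h2⟩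
    · exact key.1
    · rw [neg_zero]
      exact key.2 (h2 c)
  have hinf : (N : ℤ) * B ≤ ratOrd none F := by
    rw [hord]
    have := Finset.card_nsmul_le_sum (range N)
      (fun i => 3 * ratOrd none x + 6 * ratOrd none (R.w i) + 4 * ratOrd none (R.D i)
      + ratOrd none R.J) B fun i _ => hB i
    rw [card_range, nsmul_eq_mul] at this
    exact this
  set S : Finset (Option k) := insert none ((range N).image fun m => some (R.θ m)) with hS
  have hprod := rat_prod k F hF0 S (by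
    intro v hv
    cases v with
    | none => simp [hS] at hv
    | some c =>
      apply hord1
      intro i hi
      apply hv
      rw [hS, mem_insert, mem_image]
      right
      refine ⟨i % N, mem_range.2 (Nat.mod_lt _ R.Npos), ?_⟩
      rw [hi]
      have h3 := per_eq R.θ_per (i / N) (i % N)
      rw [← h3]
      congr 2
      rw [mul_comm]
      exact Nat.mod_add_div i N)
  rw [hS, Finset.sum_insert (by simp), Finset.sum_image (by
    intro a ha b hb hab
    have h1 := R.θ_inj a b (Option.some.inj hab)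
    rwa [Nat.mod_eq_of_lt (mem_range.1 ha), Nat.mod_eq_of_lt (mem_range.1 hb)] at h1)] at hprod
  have h1 := Finset.card_nsmul_le_sum (range N) (fun m => ratOrd (some (R.θ m)) F)
    (-A) fun m hm => hord2 m (mem_range.1 hm)
  rw [card_range, nsmul_eq_mul] at h1
  have hNpos : (0 : ℤ) < N := by exact_mod_cast R.Npos
  nlinarith

/-- the infinite place, `J' ≠ 0` -/
lemma inf_J [CharP k 2] (h : R.ND) (hJ : ratD k R.J ≠ 0) (i : ℕ) :
    12 ≤ 3 * ratOrd none R.j + 6 * ratOrd none (R.w i) + 4 * ratOrd none (R.D i)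
      + ratOrd none R.J := by
  have hw := w_inf h i
  have hj1 : 1 ≤ ratOrd none R.j := by
    rw [j_ord hJ]
    have h1 := (GE.ratD_inf (EX.self none R.J_ne).ge).ord hJ
    omega
  have hj2 : (2 : ℤ) ∣ ratOrd none R.J → 2 ≤ ratOrd none R.j := by
    intro h2
    rw [j_ord hJ]
    have h1 := ((EX.self none R.J_ne).ratD_inf_p (p := 2) h2).ord hJ
    omega
  have hs := R.s_eq none 0
  rw [R.D_inf (0 + 1), R.G_inf (0 + 1), ← R.D_inf i, ← R.G_inf i] at hs
  push_cast at hs
  obtain ⟨r1, r2, r3⟩ := R.rule none i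
  rw [(EX_CX_inf (R.θ i)).2] at r1 r2 r3
  rcases lt_trichotomy (ratOrd none (R.G i)) (ratOrd none (R.D i)) with h1 | h1 | h1
  · have := r1 h1
    omega
  · have h2 := r3 h1
    set t := - ratOrd none (R.D i) with ht
    have hG : ∀ j, EX none (-t) (R.G j) := by
      intro j
      refine ⟨R.G_ne j, ?_⟩
      rw [R.G_inf j, ← R.G_inf i, h1, ht, neg_neg]
    have hD : ∀ j, EX none (-t) (R.D j) := by
      intro j
      refine ⟨R.D_ne' j, ?_⟩
      rw [R.D_inf j, ← R.D_inf i, ht, neg_neg]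
    have hΓ : ratOrd none R.J = -2 * t := by linarith
    have hj3 := hj2 ⟨-t, by rw [hΓ]; ring⟩
    rcases (show t = 1 ∨ t = 2 ∨ 3 ≤ t by omega) with h3 | h3 | h3
    · omega
    · exfalso
      rw [h3] at hG hD
      exact R.tie_two hG hD
    · obtain ⟨e, he2, het, he, hE⟩ := R.tie_even t h3 hG hD
      have hEi := hE i (i + 2) (R.θ_ne_two i)
      have h4 := hEi.ratD_inf_p (p := 2) he
      rw [← ratD_u_eq] at h4
      have h5 := h4.ord (h i)
      have h6 : e + 2 ≤ ratOrd none (R.w i) := by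
        rw [w_ord h, R.u_inf]
        linarith
      -- the bound for `j`
      have hz : EX none (-1 + t) (R.zz i) := by
        have := (EX_CX_inf (R.θ i)).div (hG i)
        rwa [sub_neg_eq_add] at this
      have hz1 : EX none 0 (R.zz i - 1) := by
        rw [zz_sub]
        simpa using (hD i).div (hG i)
      have h7 : GE none (0 + t) ((R.zz i - 1) * R.j) := by
        rw [mul_comm, j_zz]
        exact (GE.ratD_inf hz.ge).neg.mono (by linarith)
      have h8 := (GE.of_ex_mul hz1 h7).ord (j_ne' hJ)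
      linarith
  · have := r2 h1
    omega

/-- nondegenerate, `J' ≠ 0` -/
theorem main2_J [CharP k 2] [IsAlgClosed k] (h : R.ND) (hJ : ratD k R.J ≠ 0) : False :=
  glob2 h R.j (j_ne' hJ) (j_ge_fin hJ) (j_ge_fin_p hJ)
    (fun c h1 h2 i => j_typeII hJ c h1 h2 i) 6 12 (by norm_num) (Or.inl rfl) (inf_J h hJ)

/-! ### `J' = 0` -/

lemma dzz_zero [CharP k 2] (hJ : ratD k R.J = 0) (i : ℕ) : ratD k (R.zz i) = 0 := by
  have h := J_dz' (R := R) i
  rw [hJ, zero_mul] at h
  have := neg_eq_zero.1 h.symm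
  exact (mul_eq_zero.1 this).resolve_left R.J_ne

lemma zz_ne (i : ℕ) : R.zz i ≠ 0 := div_ne_zero (CX_ne _) (R.G_ne i)

lemma w_eq [CharP k 2] (hJ : ratD k R.J = 0) (i : ℕ) : R.w i =
    RatFunc.C (R.θ i - R.θ (i + 2)) /
      ((RatFunc.C (R.θ i) - RatFunc.X) * (RatFunc.C (R.θ (i + 2)) - RatFunc.X)) := by
  have h1 : R.zz i * R.G i = RatFunc.C (R.θ i) - RatFunc.X := div_mul_cancel₀ _ (R.G_ne i)
  have h2 : R.zz (i + 2) * R.G (i + 2) = RatFunc.C (R.θ (i + 2)) - RatFunc.X :=
    div_mul_cancel₀ _ (R.G_ne _)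
  have e : R.u i * R.G (i + 2) = R.G i := div_mul_cancel₀ _ (R.G_ne _)
  have c1 := CX_ne (R.θ i)
  have c2 := CX_ne (R.θ (i + 2))
  have z1 := zz_ne (R := R) i
  have e1 : R.u i * (RatFunc.C (R.θ (i + 2)) - RatFunc.X) * R.zz i =
      (RatFunc.C (R.θ i) - RatFunc.X) * R.zz (i + 2) := by
    rw [← h1, ← h2, ← e]
    ring
  have de := congrArg (ratD k) e1
  rw [ratD_mul, ratD_mul, ratD_mul, dzz_zero hJ, dzz_zero hJ, ratD_CX, ratD_CX] at de
  unfold w
  rw [div_eq_div_iff (R.u_ne i) (mul_ne_zero c1 c2), map_sub]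
  apply mul_left_cancel₀ z1
  linear_combination (RatFunc.C (R.θ i) - RatFunc.X) * de + e1

lemma w_le_fin [CharP k 2] (hJ : ratD k R.J = 0) (c : k) (i : ℕ) :
    ratOrd (some c) (R.w i) ≤ 0 := by
  have hκ : ∀ a : k, 0 ≤ ratOrd (some c) (RatFunc.C a - RatFunc.X) := by
    intro a
    by_cases h : a = c
    · rw [h, (EX_CX_same c).2]; norm_num
    · rw [(EX_CX_ne h).2]
  rw [w_eq hJ, ratOrd_div _ (EX.C (some c) (sub_ne_zero.2 (R.θ_ne_two i))).1
    (mul_ne_zero (CX_ne _) (CX_ne _)), ratOrd_mul _ (CX_ne _) (CX_ne _),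
    (EX.C (some c) (sub_ne_zero.2 (R.θ_ne_two i))).2]
  have h1 := hκ (R.θ i)
  have h2 := hκ (R.θ (i + 2))
  linarith

/-- the infinite place, `J' = 0` -/
lemma inf_J0 [CharP k 2] (h : R.ND) (hJ : ratD k R.J = 0) (i : ℕ) :
    6 ≤ 3 * ratOrd none (1 : RatFunc k) + 6 * ratOrd none (R.w i) + 4 * ratOrd none (R.D i)
      + ratOrd none R.J := by
  have hw := w_inf h i
  have hΓ2 := dvd_of_ratD_zero (p := 2) none R.J_ne hJ
  have hz2 := dvd_of_ratD_zero (p := 2) none (zz_ne i) (dzz_zero hJ i)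
  have hzo : ratOrd none (R.zz i) = -1 - ratOrd none (R.G i) := by
    unfold zz
    rw [ratOrd_div _ (CX_ne _) (R.G_ne i), (EX_CX_inf (R.θ i)).2]
  rw [hzo] at hz2
  rw [ratOrd_one]
  have hs := R.s_eq none 0
  rw [R.D_inf (0 + 1), R.G_inf (0 + 1), ← R.D_inf i, ← R.G_inf i] at hs
  push_cast at hs hΓ2 hz2
  obtain ⟨r1, r2, r3⟩ := R.rule none i
  rw [(EX_CX_inf (R.θ i)).2] at r1 r2 r3
  rcases lt_trichotomy (ratOrd none (R.G i)) (ratOrd none (R.D i)) with h1 | h1 | h1
  · have := r1 h1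
    omega
  · have h2 := r3 h1
    set t := - ratOrd none (R.D i) with ht
    have hG : ∀ j, EX none (-t) (R.G j) := by
      intro j
      refine ⟨R.G_ne j, ?_⟩
      rw [R.G_inf j, ← R.G_inf i, h1, ht, neg_neg]
    have hD : ∀ j, EX none (-t) (R.D j) := by
      intro j
      refine ⟨R.D_ne' j, ?_⟩
      rw [R.D_inf j, ← R.D_inf i, ht, neg_neg]
    rcases (show t = 1 ∨ t = 2 ∨ 3 ≤ t by omega) with h3 | h3 | h3
    · omega
    · exfalso
      rw [h3] at hG hD
      exact R.tie_two hG hD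
    · exfalso
      obtain ⟨e, he2, het, -, -⟩ := R.tie_even t h3 hG hD
      omega
  · have := r2 h1
    omega

/-- nondegenerate, `J' = 0` -/
theorem main2_J0 [CharP k 2] [IsAlgClosed k] (h : R.ND) (hJ : ratD k R.J = 0) : False := by
  refine glob2 h 1 one_ne_zero (fun c => by rw [ratOrd_one]; norm_num)
    (fun c _ => by rw [ratOrd_one]) ?_ 0 6 (by norm_num)
    (Or.inr ⟨rfl, fun c => dvd_of_ratD_zero (p := 2) _ R.J_ne hJ⟩) (inf_J0 h hJ)
  intro c h1 h2 i
  exfalso
  obtain ⟨e, he1, -, he3⟩ := w_typeII h c h1 (by intro i; push_cast; exact h2 i) i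
  have h3 := w_le_fin hJ c i
  have h4 := h2 i
  push_cast at he1
  linarith

/-- the nondegenerate case for `q = 2` -/
theorem main2 [CharP k 2] [IsAlgClosed k] (h : R.ND) : False := by
  by_cases hJ : ratD k R.J = 0
  · exact main2_J0 h hJ
  · exact main2_J h hJ

end Red

end Pool.Agent.TH923.Y0
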