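import Mathlib
import Pool.Agent.TH923.Y0.Main2
import Pool.Agent.TH923.Y0.Deg43
import Pool.Agent.TH923.Y0.Deg44
import Pool.Agent.TH923.Y0.Front

/-!
# Assembly
-/

set_option autoImplicit false

namespace Pool.Agent.TH923.Y0

open Polynomial

/-- **There is no reduced system**, except possibly for `q = 3`, `N = 3`. -/
theorem no_Red {k : Type*} [Field k] [IsAlgClosed k] {p q N : ℕ} [CharP k p] (R : Red k p q N)
    (h33 : ¬ (q = 3 ∧ N = 3)) : False := by
  by_cases hND : R.ND
  · by_cases hq2 : q = 2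
    · have hp2 : p = 2 := by
        have h1 := R.p_dvd
        rw [hq2] at h1
        exact (Nat.prime_dvd_prime_iff_eq R.hp Nat.prime_two).1 h1
      subst hp2
      subst hq2
      exact Red.main2 hND
    · have := R.q_ge
      exact Red.main3 hND (by omega) h33
  · by_cases hN4 : N = 4
    · subst hN4
      by_cases hp2 : p = 2
      · subst hp2
        by_cases hq2 : q = 2
        · subst hq2
          exact Red.deg4_q2 hND
        · obtain ⟨f, hf, hqf⟩ := R.hq
          have hf2 : 2 ≤ f := by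
            by_contra hcon
            have : f = 1 := by omega
            subst this
            exact hq2 (by rw [hqf]; norm_num)
          have hq4 : 4 ≤ q := by
            rw [hqf]
            calc 4 = 2 ^ 2 := by norm_num
              _ ≤ 2 ^ f := Nat.pow_le_pow_right (by norm_num) hf2
          exact Red.deg4_two hND hq4
      · exact Red.deg4_odd hND hp2
    · exact Red.deg_ne_four hND hN4

/-- the main theorem, over an arbitrary finite field -/
theorem main {Fq : Type} [Field Fq] [Finite Fq] {q N : ℕ} (hc : Nat.card Fq = q)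
    (g Δ : RatFunc Fq) {P : Fq[X]} (hN : (if q = 3 then 4 else 3) ≤ N) (hΔ : Δ ≠ 0)
    (hPi : Irreducible P) (hPm : P.Monic) (hPN : P.natDegree = N) (S : Set (LL Fq))
    (hfin : S.Finite) (hcard : S.ncard = q ^ N)
    (hmul : ∀ a : Fq[X], ∀ x ∈ S, a.sum (fun (i : ℕ) (c : Fq) =>
      algebraMap (RatFunc Fq) (LL Fq) (RatFunc.C c) *
        (fun y : LL Fq => algebraMap (RatFunc Fq) (LL Fq) RatFunc.X * y +
          algebraMap (RatFunc Fq) (LL Fq) g * y ^ q +
          algebraMap (RatFunc Fq) (LL Fq) Δ * y ^ (q ^ 2))^[i] x) ∈ S)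
    (hP : ∀ x ∈ S, P.sum (fun (i : ℕ) (c : Fq) =>
      algebraMap (RatFunc Fq) (LL Fq) (RatFunc.C c) *
        (fun y : LL Fq => algebraMap (RatFunc Fq) (LL Fq) RatFunc.X * y +
          algebraMap (RatFunc Fq) (LL Fq) g * y ^ q +
          algebraMap (RatFunc Fq) (LL Fq) Δ * y ^ (q ^ 2))^[i] x) = 0)
    (hGal : ∀ τ : LL Fq ≃ₐ[RatFunc Fq] LL Fq, ∀ x ∈ S, τ x ∈ S) : False := by
  obtain ⟨p, hp⟩ := CharP.exists Fq
  have hN3 : 3 ≤ N := by
    split_ifs at hN <;> omega
  obtain ⟨R⟩ := front hc g Δ p hN3 hΔ hPi hPm hPN S hfin hcard hmul hP hGal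
  have hpk : CharP (kk Fq) p := charP_of_injective_algebraMap (algebraMap Fq (kk Fq)).injective p
  apply no_Red R
  rintro ⟨h1, h2⟩
  rw [if_pos h1] at hN
  omega

end Pool.Agent.TH923.Y0
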